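import Pool.Agent.BSpi.PSL.H90

set_option autoImplicit false
set_option linter.unusedSimpArgs false
set_option linter.unusedVariables false

open Matrix Matrix.SpecialLinearGroup
open scoped MatrixGroups

namespace Pool.Agent.BSpi.Cls

open PSL

variable {S F : Type} [Group S] [Field F]

lemma u_inj {a b : F} (h : u a = u b) : a = b := by
  have h1 : (u a) 0 1 = (u b) 0 1 := by rw [h]
  rwa [u01, u01] at h1

lemma v_inj {a b : F} (h : v a = v b) : a = b := by
  have h1 : (v a) 1 0 = (v b) 1 0 := by rw [h]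
  rwa [v10, v10] at h1

lemma diag_u (l t : F) (hl : l ≠ 0) : sl l 0 0 l⁻¹ (by field_simp; ring) * u t *
    (sl l 0 0 l⁻¹ (by field_simp; ring))⁻¹ = u (l * l * t) := by
  apply sl_ext <;>
    simp only [mul00, mul01, mul10, mul11, u00, u01, u10, u11, inv00, inv01, inv10, inv11,
      sl00, sl01, sl10, sl11] <;> field_simp <;> ring

/-- An additive bijection compatible with multiplications by squares is semilinear. -/
lemma semilin [Finite F] (θ : F → F) (hadd : ∀ a b, θ (a + b) = θ a + θ b)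
    (hinj : ∀ a, θ a = 0 → a = 0) (hsq : ∀ l : F, l ≠ 0 → ∃ μ : F, ∀ a, θ (l * l * a) = μ * θ a) :
    ∃ (c : F) (σ : F ≃+* F), c ≠ 0 ∧ ∀ a, θ a = c * σ a := by
  have h0 : θ 0 = 0 := by
    have := hadd 0 0
    rw [add_zero] at this
    exact left_eq_add.1 this
  have hc : θ 1 ≠ 0 := fun h => one_ne_zero (hinj 1 h)
  let ρ : F → F := fun a => θ a / θ 1
  have hρadd : ∀ a b, ρ (a + b) = ρ a + ρ b := fun a b => by
    simp only [ρ]
    rw [hadd, add_div]
  have hρ1 : ρ 1 = 1 := div_self hc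
  have hρsq : ∀ l a : F, ρ (l * l * a) = ρ (l * l) * ρ a := by
    intro l a
    by_cases hl : l = 0
    · subst hl
      simp only [ρ, zero_mul, h0, zero_div]
    · obtain ⟨μ, hμ⟩ := hsq l hl
      have h1 := hμ 1
      rw [mul_one] at h1
      simp only [ρ]
      rw [hμ, h1]
      field_simp
  have hρmul : ∀ a b : F, ρ (a * b) = ρ a * ρ b := by
    intro a b
    obtain ⟨x, y, hxy⟩ := sum_sq a
    rw [← hxy, add_mul, hρadd, hρadd, hρsq, hρsq, add_mul]
  have hρinj : Function.Injective ρ := by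
    intro a b hab
    have h1 : θ a = θ b := by
      have : θ a / θ 1 = θ b / θ 1 := hab
      rwa [div_left_inj' hc] at this
    have h2 := hadd (a - b) b
    rw [sub_add_cancel, h1] at h2
    exact sub_eq_zero.1 (hinj _ (right_eq_add.1 h2))
  let ρh : F →+* F :=
    { toFun := ρ
      map_one' := hρ1
      map_mul' := hρmul
      map_zero' := by simp only [ρ, h0, zero_div]
      map_add' := hρadd }
  refine ⟨θ 1, RingEquiv.ofBijective ρh ⟨hρinj, Finite.surjective_of_injective hρinj⟩, hc,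
    fun a => ?_⟩
  change θ a = θ 1 * (θ a / θ 1)
  field_simp

/-- The semilinear form of an automorphism of odd order moving a root group to an opposite one. -/
lemma core [Finite F] (φ : SL(2, F) →* S) (hφ : Function.Injective φ) {m : ℕ} {f : MulAut S}
    (hf : f ^ (2 * m + 1) = 1) (h1 : ∀ a, ∃ b, f (φ (u a)) = φ (v b))
    (h2 : ∀ s : S, (∀ a, ∃ b, s * φ (u a) * s⁻¹ = φ (u b)) →
      ∃ ν : F, ∀ a, s * φ (u a) * s⁻¹ = φ (u (ν * a))) :
    ∃ (c : F) (σ : F ≃+* F), c ≠ 0 ∧ σ ^ (2 * m + 1) = 1 ∧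
      ∀ a, f (φ (u a)) = φ (v (c * σ a)) := by
  choose θ hθ using h1
  have hvinj : ∀ a b : F, φ (v a) = φ (v b) → a = b := fun a b h => v_inj (hφ h)
  have huinj : ∀ a b : F, φ (u a) = φ (u b) → a = b := fun a b h => u_inj (hφ h)
  have hadd : ∀ a b, θ (a + b) = θ a + θ b := by
    intro a b
    apply hvinj
    rw [← hθ, u_add, map_mul, map_mul, hθ, hθ, ← map_mul, ← v_add]
  have hzero : ∀ a, θ a = 0 → a = 0 := by
    intro a ha
    have h3 := hθ a
    rw [ha, v_zero, map_one] at h3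
    have h4 : φ (u a) = 1 := (MulEquiv.map_eq_one_iff f).1 h3
    rw [← map_one φ, ← u_zero] at h4
    exact huinj _ _ h4
  have hθinj : Function.Injective θ := by
    intro a b hab
    have h3 := hadd (a - b) b
    rw [sub_add_cancel, hab] at h3
    exact sub_eq_zero.1 (hzero _ (right_eq_add.1 h3))
  have hθsurj : Function.Surjective θ := Finite.surjective_of_injective hθinj
  -- the Weyl element
  let w : SL(2, F) := n 1 one_ne_zero
  have hw : ∀ t : F, w * u t * w⁻¹ = v (-t) := by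
    intro t
    have := n_conj 1 one_ne_zero t
    rw [this]
    congr 1
    ring
  have hwv : ∀ t : F, φ (v t) = φ w * φ (u (-t)) * (φ w)⁻¹ := by
    intro t
    rw [← map_inv, ← map_mul, ← map_mul, hw, neg_neg]
  -- elements normalizing the lower group act by scalars
  have h2v : ∀ s : S, (∀ a, ∃ b, s * φ (v a) * s⁻¹ = φ (v b)) →
      ∃ ν : F, ∀ a, s * φ (v a) * s⁻¹ = φ (v (ν * a)) := by
    intro s hs
    obtain ⟨ν, hν⟩ := h2 ((φ w)⁻¹ * s * φ w) (fun a => by
      obtain ⟨b, hb⟩ := hs (-a)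
      rw [hwv, hwv, neg_neg] at hb
      refine ⟨-b, ?_⟩
      have h3 : (φ w)⁻¹ * s * φ w * φ (u a) * ((φ w)⁻¹ * s * φ w)⁻¹ =
          (φ w)⁻¹ * (s * (φ w * φ (u a) * (φ w)⁻¹) * s⁻¹) * φ w := by group
      rw [h3, hb]
      group)
    refine ⟨ν, fun a => ?_⟩
    have h3 := hν (-a)
    rw [hwv, hwv]
    have h4 : s * (φ w * φ (u (-a)) * (φ w)⁻¹) * s⁻¹ =
        φ w * ((φ w)⁻¹ * s * φ w * φ (u (-a)) * ((φ w)⁻¹ * s * φ w)⁻¹) * (φ w)⁻¹ := by group
    rw [h4, h3]
    congr 4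
    ring
  obtain ⟨c, σ, hc, hσ⟩ := semilin θ hadd hzero (by
    intro l hl
    set d := f (φ (sl l 0 0 l⁻¹ (by field_simp; ring))) with hd
    have hdu : ∀ a, d * φ (v (θ a)) * d⁻¹ = φ (v (θ (l * l * a))) := by
      intro a
      rw [← hθ, ← hθ, hd, ← map_inv, ← map_mul, ← map_mul, ← map_inv, ← map_mul, ← map_mul,
        diag_u l a hl]
    obtain ⟨ν, hν⟩ := h2v d (fun a => by
      obtain ⟨b, rfl⟩ := hθsurj a
      exact ⟨_, hdu b⟩)
    refine ⟨ν, fun a => ?_⟩
    apply hvinj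
    rw [← hdu, hν])
  refine ⟨c, σ, hc, ?_, fun a => by rw [hθ, hσ]⟩
  -- go around
  have hit : ∀ k : ℕ, ∃ s : S, ∀ a, (f ^ k) (φ (u a)) =
      s * φ (u (((-c) * ·)^[0] ((fun x => -(θ x))^[k] a))) * s⁻¹ := by
    intro k
    induction k with
    | zero => exact ⟨1, fun a => by simp⟩
    | succ k ih =>
      obtain ⟨s, hs⟩ := ih
      refine ⟨(f ^ k) (φ w) * s, fun a => ?_⟩
      have h3 : (f ^ (k + 1)) (φ (u a)) = (f ^ k) (f (φ (u a))) := by rw [pow_succ]; rfl
      rw [h3, hθ, hwv, map_mul, map_mul, map_inv, hs, Function.iterate_succ_apply]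
      group
  simp only [Function.iterate_zero, id_eq] at hit
  obtain ⟨s, hs⟩ := hit (2 * m + 1)
  rw [hf] at hs
  have hs' : ∀ a, s⁻¹ * φ (u a) * s = φ (u ((fun x => -(θ x))^[2 * m + 1] a)) := by
    intro a
    have h3 := hs a
    rw [MulAut.one_apply] at h3
    rw [h3]
    group
  obtain ⟨ν, hν⟩ := h2 s⁻¹ (fun a => ⟨_, by rw [inv_inv]; exact hs' a⟩)
  have hν' : ∀ a, (fun x => -(θ x))^[2 * m + 1] a = ν * a := by
    intro a
    apply huinj
    rw [← hs', ← hν, inv_inv]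
  have hiter : ∀ k : ℕ, ∃ d : F, d ≠ 0 ∧ ∀ a, (fun x => -(θ x))^[k] a = d * (σ ^ k) a := by
    intro k
    induction k with
    | zero => exact ⟨1, one_ne_zero, fun a => by simp⟩
    | succ k ih =>
      obtain ⟨d, hd, hda⟩ := ih
      refine ⟨-(c * σ d), neg_ne_zero.2 (mul_ne_zero hc
        ((map_ne_zero_iff _ σ.injective).2 hd)), fun a => ?_⟩
      rw [Function.iterate_succ_apply', hda, hσ, map_mul, pow_succ']
      change -(c * (σ d * σ ((σ ^ k) a))) = -(c * σ d) * σ ((σ ^ k) a)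
      ring
  obtain ⟨d, hd, hda⟩ := hiter (2 * m + 1)
  ext a
  have h3 := hν' a
  have h4 := hν' 1
  rw [hda] at h3 h4
  rw [map_one, mul_one, mul_one] at h4
  rw [← h4] at h3
  exact mul_left_cancel₀ hd h3

/-- Squares are of the form `a * σ a` when `σ` has odd order. -/
lemma sq_twist {σ : F ≃+* F} {m : ℕ} (h : σ ^ (2 * m + 1) = 1) {y : F} (hy : y ≠ 0) :
    ∃ a : F, a ≠ 0 ∧ a * σ a = y * y := by
  have key : ∀ k : ℕ, ∃ a : F, a ≠ 0 ∧ a * σ a = y * (σ ^ (2 * k + 1)) y := by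
    intro k
    induction k with
    | zero => exact ⟨y, hy, by simp⟩
    | succ k ih =>
      obtain ⟨a, ha, hσa⟩ := ih
      have hne : ∀ j : ℕ, (σ ^ j) y ≠ 0 := fun j =>
        (map_ne_zero_iff _ (σ ^ j : F ≃+* F).injective).2 hy
      have hs : ∀ j : ℕ, σ ((σ ^ j) y) = (σ ^ (j + 1)) y := by
        intro j
        rw [pow_succ']
        rfl
      refine ⟨a * ((σ ^ (2 * k + 1)) y)⁻¹ * (σ ^ (2 * k + 2)) y, mul_ne_zero (mul_ne_zero ha
        (inv_ne_zero (hne _))) (hne _), ?_⟩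
      rw [map_mul, map_mul, map_inv₀, hs, hs]
      have e1 : 2 * k + 1 + 1 = 2 * k + 2 := by ring
      have e2 : 2 * k + 2 + 1 = 2 * (k + 1) + 1 := by ring
      rw [e1, e2]
      have h1 := hne (2 * k + 1)
      have h2 := hne (2 * k + 2)
      field_simp
      linear_combination (σ ^ (2 * (k + 1) + 1)) y * hσa
  obtain ⟨a, ha, hσa⟩ := key m
  rw [h] at hσa
  exact ⟨a, ha, hσa⟩

end Pool.Agent.BSpi.Cls
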