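import Mathlib

set_option autoImplicit false
set_option linter.unusedSimpArgs false
set_option linter.unusedVariables false
set_option linter.unusedSectionVars false

namespace Pool.Agent.BSpi.Cls

/-- Nondegenerate trace valued skew-hermitian forms (with respect to an automorphism of order at
most two), for example alternating forms. -/
structure SForm (K V : Type) [Field K] [AddCommGroup V] [Module K V] where
  τ : K ≃+* K
  tt : ∀ a, τ (τ a) = a
  h : V → V → K
  add_left : ∀ x y z, h (x + y) z = h x z + h y z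
  smul_left : ∀ a x y, h (a • x) y = a * h x y
  skew : ∀ x y, h y x = - τ (h x y)
  nondeg : ∀ x, (∀ y, h x y = 0) → x = 0
  tr : ∀ x, ∃ b, h x x = b - τ b

namespace SForm

variable {K V : Type} [Field K] [AddCommGroup V] [Module K V] (B : SForm K V)

lemma add_right (x y z : V) : B.h x (y + z) = B.h x y + B.h x z := by
  rw [B.skew (y + z), B.add_left, map_add, B.skew y x, B.skew z x]
  ring

lemma smul_right (a : K) (x y : V) : B.h x (a • y) = B.τ a * B.h x y := by
  rw [B.skew (a • y), B.smul_left, map_mul, B.skew y x]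
  ring

lemma zero_left (x : V) : B.h 0 x = 0 := by
  have := B.smul_left 0 0 x
  rwa [zero_smul, zero_mul] at this

lemma zero_right (x : V) : B.h x 0 = 0 := by
  rw [B.skew 0 x, B.zero_left, map_zero, neg_zero]

lemma neg_left (x y : V) : B.h (-x) y = - B.h x y := by
  rw [← neg_one_smul K x, B.smul_left, neg_one_mul]

lemma neg_right (x y : V) : B.h x (-y) = - B.h x y := by
  rw [← neg_one_smul K y, B.smul_right, map_neg, map_one, neg_one_mul]

lemma sub_left (x y z : V) : B.h (x - y) z = B.h x z - B.h y z := by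
  rw [sub_eq_add_neg, B.add_left, B.neg_left, sub_eq_add_neg]

lemma sub_right (x y z : V) : B.h x (y - z) = B.h x y - B.h x z := by
  rw [sub_eq_add_neg, B.add_right, B.neg_right, sub_eq_add_neg]

lemma zero_symm {x y : V} (h : B.h x y = 0) : B.h y x = 0 := by
  rw [B.skew, h, map_zero, neg_zero]

lemma ne_symm {x y : V} (h : B.h x y ≠ 0) : B.h y x ≠ 0 := fun h' => h (B.zero_symm h')

lemma eq_of_right {x y : V} (h : ∀ z, B.h z x = B.h z y) : x = y := by
  rw [← sub_eq_zero]
  refine B.nondeg _ fun z => B.zero_symm ?_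
  rw [B.sub_right, h, sub_self]

/-- Isotropic nonzero vectors. -/
def Iso (u : V) : Prop := u ≠ 0 ∧ B.h u u = 0

variable {B}

lemma Iso.smul {u : V} (hu : B.Iso u) {a : K} (ha : a ≠ 0) : B.Iso (a • u) :=
  ⟨smul_ne_zero ha hu.1, by rw [B.smul_left, B.smul_right, hu.2, mul_zero, mul_zero]⟩

/-- Correcting a vector to an isotropic one. -/
lemma correct {x u : V} (hu : B.Iso u) (hx : B.h x u ≠ 0) : ∃ a : K, B.Iso (x + a • u) := by
  obtain ⟨b, hb⟩ := B.tr x
  have hux : B.h u x ≠ 0 := B.ne_symm hx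
  refine ⟨-b / B.h u x, ?_, ?_⟩
  · intro h0
    apply hx
    have h1 : x = (-(-b / B.h u x)) • u := by
      rw [neg_smul]
      exact eq_neg_of_add_eq_zero_left h0
    rw [h1, B.smul_left, hu.2, mul_zero]
  · rw [B.add_left, B.add_right, B.add_right, B.smul_left, B.smul_left, B.smul_right, B.smul_right,
      hu.2, hb, B.skew u x, map_div₀, map_neg, B.skew x u, map_neg, B.tt]
    have h1 : B.τ (B.h x u) ≠ 0 := (map_ne_zero_iff _ B.τ.injective).2 hx
    field_simp
    ring

/-- Hyperbolic partners. -/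
lemma partner {u : V} (hu : B.Iso u) : ∃ w, B.Iso w ∧ B.h u w = 1 := by
  obtain ⟨y, hy⟩ : ∃ y, B.h u y ≠ 0 := by
    by_contra hcon
    push Not at hcon
    exact hu.1 (B.nondeg u hcon)
  obtain ⟨a, ha⟩ := correct hu (B.ne_symm hy)
  have h1 : B.h u (y + a • u) = B.h u y := by
    rw [B.add_right, B.smul_right, hu.2, mul_zero, add_zero]
  have h2 : B.τ (B.h u y)⁻¹ ≠ 0 := (map_ne_zero_iff _ B.τ.injective).2 (inv_ne_zero hy)
  refine ⟨B.τ (B.h u y)⁻¹ • (y + a • u), ha.smul h2, ?_⟩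
  rw [B.smul_right, B.tt, h1, inv_mul_cancel₀ hy]

/-- Combining isotropic vectors. -/
lemma combine {w w' : V} (hw : B.Iso w) (hw' : B.Iso w') (hne : ∀ c : K, w + c • w' ≠ 0) :
    ∃ c : K, c ≠ 0 ∧ B.Iso (w + c • w') := by
  by_cases h : B.h w w' = 0
  · refine ⟨1, one_ne_zero, hne 1, ?_⟩
    rw [one_smul, B.add_left, B.add_right, B.add_right, hw.2, hw'.2, h, B.zero_symm h]
    ring
  · refine ⟨B.h w w', h, hne _, ?_⟩
    rw [B.add_left, B.add_right, B.add_right, B.smul_left, B.smul_left, B.smul_right, B.smul_right,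
      hw.2, hw'.2, B.skew w w']
    ring

/-- Common opposites. -/
lemma common {u u' : V} (hu : B.Iso u) (hu' : B.Iso u') :
    ∃ w, B.Iso w ∧ B.h u w ≠ 0 ∧ B.h u' w ≠ 0 := by
  obtain ⟨w, hw, huw⟩ := partner hu
  obtain ⟨w', hw', huw'⟩ := partner hu'
  have h1 : B.h u w ≠ 0 := by rw [huw]; exact one_ne_zero
  have h2 : B.h u' w' ≠ 0 := by rw [huw']; exact one_ne_zero
  by_cases h3 : B.h u' w = 0
  · by_cases h4 : B.h u w' = 0
    · obtain ⟨c, hc, hcI⟩ := combine hw hw' (by
        intro c h0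
        apply h1
        have h5 : w = (-c) • w' := by rw [eq_neg_of_add_eq_zero_left h0, neg_smul]
        rw [h5, B.smul_right, h4, mul_zero])
      refine ⟨_, hcI, ?_, ?_⟩
      · rw [B.add_right, B.smul_right, h4, mul_zero, add_zero]
        exact h1
      · rw [B.add_right, B.smul_right, h3, zero_add]
        exact mul_ne_zero ((map_ne_zero_iff _ B.τ.injective).2 hc) h2
    · exact ⟨w', hw', h4, h2⟩
  · exact ⟨w, hw, h1, h3⟩

/-- Linear algebra. -/
lemma mem_of_perp {u x : V} (hu : u ≠ 0) (h : ∀ y, B.h y u = 0 → B.h y x = 0) :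
    ∃ c : K, x = c • u := by
  obtain ⟨y, hy⟩ : ∃ y, B.h y u ≠ 0 := by
    by_contra hcon
    push Not at hcon
    exact hu (B.nondeg u fun y => B.zero_symm (hcon y))
  refine ⟨B.τ (B.h y x / B.h y u), B.eq_of_right fun z => ?_⟩
  rw [B.smul_right, B.tt]
  have h1 := h (z - (B.h z u / B.h y u) • y) (by
    rw [B.sub_left, B.smul_left]
    field_simp
    ring)
  rw [B.sub_left, B.smul_left] at h1
  field_simp at h1 ⊢
  linear_combination h1

/-- The form has rank at least two. -/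
def Rk (B : SForm K V) : Prop := (∃ u, B.Iso u) ∧
  ∀ u w, B.Iso u → B.Iso w → B.h u w ≠ 0 → ∃ z, B.Iso z ∧ B.h z u = 0 ∧ B.h z w = 0

/-- The form has positive rank and dimension at least three. -/
def Rk1 (B : SForm K V) : Prop := (∃ u, B.Iso u) ∧
  ∀ u w, B.Iso u → B.Iso w → B.h u w ≠ 0 → ∃ z, z ≠ 0 ∧ B.h z u = 0 ∧ B.h z w = 0

lemma Rk.rk1 (hB : B.Rk) : B.Rk1 := ⟨hB.1, fun u w hu hw h => by
  obtain ⟨z, hz, h1, h2⟩ := hB.2 u w hu hw h
  exact ⟨z, hz.1, h1, h2⟩⟩

/-- Linear maps vanishing on isotropic vectors vanish. -/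
lemma ext_iso (hB : ∃ u, B.Iso u) {W : Type} [AddCommGroup W] [Module K W] (T : V →ₗ[K] W)
    (hT : ∀ u, B.Iso u → T u = 0) (x : V) : T x = 0 := by
  have h1 : ∀ x z, B.Iso z → B.h x z ≠ 0 → T x = 0 := by
    intro x z hz hxz
    obtain ⟨a, ha⟩ := correct hz hxz
    have h2 := hT _ ha
    rwa [map_add, map_smul, hT z hz, smul_zero, add_zero] at h2
  by_cases h2 : ∃ z, B.Iso z ∧ B.h x z ≠ 0
  · obtain ⟨z, hz, hxz⟩ := h2
    exact h1 x z hz hxz
  · push Not at h2
    obtain ⟨u, hu⟩ := hB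
    obtain ⟨w, hw, huw⟩ := partner hu
    have h3 := h1 (x + u) w hw (by
      rw [B.add_left, h2 w hw, zero_add, huw]
      exact one_ne_zero)
    rwa [map_add, hT u hu, add_zero] at h3

/-- Isotropic vectors in `u^⊥` not orthogonal to a given isotropic vector. -/
lemma exists_perp {u x : V} (hu : B.Iso u) (hx : B.Iso x) (hxu : B.h x u = 0)
    (hne : ∀ c : K, x ≠ c • u) : ∃ y, B.Iso y ∧ B.h y u = 0 ∧ B.h y x ≠ 0 := by
  obtain ⟨y, hyu, hyx⟩ : ∃ y, B.h y u = 0 ∧ B.h y x ≠ 0 := by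
    by_contra hcon
    push Not at hcon
    obtain ⟨c, hc⟩ := mem_of_perp hu.1 hcon
    exact hne c hc
  obtain ⟨a, ha⟩ := correct hx hyx
  refine ⟨_, ha, ?_, ?_⟩
  · rw [B.add_left, B.smul_left, hyu, hxu, mul_zero, add_zero]
  · rw [B.add_left, B.smul_left, hx.2, mul_zero, add_zero]
    exact hyx

/-- Isotropic vectors in `u^⊥` not orthogonal to two given isotropic vectors. -/
lemma exists_perp2 {u x x' : V} (hu : B.Iso u) (hx : B.Iso x) (hx' : B.Iso x')
    (hxu : B.h x u = 0) (hxu' : B.h x' u = 0) (hne : ∀ c : K, x ≠ c • u)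
    (hne' : ∀ c : K, x' ≠ c • u) : ∃ y, B.Iso y ∧ B.h y u = 0 ∧ B.h y x ≠ 0 ∧ B.h y x' ≠ 0 := by
  obtain ⟨w, hw, hwu, hwx⟩ := exists_perp hu hx hxu hne
  obtain ⟨w', hw', hwu', hwx'⟩ := exists_perp hu hx' hxu' hne'
  by_cases h3 : B.h w x' = 0
  · by_cases h4 : B.h w' x = 0
    · obtain ⟨c, hc, hcI⟩ := combine hw hw' (by
        intro c h0
        apply hwx
        have h5 : w = (-c) • w' := by rw [eq_neg_of_add_eq_zero_left h0, neg_smul]
        rw [h5, B.smul_left, h4, mul_zero])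
      refine ⟨_, hcI, ?_, ?_, ?_⟩
      · rw [B.add_left, B.smul_left, hwu, hwu', mul_zero, add_zero]
      · rw [B.add_left, B.smul_left, h4, mul_zero, add_zero]
        exact hwx
      · rw [B.add_left, B.smul_left, h3, zero_add]
        exact mul_ne_zero hc hwx'
    · exact ⟨w', hw', hwu', h4, hwx'⟩
  · exact ⟨w, hw, hwu, hwx, h3⟩

end SForm

end Pool.Agent.BSpi.Cls
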