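import Pool.Agent.BSpi.Cls.GeoF

set_option autoImplicit false
set_option linter.unusedSimpArgs false
set_option linter.unusedVariables false
set_option linter.unusedSectionVars false

open Matrix Matrix.SpecialLinearGroup
open scoped MatrixGroups

namespace Pool.Agent.BSpi.Cls

open Pool.Agent.BSpi.PSL

variable {K V : Type} [Field K] [AddCommGroup V] [Module K V]
variable {B : SForm K V} {p : ℕ} [hp : Fact p.Prime] [CharP K p] {G : Type} [Group G]

/-- Elementwise commuting subgroups. -/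
def Cm {S : Type} [Group S] (X Y : Subgroup S) : Prop := ∀ x ∈ X, ∀ y ∈ Y, x * y = y * x

lemma Cm.symm {S : Type} [Group S] {X Y : Subgroup S} (h : Cm X Y) : Cm Y X :=
  fun y hy x hx => (h x hx y hy).symm

lemma Cm.sup {S : Type} [Group S] {X Y Z : Subgroup S} (h : Cm X Y) (h' : Cm X Z) :
    Cm X (Y ⊔ Z) := by
  intro x hx y hy
  have h1 : Y ⊔ Z ≤ Subgroup.centralizer {x} := by
    rw [sup_le_iff]
    constructor
    · intro z hz
      rw [Subgroup.mem_centralizer_singleton_iff]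
      exact (h x hx z hz).symm
    · intro z hz
      rw [Subgroup.mem_centralizer_singleton_iff]
      exact (h' x hx z hz).symm
  exact (Subgroup.mem_centralizer_singleton_iff.1 (h1 hy)).symm

lemma Cm.mono {S : Type} [Group S] {X Y Z : Subgroup S} (h : Cm X Y) (h' : Z ≤ Y) : Cm X Z :=
  fun x hx y hy => h x hx y (h' hy)

lemma Cm.im {S : Type} [Group S] {X Y : Subgroup S} (h : Cm X Y) (f : MulAut S) :
    Cm (im f X) (im f Y) := by
  rintro _ ⟨x, hx, rfl⟩ _ ⟨y, hy, rfl⟩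
  change f x * f y = f y * f x
  rw [← map_mul, h x hx y hy, map_mul]

lemma mem_im_self {S : Type} [Group S] {X : Subgroup S} {x : S} (hx : x ∈ X) (Y : Subgroup S)
    (hY : Y ≤ X) : im (MulAut.conj x) Y ≤ X := by
  rintro _ ⟨y, hy, rfl⟩
  exact mul_mem (mul_mem hx (hY hy)) (inv_mem hx)

namespace SForm

/-- Isotropic vectors in `u^⊥` not orthogonal to two given isotropic vectors. -/
lemma exists_perp3 {u x x' : V} (hu : B.Iso u) (hx : B.Iso x) (hx' : B.Iso x')
    (hne : ∀ c : K, x ≠ c • u) (hne' : ∀ c : K, x' ≠ c • u) :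
    ∃ y, B.Iso y ∧ B.h y u = 0 ∧ B.h y x ≠ 0 ∧ B.h y x' ≠ 0 := by
  have key : ∀ x, B.Iso x → (∀ c : K, x ≠ c • u) → ∃ y, B.Iso y ∧ B.h y u = 0 ∧ B.h y x ≠ 0 := by
    intro x hx hne
    by_cases h : B.h x u = 0
    · exact exists_perp hu hx h hne
    · exact ⟨u, hu, hu.2, B.ne_symm h⟩
  obtain ⟨w, hw, hwu, hwx⟩ := key x hx hne
  obtain ⟨w', hw', hwu', hwx'⟩ := key x' hx' hne'
  by_cases h3 : B.h w x' = 0
  · by_cases h4 : B.h w' x = 0
    · obtain ⟨c, hc, hcI⟩ := combine hw hw' (by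
        intro c h0
        apply hwx
        have h5 : w = (-c) • w' := by rw [neg_smul]; exact eq_neg_of_add_eq_zero_left h0
        rw [h5, B.smul_left, h4, mul_zero])
      refine ⟨_, hcI, ?_, ?_, ?_⟩
      · rw [B.add_left, B.smul_left, hwu, hwu', mul_zero, add_zero]
      · rw [B.add_left, B.smul_left, h4, mul_zero, add_zero]
        exact hwx
      · rw [B.add_left, B.smul_left, h3, zero_add]
        exact mul_ne_zero hc hwx'
    · exact ⟨w', hw', hwu', h4, hwx'⟩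
  · exact ⟨w, hw, hwu, hwx, h3⟩

end SForm

namespace Rep

variable (D : Rep B p G)

lemma cm_A {u w : V} (hu : B.Iso u) (hw : B.Iso w) (h : B.h u w = 0) : Cm (D.A u) (D.A w) := by
  intro x hx y hy
  obtain ⟨a, ha, rfl⟩ := (D.mem_A hu.2).1 hx
  obtain ⟨b, hb, rfl⟩ := (D.mem_A hw.2).1 hy
  rw [← map_mul, ← map_mul, D.tv_comm hu.2 hw.2 h ha hb]

lemma cm_iff (hB : B.Rk1) {X Y : Subgroup (Pr G)} (hX : X ∈ D.R) (hY : Y ∈ D.R) :
    ¬ Opp p X Y ↔ Cm X Y := by
  obtain ⟨u, hu, rfl⟩ := hX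
  obtain ⟨w, hw, rfl⟩ := hY
  constructor
  · intro h
    rw [D.opp_iff hB hu hw, not_not] at h
    exact D.cm_A hu hw h
  · intro h
    rw [Opp, not_not]
    refine IsPGroup.to_sup_of_normal_right' (D.A_pgroup hu.2) (D.A_pgroup hw.2)
      (le_normalizer fun s hs => ?_)
    ext x
    constructor
    · rintro ⟨y, hy, rfl⟩
      change s * y * s⁻¹ ∈ D.A w
      rw [h s hs y hy, mul_inv_cancel_right]
      exact hy
    · intro hx
      refine ⟨x, hx, ?_⟩
      change s * x * s⁻¹ = x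
      rw [h s hs x hx, mul_inv_cancel_right]

/-- Points of hyperbolic lines. -/
lemma A_le {x y z : V} {t c : K} (hx : B.Iso x) (hy : B.Iso y) (ht : B.τ t = t) (hc : c ≠ 0)
    (hz : z = c • (y + (t * B.h y x) • x)) : D.A z ≤ D.A x ⊔ D.A y := by
  have h1 : z = c • D.ρ (D.tv x t) y := by rw [hz, D.tv_apply hx.2 ht]
  rw [h1, D.A_smul (by rw [D.iso, hy.2]) hc, ← D.A_conj hy.2]
  exact mem_im_self (Subgroup.mem_sup_left ((D.mem_A hx.2).2 ⟨t, ht, rfl⟩)) _ le_sup_right

/-- The symmetry of automorphisms without opposite images. -/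
lemma perp_symm (hB : B.Rk1) {f : MulAut (Pr G)} (hf : Pres D.R f)
    (hno : ∀ X ∈ D.R, Cm X (im f X)) {x y : V} (hx : B.Iso x) (hy : B.Iso y) (hxy : B.h x y ≠ 0)
    (h : Cm (D.A x) (im f (D.A y))) : Cm (D.A y) (im f (D.A x)) := by
  have hyx := B.ne_symm hxy
  set z := y + B.h y x • x with hz
  have hzI : B.Iso z := by
    have h1 := D.isoVec (D.tv x 1) hy
    rw [D.tv_apply hx.2 (map_one _), one_mul] at h1
    exact h1
  have hzA : D.A z ≤ D.A x ⊔ D.A y := D.A_le (t := 1) (c := 1) hx hy (map_one _) one_ne_zero (by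
    rw [one_smul, one_mul])
  have hyA : D.A y ≤ D.A x ⊔ D.A z := D.A_le (t := -1) (c := 1) hx hzI (by rw [map_neg, map_one])
    one_ne_zero (by
      rw [one_smul, hz, B.add_left, B.smul_left, hx.2, mul_zero, add_zero, neg_one_mul, neg_smul,
        add_neg_cancel_right])
  have hN : B.τ (B.h y x) * B.h y x ≠ 0 :=
    mul_ne_zero ((map_ne_zero_iff _ B.τ.injective).2 hyx) hyx
  have hxA : D.A x ≤ D.A z ⊔ D.A y := by
    refine D.A_le (t := -(B.τ (B.h y x) * B.h y x)⁻¹) (c := -(B.h y x)⁻¹) hzI hy ?_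
      (neg_ne_zero.2 (inv_ne_zero hyx)) ?_
    · rw [map_neg, map_inv₀, map_mul, B.tt, mul_comm (B.h y x)]
    · have h1 : B.h y z = B.τ (B.h y x) * B.h y x := by
        rw [hz, B.add_right, B.smul_right, hy.2, zero_add]
      rw [h1, neg_mul, inv_mul_cancel₀ hN, neg_one_smul, hz, neg_smul, smul_add, smul_neg, smul_add,
        smul_smul, inv_mul_cancel₀ hyx, one_smul]
      abel
  have himz : ∀ {X Y Z : Subgroup (Pr G)}, X ≤ Y ⊔ Z → im f X ≤ im f Y ⊔ im f Z := by
    intro X Y Z h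
    rw [← im_sup]
    exact Subgroup.map_mono h
  have hzfy : Cm (im f (D.A y)) (D.A z) :=
    (h.symm.sup (hno _ ⟨y, hy, rfl⟩).symm).mono hzA
  have hzfx : Cm (D.A z) (im f (D.A x)) :=
    ((hno _ ⟨z, hzI, rfl⟩).sup hzfy.symm).mono (himz hxA)
  exact (((hno _ ⟨x, hx, rfl⟩).symm.sup hzfx.symm).mono hyA).symm

/-- Automorphisms fixing all root groups are trivial. -/
lemma eq_one_of_fix (hB : B.Rk1) {f : MulAut (Pr G)} (hf : ∀ X ∈ D.R, im f X = X) : f = 1 := by
  ext s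
  rw [MulAut.one_apply]
  obtain ⟨g, hg⟩ := mk_surjective (s⁻¹ * f s)
  have h1 : ∀ u, B.Iso u → ∃ l : K, D.ρ g u = l • u := by
    intro u hu
    rw [← D.Nm_iff hu, hg, Nm, map_mul, im_mul]
    have h2 := im_conj f s (D.A u)
    rw [hf _ ⟨u, hu, rfl⟩, hf _ (D.conj_pres s _ ⟨u, hu, rfl⟩)] at h2
    rw [← h2, ← im_mul, ← map_mul, inv_mul_cancel, map_one, im_one]
  obtain ⟨l, hl⟩ := D.scalar_of_fix hB.1 h1
  have h2 := mk_eq_one.2 (D.center_of_scalar hl)
  rw [hg] at h2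
  exact (inv_mul_eq_one.1 h2).symm

/-- Automorphisms of odd order move some root group to an opposite one. -/
lemma hmove (hB : B.Rk1) {f : MulAut (Pr G)} {m : ℕ} (hf1 : f ^ (2 * m + 1) = 1) (hf : Pres D.R f)
    (hne : f ≠ 1) : ∃ X ∈ D.R, Opp p X (im f X) := by
  by_contra hcon
  push Not at hcon
  apply hne
  have hno : ∀ X ∈ D.R, Cm X (im f X) := fun X hX => (D.cm_iff hB hX (hf X hX)).1 (hcon X hX)
  have hsq : ∀ X ∈ D.R, im f (im f X) = X := by
    intro X hX
    by_contra hXne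
    -- pass to `Y = f X`
    obtain ⟨x2, hx2, hX2⟩ := hX
    obtain ⟨x, hx, hfX⟩ := hf X ⟨x2, hx2, hX2⟩
    obtain ⟨x1, hx1, hffX⟩ := hf (im f X) ⟨x, hx, hfX⟩
    have h2 : ∀ c : K, x2 ≠ c • x1 := by
      intro c hc
      have hc0 : c ≠ 0 := by
        rintro rfl
        rw [zero_smul] at hc
        exact hx2.1 hc
      apply hXne
      rw [hffX, hX2, hc, D.A_smul hx1.2 hc0]
    have h1 : ∀ c : K, x ≠ c • x1 := by
      intro c hc
      have hc0 : c ≠ 0 := by
        rintro rfl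
        rw [zero_smul] at hc
        exact hx.1 hc
      have h3 : im f (im f X) = im f X := by
        rw [hffX, hfX, hc, D.A_smul hx1.2 hc0]
      apply hXne
      rw [h3]
      exact im_injective f h3
    obtain ⟨y, hy, hyx1, hyx, hyx2⟩ := SForm.exists_perp3 hx1 hx hx2 h1 h2
    have h3 : Cm (D.A y) (im f (D.A x)) := by
      rw [← hfX, hffX]
      exact D.cm_A hy hx1 hyx1
    have h4 := D.perp_symm hB hf hno hy hx hyx h3
    rw [← hfX] at h4
    have h5 := h4.im f⁻¹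
    rw [← im_mul, ← im_mul, inv_mul_cancel, im_one, im_one, hX2] at h5
    exact ((D.cm_iff hB ⟨x2, hx2, rfl⟩ ⟨y, hy, rfl⟩).2 h5)
      ((D.opp_iff hB hx2 hy).2 (B.ne_symm hyx2))
  refine D.eq_one_of_fix hB fun X hX => ?_
  have h1 : ∀ k : ℕ, im (f ^ (2 * k)) X = X := by
    intro k
    induction k with
    | zero => rw [mul_zero, pow_zero, im_one]
    | succ k ih =>
      rw [Nat.mul_succ, pow_add, im_mul, pow_two, im_mul, hsq X hX, ih]
  have h2 := h1 m
  have h3 : im (f ^ (2 * m + 1)) X = im f X := by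
    rw [pow_succ', im_mul, h2]
  rw [← h3, hf1, im_one]

end Rep

end Pool.Agent.BSpi.Cls
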