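import Pool.Agent.BSpi.Cls.Sp2b

set_option autoImplicit false
set_option linter.unusedSimpArgs false
set_option linter.unusedVariables false
set_option linter.unusedSectionVars false

open Matrix Matrix.SpecialLinearGroup
open scoped MatrixGroups

namespace Pool.Agent.BSpi.Cls

open Pool.Agent.BSpi.PSL

variable {K V : Type} [Field K] [AddCommGroup V] [Module K V]
variable {B : SForm K V} [CharP K 2] {G : Type} [Group G]

namespace Rep

variable (D : Rep B 2 G)

lemma sg_inj (hA : B.Alt) (hB : ∃ u, B.Iso u) {u e : V} (hu : u ≠ 0) (hue : B.h u e = 0)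
    (hne : ∀ c : K, e ≠ c • u) {a b : K} (h : pj (D.sg u (a • e) 0) = pj (D.sg u (b • e) 0)) :
    a = b := by
  obtain ⟨w, f, h1, h2, h3, h4, h5⟩ := hA.two hu hue hne
  have h1' := hA.symm u w
  have h2' := hA.symm e w
  rw [h1] at h1'
  rw [h2] at h2'
  have heu := B.zero_symm hue
  have hae : ∀ a : K, B.h (a • e) u = 0 := fun a => by rw [B.smul_left, heu, mul_zero]
  have h6 := D.pj_inj hA hB h
  have h7 : D.ρ (D.sg u (a • e) 0) w = D.ρ (D.sg u (b • e) 0) w := by rw [h6]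
  rw [D.sg_apply hA (hae a), D.sg_apply hA (hae b), h1', B.smul_right, B.smul_right, h2'] at h7
  simp only [one_smul, mul_zero, zero_mul, zero_smul, add_zero] at h7
  have h8 := add_left_cancel h7
  have he0 : e ≠ 0 := fun h => hne 0 (by rw [h, zero_smul])
  exact smul_left_injective K he0 h8

lemma card_A (hB : ∃ u, B.Iso u) (hA : B.Alt) {u : V} (hu : u ≠ 0) :
    Nat.card (D.A u) = Nat.card K := by
  refine (Nat.card_congr (Equiv.ofBijective (fun a : K => (⟨pj (D.tv u a),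
    (D.mem_A (hA.2 u)).2 ⟨a, hA.1 a, rfl⟩⟩ : D.A u)) ⟨?_, ?_⟩)).symm
  · intro a b hab
    have h1 : pj (D.tv u a) = pj (D.tv u b) := congrArg Subtype.val hab
    have h2 := D.pj_inj hA hB h1
    have h3 : D.tv u (a - b) = 1 := by
      have h4 := D.tv_add (hA.2 u) (hA.1 (a - b)) (hA.1 b)
      rw [sub_add_cancel, h2] at h4
      exact right_eq_mul.1 h4
    by_contra hne
    exact D.tv_ne_one (hA.iso hu) (hA.1 _) (sub_ne_zero.2 hne) h3
  · rintro ⟨x, hx⟩
    obtain ⟨a, ha, rfl⟩ := (D.mem_A (hA.2 u)).1 hx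
    exact ⟨a, rfl⟩

lemma im_card {S : Type} [Group S] (f : MulAut S) (X : Subgroup S) :
    Nat.card (im f X) = Nat.card X :=
  Subgroup.card_map_of_injective f.injective

/-- Images of root groups. -/
lemma image_AB [Finite K] [Finite G] [Finite V] (hA : B.Alt) (hB : B.Rk) (f : MulAut (Pr G))
    {X : Subgroup (Pr G)} (hX : X ∈ D.R) : im f X ∈ D.R ∨ D.IsB (im f X) := by
  obtain ⟨u0, hu0, rfl⟩ := hX
  -- a maximal `2`-subgroup with centre containing the root group
  obtain ⟨U, hU, hAU⟩ : ∃ U : Subgroup (Pr G), MaxP 2 U ∧ D.A u0 ≤ ZU U := by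
    obtain ⟨U, hU⟩ := exists_maxP (S := Pr G) 2
    obtain ⟨u, e, hu, -, -, hle, -⟩ := D.ZU_form hA hB hU
    obtain ⟨g, hg⟩ := D.transitive (hA.iso hu) hu0
    refine ⟨im (MulAut.conj (pj g)) U, hU.im _, ?_⟩
    rw [← ZU_im, ← hg]
    exact Subgroup.map_mono hle
  obtain ⟨u, e, hu, hue, hne, -, hform⟩ := D.ZU_form hA hB (hU.im f)
  have heu := B.zero_symm hue
  have hae : ∀ a : K, B.h (a • e) u = 0 := fun a => by rw [B.smul_left, heu, mul_zero]
  have hle : im f (D.A u0) ≤ ZU (im f U) := by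
    rw [← ZU_im]
    exact Subgroup.map_mono hAU
  have hOT : ∀ x ∈ im f (D.A u0), OT x := by
    rintro _ ⟨y, hy, rfl⟩
    obtain ⟨a, ha, rfl⟩ := (D.mem_A hu0.2).1 hy
    exact (D.tv_OT hA hB hu0.1 a).map f
  have hcard : Nat.card (im f (D.A u0)) = Nat.card K := by
    rw [im_card, D.card_A hB.1 hA hu0.1]
  have hac : ∀ a c : K, pj (D.sg u (a • e) c) ∈ im f (D.A u0) → a = 0 ∨ c = 0 := by
    intro a c hx
    by_contra hcon
    push Not at hcon
    refine D.not_OT hA hB.1 hu (B.zero_symm (hae a)) ?_ hcon.2 (hOT _ hx)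
    intro d hd
    apply hne (a⁻¹ * d)
    rw [← smul_smul, ← hd, smul_smul, inv_mul_cancel₀ hcon.1, one_smul]
  by_cases h1 : ∀ a c : K, pj (D.sg u (a • e) c) ∈ im f (D.A u0) → a • e = 0
  · left
    have h2 : im f (D.A u0) ≤ D.A u := by
      intro x hx
      obtain ⟨a, c, rfl⟩ := hform x (hle hx)
      rw [h1 a c hx, D.sg_zero hA]
      exact (D.mem_A (hA.2 u)).2 ⟨c, hA.1 c, rfl⟩
    refine ⟨u, hA.iso hu, ?_⟩
    have : Finite (D.A u) := inferInstance
    exact Subgroup.eq_of_le_of_card_ge h2 (by rw [hcard, D.card_A hB.1 hA hu])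
  · right
    push Not at h1
    obtain ⟨a1, c1, hx1, ha1⟩ := h1
    have ha1' : a1 ≠ 0 := by
      rintro rfl
      exact ha1 (zero_smul _ _)
    have hc1 : c1 = 0 := (hac a1 c1 hx1).resolve_left ha1'
    subst hc1
    have h2 : ∀ x ∈ im f (D.A u0), ∃ a : K, x = pj (D.sg u (a • e) 0) := by
      intro x hx
      obtain ⟨a, c, rfl⟩ := hform x (hle hx)
      by_cases hc : c = 0
      · exact ⟨a, by rw [hc]⟩
      · exfalso
        have ha : a = 0 := (hac a c hx).resolve_right hc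
        subst ha
        have h3 := mul_mem hx1 hx
        rw [← map_mul, D.sg_mul hA (hae a1) (hae 0) (by rw [zero_smul, B.zero_right]), zero_smul,
          add_zero, zero_add] at h3
        rcases hac a1 c h3 with h4 | h4
        · exact ha1' h4
        · exact hc h4
    refine ⟨u, e, hu, hue, hne, fun x => ⟨h2 x, ?_⟩⟩
    rintro ⟨a, rfl⟩
    -- counting
    choose φ hφ using fun x : im f (D.A u0) => h2 x.1 x.2
    have hinj : Function.Injective φ := by
      intro x y hxy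
      apply Subtype.ext
      rw [hφ x, hφ y, hxy]
    have hbij : Function.Bijective φ := by
      have := Fintype.ofFinite K
      have := Fintype.ofFinite (im f (D.A u0))
      rw [Fintype.bijective_iff_injective_and_card]
      refine ⟨hinj, ?_⟩
      rw [← Nat.card_eq_fintype_card, ← Nat.card_eq_fintype_card, hcard]
    obtain ⟨x, hx⟩ := hbij.2 a
    rw [← hx, ← hφ x]
    exact x.2

/-- Transitivity on groups of the second kind. -/
lemma transB (hA : B.Alt) (hB : B.Rk) {X Y : Subgroup (Pr G)} (hX : D.IsB X) (hY : D.IsB Y) :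
    ∃ s : Pr G, im (MulAut.conj s) X = Y := by
  obtain ⟨u, e, hu, hue, hne, hXm⟩ := hX
  obtain ⟨u', e', hu', hue', hne', hYm⟩ := hY
  -- move `u` to `u'` and `e` to `e'`
  suffices h : ∃ (g : G) (a b c : K), a ≠ 0 ∧ b ≠ 0 ∧ D.ρ g u = a • u' ∧
      D.ρ g e = b • e' + c • u' by
    obtain ⟨g, a, b, c, ha, hb, hgu, hge⟩ := h
    have heu := B.zero_symm hue
    have heu' := B.zero_symm hue'
    have key : ∀ t : K, g * D.sg u (t • e) 0 * g⁻¹ = D.sg u' ((a * (t * b)) • e') 0 := by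
      intro t
      rw [D.sg_conj hA (by rw [B.smul_left, heu, mul_zero]), hgu, map_smul, hge]
      have h1 : B.h (t • (b • e' + c • u')) (a • u') = 0 := by
        simp only [B.smul_left, B.add_left, B.smul_right, heu', hA.2, mul_zero, add_zero]
      have h2 : B.h ((a * (t * b)) • e') u' = 0 := by rw [B.smul_left, heu', mul_zero]
      apply D.ext
      intro x
      rw [D.sg_apply hA h1, D.sg_apply hA h2]
      simp only [B.smul_right, B.add_right, hA.1]
      have h3 := vv ((B.h x u' * a * t * c) • u') (two_eq K)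
      have h4 : x + (a * B.h x u') • t • (b • e' + c • u') +
          (t * (b * B.h x e' + c * B.h x u')) • a • u' + (0 * (a * B.h x u')) • a • u' =
          x + B.h x u' • (a * (t * b)) • e' + (a * (t * b) * B.h x e') • u' +
          (0 * B.h x u') • u' + ((B.h x u' * a * t * c) • u' + (B.h x u' * a * t * c) • u') := by
        module
      rw [h4, h3, add_zero]
    refine ⟨pj g, ?_⟩
    ext x
    constructor
    · rintro ⟨y, hy, rfl⟩
      obtain ⟨t, rfl⟩ := (hXm y).1 hy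
      refine (hYm _).2 ⟨a * (t * b), ?_⟩
      rw [← key]
      rfl
    · intro hx
      obtain ⟨t, rfl⟩ := (hYm x).1 hx
      refine ⟨pj (D.sg u ((a⁻¹ * t * b⁻¹) • e) 0), (hXm _).2 ⟨_, rfl⟩, ?_⟩
      have h1 : a * (a⁻¹ * t * b⁻¹ * b) = t := by field_simp
      have h2 := key (a⁻¹ * t * b⁻¹)
      rw [h1] at h2
      rw [← h2]
      rfl
  obtain ⟨g, hg⟩ := D.transitive (hA.iso hu) (hA.iso hu')
  rw [D.A_conj (hA.2 u)] at hg
  obtain ⟨a, hga⟩ := D.A_inj (D.isoVec g (hA.iso hu)) (hA.iso hu') hg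
  have ha : a ≠ 0 := by
    rintro rfl
    rw [zero_smul] at hga
    exact D.ne_zero g hu hga
  set e1 := D.ρ g e with he1
  have he1u : B.h e1 u' = 0 := by
    have h1 := D.iso g e u
    rw [hga, B.smul_right, hA.1, B.zero_symm hue] at h1
    exact (mul_eq_zero.1 h1).resolve_left ha
  have hne1 : ∀ c : K, e1 ≠ c • u' := by
    intro c hc
    apply hne (c * a⁻¹)
    have h1 : D.ρ g (e - (c * a⁻¹) • u) = 0 := by
      rw [map_sub, map_smul, hga, smul_smul, mul_assoc, inv_mul_cancel₀ ha, mul_one, ← hc, ← he1,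
        sub_self]
    by_contra h2
    exact D.ne_zero g (sub_ne_zero.2 h2) h1
  have he1' : e1 ≠ 0 := fun h => hne1 0 (by rw [h, zero_smul])
  have he' : e' ≠ 0 := fun h => hne' 0 (by rw [h, zero_smul])
  -- move within `u'^⊥`
  have step : ∀ x y : V, x ≠ 0 → y ≠ 0 → B.h x u' = 0 → B.h y u' = 0 → B.h x y ≠ 0 →
      ∃ q : G, D.ρ q u' = u' ∧ D.ρ q x = y := by
    intro x y hx hy hxu hyu hxy
    have h1 : B.h x (y - x) = B.h x y := by rw [B.sub_right, hA.2, sub_zero]
    refine ⟨D.tv (y - x) (B.h x y)⁻¹, ?_, ?_⟩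
    · rw [D.tv_apply' hA, B.sub_right, B.zero_symm hyu, B.zero_symm hxu, sub_self, mul_zero,
        zero_smul, add_zero]
    · rw [D.tv_apply' hA, h1, inv_mul_cancel₀ hxy, one_smul, add_sub_cancel]
  obtain ⟨y, hy, hyu, hy1, hy2⟩ := SForm.exists_perp3 (hA.iso hu') (hA.iso he1') (hA.iso he')
    hne1 hne'
  obtain ⟨q1, hq1, hq1'⟩ := step e1 y he1' hy.1 he1u hyu (B.ne_symm hy1)
  obtain ⟨q2, hq2, hq2'⟩ := step y e' hy.1 he' hyu (B.zero_symm hue') hy2
  refine ⟨q2 * q1 * g, a, 1, 0, ha, one_ne_zero, ?_, ?_⟩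
  · rw [D.mul_apply, D.mul_apply, hga, map_smul, hq1, map_smul, hq2]
  · rw [D.mul_apply, D.mul_apply, ← he1, hq1', hq2', one_smul, zero_smul, add_zero]

lemma IsB.conj {D : Rep B 2 G} (hA : B.Alt) {X : Subgroup (Pr G)} (hX : D.IsB X) (s : Pr G) :
    D.IsB (im (MulAut.conj s) X) := by
  obtain ⟨g, rfl⟩ := mk_surjective s
  obtain ⟨u, e, hu, hue, hne, hXm⟩ := hX
  have heu := B.zero_symm hue
  have key : ∀ t : K, g * D.sg u (t • e) 0 * g⁻¹ = D.sg (D.ρ g u) (t • D.ρ g e) 0 := by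
    intro t
    rw [D.sg_conj hA (by rw [B.smul_left, heu, mul_zero]), map_smul]
  refine ⟨D.ρ g u, D.ρ g e, D.ne_zero g hu, by rw [D.iso, hue], ?_, ?_⟩
  · intro c hc
    apply hne c
    have h1 : D.ρ g (e - c • u) = 0 := by rw [map_sub, map_smul, hc, sub_self]
    by_contra h2
    exact D.ne_zero g (sub_ne_zero.2 h2) h1
  · intro x
    constructor
    · rintro ⟨y, hy, rfl⟩
      obtain ⟨t, rfl⟩ := (hXm y).1 hy
      exact ⟨t, by rw [← key]; rfl⟩
    · rintro ⟨t, rfl⟩
      exact ⟨pj (D.sg u (t • e) 0), (hXm _).2 ⟨t, rfl⟩, by rw [← key]; rfl⟩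

lemma IsB.not_R {D : Rep B 2 G} (hA : B.Alt) (hB : ∃ u, B.Iso u) {X : Subgroup (Pr G)}
    (hX : D.IsB X) : X ∉ D.R := by
  rintro ⟨z, hz, rfl⟩
  obtain ⟨u, e, hu, hue, hne, hXm⟩ := hX
  obtain ⟨w, f, h1, h2, h3, h4, h5⟩ := hA.two hu hue hne
  have h1' := hA.symm u w
  have h2' := hA.symm e w
  have h3' := hA.symm e f
  have h4' := hA.symm u f
  rw [h1] at h1'
  rw [h2] at h2'
  rw [h3] at h3'
  rw [h4] at h4'
  have heu := B.zero_symm hue
  have h6 : pj (D.sg u ((1 : K) • e) 0) ∈ D.A z := (hXm _).2 ⟨1, rfl⟩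
  rw [one_smul] at h6
  obtain ⟨a, -, h7⟩ := (D.mem_A hz.2).1 h6
  have h8 := D.pj_inj hA hB h7
  have h9 : D.ρ (D.sg u e 0) w = D.ρ (D.tv z a) w := by rw [h8]
  have h10 : D.ρ (D.sg u e 0) f = D.ρ (D.tv z a) f := by rw [h8]
  rw [D.sg_apply hA heu, D.tv_apply' hA, h1', h2'] at h9
  rw [D.sg_apply hA heu, D.tv_apply' hA, h3', h4'] at h10
  simp only [one_smul, zero_mul, zero_smul, add_zero, mul_one] at h9 h10
  have h11 : e = (a * B.h w z) • z := add_left_cancel h9
  have h12 : u = (a * B.h f z) • z := add_left_cancel h10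
  have h13 : a * B.h f z ≠ 0 := by
    intro h0
    rw [h0, zero_smul] at h12
    exact hu h12
  apply hne ((a * B.h w z) * (a * B.h f z)⁻¹)
  have h14 : z = (a * B.h f z)⁻¹ • u := by
    rw [eq_comm, inv_smul_eq_iff₀ h13]
    exact h12
  rw [← smul_smul, ← h14]
  exact h11

/-- Automorphisms of odd order preserve the root groups. -/
lemma pres_odd [Finite K] [Finite G] [Finite V] (hA : B.Alt) (hB : B.Rk) {f : MulAut (Pr G)}
    {m : ℕ} (hf : f ^ (2 * m + 1) = 1) : Pres D.R f := by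
  intro X hX
  by_contra hcon
  have hB1 : ∀ Y ∈ D.R, D.IsB (im f Y) := by
    intro Y hY
    obtain ⟨u, hu, rfl⟩ := hX
    obtain ⟨w, hw, rfl⟩ := hY
    obtain ⟨g, hg⟩ := D.transitive hu hw
    rw [← hg, im_conj]
    exact IsB.conj hA ((D.image_AB hA hB f ⟨u, hu, rfl⟩).resolve_left hcon) _
  have hsq : ∀ Y ∈ D.R, im (f * f) Y ∈ D.R := by
    intro Y hY
    by_contra hc2
    have h1 := (D.image_AB hA hB (f * f) hY).resolve_left hc2
    obtain ⟨s, hs⟩ := D.transB hA hB (hB1 Y hY) h1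
    rw [im_mul] at hs
    have h2 : im (MulAut.conj (f⁻¹ s)) Y = im f Y := by
      apply im_injective f
      rw [← hs, im_conj, MulAut.apply_inv_self]
    exact IsB.not_R hA hB.1 (hB1 Y hY) (h2 ▸ D.conj_pres _ Y hY)
  have hpow : ∀ k : ℕ, ∀ Y ∈ D.R, im ((f * f) ^ k) Y ∈ D.R := by
    intro k
    induction k with
    | zero => intro Y hY; rw [pow_zero, im_one]; exact hY
    | succ k ih => intro Y hY; rw [pow_succ, im_mul]; exact ih _ (hsq Y hY)
  have h1 : f ^ (2 * m + 1) = f * (f * f) ^ m := by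
    rw [pow_succ', pow_mul, pow_two]
  have h2 : im f (im ((f * f) ^ m) X) = X := by
    rw [← im_mul, ← h1, hf, im_one]
  have h3 := hB1 _ (hpow m X hX)
  rw [h2] at h3
  exact IsB.not_R hA hB.1 h3 hX

end Rep

end Pool.Agent.BSpi.Cls
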