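import Pool.Agent.BSpi.Cls.Syl
import Pool.Agent.BSpi.Cls.Move
import Pool.Agent.BSpi.Cls.Sp2c

set_option autoImplicit false
set_option linter.unusedSimpArgs false
set_option linter.unusedVariables false
set_option linter.unusedSectionVars false

open Matrix Matrix.SpecialLinearGroup
open scoped MatrixGroups

namespace Pool.Agent.BSpi.Cls

open Pool.Agent.BSpi.PSL

variable {K V : Type} [Field K] [AddCommGroup V] [Module K V] {π : Set ℕ}

/-- Simple groups of isometries are good. -/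
theorem form_goodAt [Finite K] [Finite V] {B : SForm K V} {p : ℕ} [hp : Fact p.Prime] [CharP K p]
    {G : Type} [Group G] [Finite G] (D : Rep B p G) (hB : B.Rk) (hS : IsSimpleGroup (Pr G))
    (hinj : Function.Injective (MulAut.conj : Pr G →* MulAut (Pr G)))
    (hc : ((∃ l, B.τ l ≠ l) ∨ (2 : K) ≠ 0) ∨ B.Alt)
    {r : ℕ} (hr : r.Prime) (hr2 : r ≠ 2) : GoodAt π r (Pr G) := by
  have hF := charP_F B p
  have hne : ∃ A ∈ D.R, ∃ x ∈ A, x ≠ 1 := by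
    obtain ⟨u, hu⟩ := hB.1
    exact ⟨D.A u, ⟨u, hu, rfl⟩, pj (D.tv u 1), (D.mem_A hu.2).2 ⟨1, map_one _, rfl⟩, D.pj_tv_ne hu⟩
  have hSL : ∀ A ∈ D.R, ∀ C ∈ D.R, Opp p A C → IsSL2 B.F A C := by
    rintro _ ⟨u, hu, rfl⟩ _ ⟨w, hw, rfl⟩ h
    exact D.isSL2 hB.rk1 hu hw ((D.opp_iff hB.rk1 hu hw).1 h)
  have hmv : ∀ f : MulAut (Pr G), orderOf f = r → BadAut π (Pr G) f → Pres D.R f →
      (∃ A ∈ D.R, Opp p A (im f A)) ∨
      ∀ ℓ : ℕ, ℓ.Prime → ℓ ∣ Nat.card B.F - 1 ∨ ℓ ∣ Nat.card B.F + 1 → ℓ ∈ π := by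
    intro f hf _ hP
    left
    obtain ⟨m, hm⟩ := hr.odd_of_ne_two hr2
    have h1 : f ^ (2 * m + 1) = 1 := by rw [← hm, ← hf]; exact pow_orderOf_eq_one f
    refine D.hmove hB.rk1 h1 hP ?_
    rintro rfl
    rw [orderOf_one] at hf
    exact hr.one_lt.ne hf
  by_cases hc1 : (∃ l, B.τ l ≠ l) ∨ (2 : K) ≠ 0
  · exact goodAt_of_root hinj (D.geo hB.rk1 hS) hne hSL D.conj_pres (Or.inl (D.pres_all hB.rk1 hc1)) hr hr2
      (fun f _ => D.pres_all hB.rk1 hc1 f) (D.hcount hB) (D.hcard hB.rk1) hmv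
  · have hA := hc.resolve_left hc1
    have h2 : (2 : K) = 0 := by
      by_contra h
      exact hc1 (Or.inr h)
    have hp2 : p = 2 := by
      have h3 : ((2 : ℕ) : K) = 0 := by exact_mod_cast h2
      exact (Nat.prime_dvd_prime_iff_eq hp.out Nat.prime_two).1 ((CharP.cast_eq_zero_iff K p 2).1 h3)
    subst hp2
    obtain ⟨m, hm⟩ := hr.odd_of_ne_two hr2
    refine goodAt_of_root hinj (D.geo hB.rk1 hS) hne hSL D.conj_pres (Or.inr ⟨rfl, ?_⟩) hr hr2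
      (fun f hf => D.pres_odd hA hB (m := m) ?_) (D.hcount hB) (D.hcard hB.rk1) hmv
    · rintro _ ⟨u, hu, rfl⟩ x hx
      obtain ⟨a, ha, rfl⟩ := (D.mem_A hu.2).1 hx
      rw [← map_mul, ← pow_two, D.tv_pow_p hu.2 ha, map_one]
    · rw [← hm, ← hf]
      exact pow_orderOf_eq_one f

end Pool.Agent.BSpi.Cls
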