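import Pool.Agent.BSpi.Cls.Quo

set_option autoImplicit false
set_option linter.unusedSimpArgs false
set_option linter.unusedVariables false
set_option linter.unusedSectionVars false

open Matrix Matrix.SpecialLinearGroup
open scoped MatrixGroups

namespace Pool.Agent.BSpi.Cls

open Pool.Agent.BSpi.PSL

variable {K V : Type} [Field K] [AddCommGroup V] [Module K V]
variable {B : SForm K V} {p : ℕ} [hp : Fact p.Prime] [CharP K p] {G : Type} [Group G]

lemma unip_pow2 {T : Module.End K V} (hT : (T - 1) ^ 3 = 0) : T ^ (p ^ 2) = 1 := by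
  rcases subsingleton_or_nontrivial V with hs | hn
  · exact Subsingleton.elim _ _
  · have : CharP (Module.End K V) p :=
      charP_of_injective_algebraMap (algebraMap K (Module.End K V)).injective p
    have h1 : T = (T - 1) + 1 := by rw [sub_add_cancel]
    have h2 : 3 ≤ p ^ 2 := by
      have := hp.out.two_le
      nlinarith
    rw [h1, add_pow_char_pow_of_commute p 2 (Commute.one_right (T - 1)), one_pow]
    have h3 : p ^ 2 = 3 + (p ^ 2 - 3) := by omega
    rw [h3, pow_add, hT, zero_mul, zero_add]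

namespace Rep

variable (D : Rep B p G)

/-- The unipotent radical of the stabilizer of an isotropic point. -/
def QG (u : V) : Subgroup G where
  carrier := {g | D.ρ g u = u ∧ ∀ x, B.h x u = 0 → ∃ c : K, D.ρ g x = x + c • u}
  mul_mem' := by
    rintro g g' ⟨h1, h2⟩ ⟨h3, h4⟩
    refine ⟨by rw [D.mul_apply, h3, h1], fun x hx => ?_⟩
    obtain ⟨c, hc⟩ := h4 x hx
    obtain ⟨d, hd⟩ := h2 x hx
    exact ⟨d + c, by rw [D.mul_apply, hc, map_add, map_smul, h1, hd, add_smul, add_assoc]⟩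
  one_mem' := ⟨D.one_apply u, fun x _ => ⟨0, by rw [D.one_apply, zero_smul, add_zero]⟩⟩
  inv_mem' := by
    rintro g ⟨h1, h2⟩
    refine ⟨by nth_rewrite 1 [← h1]; exact D.inv_self_apply g u, fun x hx => ?_⟩
    obtain ⟨c, hc⟩ := h2 (D.ρ g⁻¹ x) (by rw [D.iso_inv, h1, hx])
    rw [D.self_inv_apply] at hc
    exact ⟨-c, by rw [hc, neg_smul]; nth_rewrite 1 [← hc]; rw [add_neg_cancel_right]⟩

lemma mem_QG {u : V} {g : G} : g ∈ D.QG u ↔
    D.ρ g u = u ∧ ∀ x, B.h x u = 0 → ∃ c : K, D.ρ g x = x + c • u := Iff.rfl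

lemma QG_pow {u : V} {g : G} (hg : g ∈ D.QG u) : g ^ p ^ 2 = 1 := by
  obtain ⟨h1, h2⟩ := hg
  apply D.inj
  rw [map_pow, map_one]
  refine unip_pow2 ?_
  ext x
  have e1 : B.h (D.ρ g x - x) u = 0 := by
    rw [B.sub_left]
    nth_rewrite 1 [← h1]
    rw [D.iso, sub_self]
  obtain ⟨c, hc⟩ := h2 _ e1
  change (D.ρ g - 1) ((D.ρ g - 1) ((D.ρ g - 1) x)) = 0
  have e2 : (D.ρ g - 1) x = D.ρ g x - x := rfl
  have e3 : (D.ρ g - 1) (D.ρ g x - x) = c • u := by
    change D.ρ g (D.ρ g x - x) - (D.ρ g x - x) = c • u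
    rw [hc, add_sub_cancel_left]
  rw [e2, e3, map_smul]
  change c • (D.ρ g u - u) = 0
  rw [h1, sub_self, smul_zero]

lemma QG_conj {u : V} {g q : G} {c : K} (hc : c ≠ 0) (hg : D.ρ g u = c • u) (hq : q ∈ D.QG u) :
    g * q * g⁻¹ ∈ D.QG u := by
  obtain ⟨h1, h2⟩ := hq
  have h3 : D.ρ g⁻¹ u = c⁻¹ • u := by
    have h4 := D.inv_self_apply g u
    rw [hg, map_smul] at h4
    rw [← h4, smul_smul, inv_mul_cancel₀ hc, one_smul, h4]
  refine ⟨?_, fun x hx => ?_⟩
  · rw [D.mul_apply, D.mul_apply, h3, map_smul, h1, map_smul, hg, smul_smul, inv_mul_cancel₀ hc,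
      one_smul]
  · obtain ⟨d, hd⟩ := h2 (D.ρ g⁻¹ x) (by rw [D.iso_inv, hg, B.smul_right, hx, mul_zero])
    exact ⟨d * c, by rw [D.mul_apply, D.mul_apply, hd, map_add, D.self_inv_apply, map_smul, hg,
      smul_smul]⟩

/-- The image in the quotient. -/
def Q (u : V) : Subgroup (Pr G) := (D.QG u).map pj

lemma Q_pgroup (u : V) : IsPGroup p (D.Q u) := by
  rintro ⟨_, g, hg, rfl⟩
  refine ⟨2, Subtype.ext ?_⟩
  change pj g ^ p ^ 2 = 1
  rw [← map_pow, D.QG_pow hg, map_one]

lemma Q_le {u : V} {s : Pr G} (hs : s ∈ D.Q u) (hu : B.Iso u) : Nm (D.A u) s := by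
  obtain ⟨g, hg, rfl⟩ := hs
  exact (D.Nm_iff hu).2 ⟨1, by rw [hg.1, one_smul]⟩

lemma Nm_Q {u : V} (hu : B.Iso u) {s : Pr G} (hs : Nm (D.A u) s) : Nm (D.Q u) s := by
  have key : ∀ s : Pr G, Nm (D.A u) s → ∀ x ∈ D.Q u, s * x * s⁻¹ ∈ D.Q u := by
    intro s hs x hx
    obtain ⟨g, rfl⟩ := mk_surjective s
    obtain ⟨c, hc⟩ := (D.Nm_iff hu).1 hs
    obtain ⟨q, hq, rfl⟩ := hx
    exact ⟨g * q * g⁻¹, D.QG_conj (D.smul_ne hu hc) hc hq, by rw [map_mul, map_mul, map_inv]⟩
  have hs' : Nm (D.A u) s⁻¹ := by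
    rw [Nm]
    nth_rewrite 1 [← hs]
    rw [← im_mul, ← map_mul, inv_mul_cancel, map_one, im_one]
  ext x
  constructor
  · rintro ⟨y, hy, rfl⟩
    exact key s hs y hy
  · intro hx
    refine ⟨s⁻¹ * x * s⁻¹⁻¹, key _ hs' x hx, ?_⟩
    change s * (s⁻¹ * x * s⁻¹⁻¹) * s⁻¹ = x
    group

/-- The root groups. -/
def R : Set (Subgroup (Pr G)) := {X | ∃ u, B.Iso u ∧ X = D.A u}

lemma exists_siegel {u w w' : V} (hu : B.Iso u) (hw : B.Iso w) (hw' : B.Iso w')
    (h1 : B.h w u = 1) (h2 : B.h w' u = 1) : ∃ g ∈ D.QG u, D.ρ g w = w' := by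
  set v := w' - w with hv
  have hvu : B.h v u = 0 := by rw [hv, B.sub_left, h1, h2, sub_self]
  have huv := B.zero_symm hvu
  have hc : -B.h w v - B.τ (-B.h w v) = B.h v v := by
    have e1 : w' = w + v := by rw [hv]; abel
    have e2 := hw'.2
    rw [e1, B.add_left, B.add_right, B.add_right, hw.2, B.skew w v] at e2
    rw [map_neg]
    linear_combination -e2
  obtain ⟨g, hg⟩ := D.ex (sgL B u v (-B.h w v)) (sgL_iso B hu.2 hvu hc) (unip_pow p (by
    ext x
    have e1 : ∀ y, (sgL B u v (-B.h w v) - 1) y =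
        B.h y u • v + B.h y v • u + (-B.h w v * B.h y u) • u := by
      intro y
      change sgL B u v (-B.h w v) y - y = _
      rw [sgL_apply]
      abel
    change (sgL B u v (-B.h w v) - 1) ((sgL B u v (-B.h w v) - 1)
      ((sgL B u v (-B.h w v) - 1) x)) = 0
    rw [e1 x, e1, e1]
    simp only [B.add_left, B.smul_left, hu.2, hvu, huv, mul_zero, add_zero, zero_smul, zero_add,
      zero_mul]))
  refine ⟨g, ⟨?_, fun x hx => ⟨B.h x v, ?_⟩⟩, ?_⟩
  · rw [hg, sgL_apply, hu.2, huv]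
    simp
  · rw [hg, sgL_apply, hx]
    simp
  · rw [hg, sgL_apply, h1, one_smul, mul_one, neg_smul, add_neg_cancel_right, hv]
    abel

lemma scale_one {u w : V} (hw : B.Iso w) (h : B.h u w ≠ 0) : ∃ c : K, c ≠ 0 ∧ B.Iso (c • w) ∧
    B.h (c • w) u = 1 := by
  have h1 := B.ne_symm h
  exact ⟨(B.h w u)⁻¹, inv_ne_zero h1, hw.smul (inv_ne_zero h1), by
    rw [B.smul_left, inv_mul_cancel₀ h1]⟩

lemma conj_pres (s : Pr G) : Pres D.R (MulAut.conj s) := by
  rintro _ ⟨u, hu, rfl⟩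
  obtain ⟨g, rfl⟩ := mk_surjective s
  exact ⟨D.ρ g u, D.isoVec g hu, D.A_conj hu.2 g⟩

lemma pj_tv_ne {u : V} (hu : B.Iso u) : pj (D.tv u 1) ≠ 1 := by
  intro h
  have h1 := D.mk_p_inj ⟨u, hu⟩ (D.tv_p1 hu.2 (map_one _)) (s' := 1) (one_pow _) (by
    rw [h, map_one])
  exact D.tv_ne_one hu (map_one _) one_ne_zero h1

/-- The geometry of root groups. -/
lemma geo (hB : B.Rk1) (hS : IsSimpleGroup (Pr G)) : Geo p D.R where
  pgroup := by
    rintro _ ⟨u, hu, rfl⟩
    exact D.A_pgroup hu.2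
  trans := by
    rintro _ ⟨u, hu, rfl⟩
    refine ⟨D.Q u, D.Q_pgroup u, fun s hs => D.Q_le hs hu, fun s hs => D.Nm_Q hu hs, ?_⟩
    rintro _ ⟨w, hw, rfl⟩ _ ⟨w', hw', rfl⟩ h h'
    rw [D.opp_iff hB hu hw] at h
    rw [D.opp_iff hB hu hw'] at h'
    obtain ⟨c, hc, h1, h2⟩ := scale_one hw h
    obtain ⟨c', hc', h1', h2'⟩ := scale_one hw' h'
    obtain ⟨g, hg, hgw⟩ := D.exists_siegel hu h1 h1' h2 h2'
    refine ⟨pj g, ⟨g, hg, rfl⟩, ?_⟩
    rw [← D.A_smul hw.2 hc, D.A_conj h1.2, hgw, D.A_smul hw'.2 hc']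
  common := by
    rintro _ ⟨u, hu, rfl⟩ _ ⟨w, hw, rfl⟩
    obtain ⟨y, hy, h1, h2⟩ := SForm.common hu hw
    exact ⟨D.A y, ⟨y, hy, rfl⟩, (D.opp_iff hB hu hy).2 h1, (D.opp_iff hB hw hy).2 h2⟩
  gen := by
    intro H hH
    let T : Set (Pr G) := {x | ∃ u, B.Iso u ∧ x ∈ D.A u}
    have h1 : Subgroup.normalClosure T ≤ H := by
      rw [Subgroup.normalClosure, Subgroup.closure_le]
      intro x hx
      rw [Group.mem_conjugatesOfSet_iff] at hx
      obtain ⟨y, ⟨u, hu, hy⟩, hxy⟩ := hx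
      obtain ⟨c, rfl⟩ := isConj_iff.1 hxy
      obtain ⟨w, hw, hAw⟩ := D.conj_pres c (D.A u) ⟨u, hu, rfl⟩
      apply hH (D.A w) ⟨w, hw, rfl⟩
      rw [← hAw]
      exact ⟨y, hy, rfl⟩
    obtain ⟨u, hu⟩ := hB.1
    rcases hS.eq_bot_or_eq_top_of_normal (Subgroup.normalClosure T) inferInstance with h2 | h2
    · exfalso
      apply D.pj_tv_ne hu
      rw [← Subgroup.mem_bot, ← h2]
      exact Subgroup.subset_normalClosure ⟨u, hu, (D.mem_A hu.2).2 ⟨1, map_one _, rfl⟩⟩
    · rw [h2] at h1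
      exact top_le_iff.1 h1

/-- Counting vectors and points. -/
lemma card_fiber [Finite K] [Finite V] (T : Set (Subgroup (Pr G))) (hT : T ⊆ D.R) :
    Nat.card {x : V // B.Iso x ∧ D.A x ∈ T} = Nat.card T * (Nat.card K - 1) := by
  have hrep : ∀ C : T, ∃ u, B.Iso u ∧ C.1 = D.A u := fun C => hT C.2
  choose e he heA using hrep
  have h1 : Nat.card Kˣ = Nat.card K - 1 := Nat.card_units K
  rw [← h1, ← Nat.card_prod]
  refine (Nat.card_congr (Equiv.ofBijective (fun q : T × Kˣ =>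
    (⟨(q.2 : K) • e q.1, (he q.1).smul q.2.ne_zero, by
      rw [D.A_smul (he q.1).2 q.2.ne_zero, ← heA]; exact q.1.2⟩ :
      {x : V // B.Iso x ∧ D.A x ∈ T})) ⟨?_, ?_⟩)).symm
  · rintro ⟨C, a⟩ ⟨C', a'⟩ h
    have h2 : (a : K) • e C = (a' : K) • e C' := congrArg Subtype.val h
    have h3 : C = C' := by
      apply Subtype.ext
      rw [heA C, heA C', ← D.A_smul (he C).2 a.ne_zero, h2, D.A_smul (he C').2 a'.ne_zero]
    subst h3
    have h4 : ((a : K) - a') • e C = 0 := by rw [sub_smul, h2, sub_self]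
    have h5 := (smul_eq_zero.1 h4).resolve_right (he C).1
    exact Prod.ext rfl (Units.ext (sub_eq_zero.1 h5))
  · rintro ⟨x, hx, hxT⟩
    obtain ⟨c, hc⟩ := D.A_inj hx (he ⟨_, hxT⟩) (heA ⟨_, hxT⟩)
    have hc0 : c ≠ 0 := by
      rintro rfl
      rw [zero_smul] at hc
      exact hx.1 hc
    exact ⟨(⟨_, hxT⟩, Units.mk0 c hc0), Subtype.ext hc.symm⟩

end Rep

lemma card_fix {X : Type} [Finite X] (f : X → X) (hf : f^[p] = id) :
    Nat.card X ≡ Nat.card {x // f x = x} [MOD p] := by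
  classical
  have := Fintype.ofFinite X
  have h1 := Equiv.Perm.card_fixedPoints_modEq (α := X) (f := f) (p := p) (n := 1) (by
    rw [pow_one]
    have h2 : ∀ n : ℕ, (show Function.End X from f) ^ n = (f^[n] : X → X) := by
      intro n
      induction n with
      | zero => rfl
      | succ n ih =>
        rw [pow_succ', ih, Function.iterate_succ']
        rfl
    exact (h2 p).trans hf)
  rw [Nat.card_eq_fintype_card, Nat.card_eq_fintype_card]
  exact h1

lemma dvd_free {X : Type} [Finite X] (f : X → X) (hf : f^[p] = id) (hfree : ∀ x, f x ≠ x) :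
    p ∣ Nat.card X := by
  have h1 := card_fix (p := p) f hf
  have h2 : Nat.card {x // f x = x} = 0 := by
    have : IsEmpty {x // f x = x} := ⟨fun x => hfree x.1 x.2⟩
    exact Nat.card_of_isEmpty
  rw [h2] at h1
  exact (Nat.modEq_zero_iff_dvd).1 h1

/-- Translations. -/
lemma iterate_shift {X : Type} (φ : X → V) (hφ : Function.Injective φ) (f : X → X) (z : V)
    (a : X → K) (ha : ∀ x, a (f x) = a x) (hf : ∀ x, φ (f x) = φ x + a x • z) : f^[p] = id := by
  have h1 : ∀ n x, φ (f^[n] x) = φ x + ((n : K) * a x) • z ∧ a (f^[n] x) = a x := by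
    intro n
    induction n with
    | zero => intro x; simp
    | succ n ih =>
      intro x
      rw [Function.iterate_succ_apply', hf, (ih x).1, (ih x).2, ha, (ih x).2]
      refine ⟨?_, rfl⟩
      rw [add_assoc, ← add_smul]
      congr 2
      push_cast
      ring
  funext x
  apply hφ
  rw [(h1 p x).1, CharP.cast_eq_zero, zero_mul, zero_smul, add_zero]
  rfl

lemma count_two [Finite V] (hB : B.Rk) {u u' : V} (hu : B.Iso u) (hu' : B.Iso u') :
    p ∣ Nat.card {x : V // B.Iso x ∧ B.h x u ≠ 0 ∧ B.h x u' ≠ 0} := by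
  by_cases h : B.h u u' = 0
  · let f : {x : V // B.Iso x ∧ B.h x u ≠ 0 ∧ B.h x u' ≠ 0} →
        {x : V // B.Iso x ∧ B.h x u ≠ 0 ∧ B.h x u' ≠ 0} := fun x =>
      ⟨x.1 + B.h x.1 u • u, by
        obtain ⟨x, hx, h1, h2⟩ := x
        have e1 : B.h (x + B.h x u • u) u ≠ 0 := by
          rw [B.add_left, B.smul_left, hu.2, mul_zero, add_zero]
          exact h1
        refine ⟨⟨fun h0 => e1 (by rw [h0, B.zero_left]), ?_⟩, e1, ?_⟩
        · rw [B.add_left, B.add_right, B.add_right, B.smul_left, B.smul_left, B.smul_right,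
            B.smul_right, hx.2, hu.2, B.skew x u]
          ring
        · rw [B.add_left, B.smul_left, h, mul_zero, add_zero]
          exact h2⟩
    refine dvd_free f (iterate_shift (fun x => x.1) Subtype.val_injective f u
      (fun x => B.h x.1 u) (fun x => ?_) (fun x => rfl)) (fun x hx => ?_)
    · change B.h (x.1 + B.h x.1 u • u) u = B.h x.1 u
      rw [B.add_left, B.smul_left, hu.2, mul_zero, add_zero]
    · have h1 : x.1 + B.h x.1 u • u = x.1 := congrArg Subtype.val hx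
      rw [add_eq_left, smul_eq_zero] at h1
      rcases h1 with h1 | h1
      · exact x.2.2.1 h1
      · exact hu.1 h1
  · obtain ⟨z, hz, hzu, hzu'⟩ := hB.2 u u' hu hu' h
    let f : {x : V // B.Iso x ∧ B.h x u ≠ 0 ∧ B.h x u' ≠ 0} →
        {x : V // B.Iso x ∧ B.h x u ≠ 0 ∧ B.h x u' ≠ 0} := fun x =>
      ⟨x.1 + B.h x.1 z • z, by
        obtain ⟨x, hx, h1, h2⟩ := x
        have e1 : B.h (x + B.h x z • z) u ≠ 0 := by
          rw [B.add_left, B.smul_left, hzu, mul_zero, add_zero]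
          exact h1
        refine ⟨⟨fun h0 => e1 (by rw [h0, B.zero_left]), ?_⟩, e1, ?_⟩
        · rw [B.add_left, B.add_right, B.add_right, B.smul_left, B.smul_left, B.smul_right,
            B.smul_right, hx.2, hz.2, B.skew x z]
          ring
        · rw [B.add_left, B.smul_left, hzu', mul_zero, add_zero]
          exact h2⟩
    have h1 := card_fix (p := p) f (iterate_shift (fun x => x.1) Subtype.val_injective f z
      (fun x => B.h x.1 z) (fun x => by
        change B.h (x.1 + B.h x.1 z • z) z = B.h x.1 z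
        rw [B.add_left, B.smul_left, hz.2, mul_zero, add_zero]) (fun x => rfl))
    have hfz : ∀ x, f x = x → B.h x.1 z = 0 := by
      intro x hx
      have h1 : x.1 + B.h x.1 z • z = x.1 := congrArg Subtype.val hx
      rw [add_eq_left, smul_eq_zero] at h1
      exact h1.resolve_right hz.1
    have hzf : ∀ x, B.h x.1 z = 0 → f x = x := by
      intro x hx
      apply Subtype.ext
      change x.1 + B.h x.1 z • z = x.1
      rw [hx, zero_smul, add_zero]
    let f2 : {x // f x = x} → {x // f x = x} := fun x =>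
      ⟨⟨x.1.1 + B.h x.1.1 u • z, by
        have e0 := hfz x.1 x.2
        obtain ⟨⟨x, hx, h1, h2⟩, h3⟩ := x
        have e1 : B.h (x + B.h x u • z) u ≠ 0 := by
          rw [B.add_left, B.smul_left, hzu, mul_zero, add_zero]
          exact h1
        refine ⟨⟨fun h0 => e1 (by rw [h0, B.zero_left]), ?_⟩, e1, ?_⟩
        · change B.h x z = 0 at e0
          rw [B.add_left, B.add_right, B.add_right, B.smul_left, B.smul_left, B.smul_right,
            B.smul_right, hx.2, hz.2, e0, B.zero_symm e0]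
          ring
        · rw [B.add_left, B.smul_left, hzu', mul_zero, add_zero]
          exact h2⟩, hzf _ (by
        change B.h (x.1.1 + B.h x.1.1 u • z) z = 0
        rw [B.add_left, B.smul_left, hz.2, mul_zero, add_zero]
        exact hfz x.1 x.2)⟩
    have h2 := dvd_free (p := p) f2 (iterate_shift (fun x => x.1.1)
      (fun x y hxy => Subtype.ext (Subtype.ext hxy)) f2 z
      (fun x => B.h x.1.1 u) (fun x => by
        change B.h (x.1.1 + B.h x.1.1 u • z) u = B.h x.1.1 u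
        rw [B.add_left, B.smul_left, hzu, mul_zero, add_zero]) (fun x => rfl)) (fun x hx => by
        have h3 : x.1.1 + B.h x.1.1 u • z = x.1.1 := congrArg (fun y => y.1.1) hx
        rw [add_eq_left, smul_eq_zero] at h3
        rcases h3 with h3 | h3
        · exact x.1.2.2.1 h3
        · exact hz.1 h3)
    exact (h1.dvd_iff (dvd_refl p)).2 h2

lemma count_all [Finite V] (hB : ∃ u, B.Iso u) : p ∣ Nat.card {x : V // B.h x x = 0} := by
  obtain ⟨u, hu⟩ := hB
  let f : {x : V // B.h x x = 0} → {x : V // B.h x x = 0} := fun x =>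
    ⟨x.1 + B.h x.1 u • u, by
      obtain ⟨x, hx⟩ := x
      change B.h (x + B.h x u • u) (x + B.h x u • u) = 0
      rw [B.add_left, B.add_right, B.add_right, B.smul_left, B.smul_left, B.smul_right,
        B.smul_right, hx, hu.2, B.skew x u]
      ring⟩
  have h1 := card_fix (p := p) f (iterate_shift (fun x => x.1) Subtype.val_injective f u
    (fun x => B.h x.1 u) (fun x => by
      change B.h (x.1 + B.h x.1 u • u) u = B.h x.1 u
      rw [B.add_left, B.smul_left, hu.2, mul_zero, add_zero]) (fun x => rfl))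
  have hfz : ∀ x, f x = x → B.h x.1 u = 0 := by
    intro x hx
    have h1 : x.1 + B.h x.1 u • u = x.1 := congrArg Subtype.val hx
    rw [add_eq_left, smul_eq_zero] at h1
    exact h1.resolve_right hu.1
  have hzf : ∀ x, B.h x.1 u = 0 → f x = x := by
    intro x hx
    apply Subtype.ext
    change x.1 + B.h x.1 u • u = x.1
    rw [hx, zero_smul, add_zero]
  let f2 : {x // f x = x} → {x // f x = x} := fun x =>
    ⟨⟨x.1.1 + (1 : K) • u, by
      have e0 := hfz x.1 x.2
      obtain ⟨⟨x, hx⟩, h3⟩ := x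
      change B.h x u = 0 at e0
      change B.h (x + (1 : K) • u) (x + (1 : K) • u) = 0
      rw [one_smul, B.add_left, B.add_right, B.add_right, hx, hu.2, e0, B.zero_symm e0]
      ring⟩, hzf _ (by
      change B.h (x.1.1 + (1 : K) • u) u = 0
      rw [B.add_left, B.smul_left, hu.2, mul_zero, add_zero]
      exact hfz x.1 x.2)⟩
  have h2 := dvd_free (p := p) f2 (iterate_shift (fun x => x.1.1)
    (fun x y hxy => Subtype.ext (Subtype.ext hxy)) f2 u
    (fun x => (1 : K)) (fun x => rfl) (fun x => rfl)) (fun x hx => by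
      have h3 : x.1.1 + (1 : K) • u = x.1.1 := congrArg (fun y => y.1.1) hx
      rw [one_smul, add_eq_left] at h3
      exact hu.1 h3)
  exact (h1.dvd_iff (dvd_refl p)).2 h2

namespace Rep

variable (D : Rep B p G)

lemma not_dvd_pred [Finite K] : ¬ p ∣ Nat.card K - 1 := by
  have := Fintype.ofFinite K
  intro h
  have h1 : p ∣ Nat.card K := by
    rw [Nat.card_eq_fintype_card]
    exact (CharP.cast_eq_zero_iff K p _).1 (Nat.cast_card_eq_zero K)
  have h2 := Nat.dvd_sub h1 h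
  have h3 : 1 < Nat.card K := by rw [Nat.card_eq_fintype_card]; exact Fintype.one_lt_card
  have h4 : Nat.card K - (Nat.card K - 1) = 1 := by omega
  rw [h4, Nat.dvd_one] at h2
  exact hp.out.one_lt.ne' h2

lemma hcount [Finite K] [Finite V] (hB : B.Rk) : ∀ X ∈ D.R, ∀ Y ∈ D.R,
    p ∣ Nat.card {C : D.R // Opp p X C.1 ∧ Opp p C.1 Y} := by
  rintro _ ⟨u, hu, rfl⟩ _ ⟨u', hu', rfl⟩
  set T : Set (Subgroup (Pr G)) := {C | C ∈ D.R ∧ Opp p (D.A u) C ∧ Opp p C (D.A u')} with hT
  have h1 : Nat.card {C : D.R // Opp p (D.A u) C.1 ∧ Opp p C.1 (D.A u')} = Nat.card T := by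
    refine Nat.card_congr
      { toFun := fun C => ⟨C.1.1, C.1.2, C.2.1, C.2.2⟩
        invFun := fun C => ⟨⟨C.1, C.2.1⟩, C.2.2.1, C.2.2.2⟩
        left_inv := fun C => rfl
        right_inv := fun C => rfl }
  have h2 := D.card_fiber T (fun C hC => hC.1)
  have h3 : Nat.card {x : V // B.Iso x ∧ D.A x ∈ T} =
      Nat.card {x : V // B.Iso x ∧ B.h x u ≠ 0 ∧ B.h x u' ≠ 0} := by
    refine Nat.card_congr (Equiv.subtypeEquivRight fun x => ?_)
    constructor
    · rintro ⟨hx, -, h4, h5⟩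
      rw [D.opp_iff hB.rk1 hu hx] at h4
      rw [D.opp_iff hB.rk1 hx hu'] at h5
      exact ⟨hx, B.ne_symm h4, h5⟩
    · rintro ⟨hx, h4, h5⟩
      exact ⟨hx, ⟨x, hx, rfl⟩, (D.opp_iff hB.rk1 hu hx).2 (B.ne_symm h4),
        (D.opp_iff hB.rk1 hx hu').2 h5⟩
  have h4 := count_two (p := p) hB hu hu'
  rw [← h3, h2] at h4
  rw [h1]
  exact (hp.out.dvd_mul.1 h4).resolve_right (not_dvd_pred (K := K))

lemma hcard [Finite K] [Finite V] (hB : B.Rk1) : ¬ p ∣ Nat.card D.R := by
  intro h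
  have h1 := D.card_fiber D.R (le_refl _)
  have h2 := count_all (p := p) hB.1
  have h3 : Nat.card {x : V // B.h x x = 0} = Nat.card {x : V // B.Iso x ∧ D.A x ∈ D.R} + 1 := by
    classical
    have := Fintype.ofFinite V
    have h4 : Nat.card {x : V // B.Iso x ∧ D.A x ∈ D.R} = Nat.card {x : {x : V // B.h x x = 0} //
        x ≠ ⟨0, B.zero_left 0⟩} := by
      refine Nat.card_congr
        { toFun := fun x => ⟨⟨x.1, x.2.1.2⟩, fun h0 => x.2.1.1 (congrArg Subtype.val h0)⟩
          invFun := fun x => ⟨x.1.1, ⟨fun h0 => x.2 (Subtype.ext h0), x.1.2⟩,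
            ⟨x.1.1, ⟨fun h0 => x.2 (Subtype.ext h0), x.1.2⟩, rfl⟩⟩
          left_inv := fun x => rfl
          right_inv := fun x => rfl }
    rw [h4, Nat.card_eq_fintype_card, Nat.card_eq_fintype_card, Fintype.card_subtype_compl,
      Fintype.card_subtype_eq]
    have h5 : 0 < Fintype.card {x : V // B.h x x = 0} := Fintype.card_pos_iff.2 ⟨⟨0, B.zero_left 0⟩⟩
    omega
  rw [h3, h1] at h2
  have h4 : p ∣ Nat.card D.R * (Nat.card K - 1) := h.mul_right _
  have h5 := (Nat.dvd_add_right h4).1 h2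
  exact hp.out.one_lt.ne' (Nat.dvd_one.1 h5)

end Rep

end Pool.Agent.BSpi.Cls
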