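import Pool.Agent.BSpi.Cls.Trace
import Pool.Agent.BSpi.PSLn.Pair

set_option autoImplicit false
set_option linter.unusedSimpArgs false
set_option linter.unusedVariables false
set_option linter.unusedSectionVars false

open Matrix Matrix.SpecialLinearGroup
open scoped MatrixGroups

namespace Pool.Agent.BSpi.Cls

open Pool.Agent.BSpi.PSL

variable {S F : Type} [Group S] [Field F] {π : Set ℕ}

/-- The image of a subgroup under an automorphism. -/
def im (f : MulAut S) (A : Subgroup S) : Subgroup S := A.map f.toMonoidHom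

lemma im_mul (f g : MulAut S) (A : Subgroup S) : im (f * g) A = im f (im g A) := by
  rw [im, im, im, Subgroup.map_map]
  rfl

lemma im_one (A : Subgroup S) : im 1 A = A := by
  rw [im]
  exact Subgroup.map_id A

lemma mem_im (f : MulAut S) (A : Subgroup S) {x : S} (hx : x ∈ A) : f x ∈ im f A := ⟨x, hx, rfl⟩

lemma im_sup (f : MulAut S) (A B : Subgroup S) : im f (A ⊔ B) = im f A ⊔ im f B :=
  Subgroup.map_sup _ _ _

lemma im_injective (f : MulAut S) : Function.Injective (im f) :=
  Subgroup.map_injective f.injective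

/-- Two subgroups are opposite if they do not generate a `p`-group. -/
def Opp (p : ℕ) (A B : Subgroup S) : Prop := ¬ IsPGroup p (A ⊔ B : Subgroup S)

lemma Opp.symm {p : ℕ} {A B : Subgroup S} (h : Opp p A B) : Opp p B A := by
  rw [Opp, sup_comm]
  exact h

lemma opp_im {p : ℕ} (f : MulAut S) {A B : Subgroup S} : Opp p (im f A) (im f B) ↔ Opp p A B := by
  rw [Opp, Opp, ← im_sup, not_iff_not]
  constructor
  · intro h
    exact h.of_injective ((A ⊔ B).equivMapOfInjective f.toMonoidHom f.injective).toMonoidHom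
      ((A ⊔ B).equivMapOfInjective f.toMonoidHom f.injective).injective
  · intro h
    exact h.map _

/-- Automorphisms preserving a set of subgroups. -/
def Pres (R : Set (Subgroup S)) (f : MulAut S) : Prop := ∀ A ∈ R, im f A ∈ R

lemma bad_order (hinj : Function.Injective (MulAut.conj : S →* MulAut S))
    {f : MulAut S} (hbad : BadAut π S f) (s : S) (q : ℕ) (hq : q.Prime)
    (hqd : q ∣ orderOf (f s * s⁻¹)) : q ∈ π := by
  have h1 := hbad s
  have h2 : f * (MulAut.conj s * f * (MulAut.conj s)⁻¹)⁻¹ = MulAut.conj (f s * s⁻¹) := by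
    have h3 : f * MulAut.conj s = MulAut.conj (f s) * f := by
      ext x
      rw [MulAut.mul_apply, MulAut.mul_apply, MulAut.conj_apply, MulAut.conj_apply, map_mul,
        map_mul, map_inv]
    rw [map_mul, map_inv, _root_.mul_inv_rev, _root_.mul_inv_rev,
      _root_.inv_inv, ← mul_assoc, ← mul_assoc, h3, mul_inv_cancel_right]
  have h4 : MulAut.conj (f s * s⁻¹) ∈
      Subgroup.closure {f, MulAut.conj s * f * (MulAut.conj s)⁻¹} := by
    rw [← h2]
    exact mul_mem (left_mem _ _) (inv_mem (right_mem _ _))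
  refine h1.orderOf h4 q hq ?_
  rw [orderOf_injective (MulAut.conj : S →* MulAut S) hinj]
  exact hqd

/-- The pair `(A, B)` is the pair of root groups of a subgroup `SL(2, F)`. -/
def IsSL2 (F : Type) [Field F] (A B : Subgroup S) : Prop :=
  ∃ φ : SL(2, F) →* S, Function.Injective φ ∧ (∀ x, x ∈ A ↔ ∃ a, x = φ (u a)) ∧
    (∀ x, x ∈ B ↔ ∃ a, x = φ (v a)) ∧
    ∀ s : S, (∀ a, ∃ b, s * φ (u a) * s⁻¹ = φ (u b)) →
      ∃ ν : F, ∀ a, s * φ (u a) * s⁻¹ = φ (u (ν * a))

lemma prod_uv (x y : F) : (v x * u y) 0 0 + (v x * u y) 1 1 = 2 + x * y := by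
  simp only [mul00, mul11, u00, u01, u10, u11, v00, v01, v10, v11]
  ring

/-- Bad automorphisms of odd order moving a root group to an opposite one. -/
lemma primes_of_opp [Finite F] (hinj : Function.Injective (MulAut.conj : S →* MulAut S))
    {f : MulAut S} {m : ℕ} (hf : f ^ (2 * m + 1) = 1) (hbad : BadAut π S f) {A : Subgroup S}
    (h : IsSL2 F A (im f A)) (ℓ : ℕ) (hℓ : ℓ.Prime)
    (hd : ℓ ∣ Nat.card F - 1 ∨ ℓ ∣ Nat.card F + 1) : ℓ ∈ π := by
  obtain ⟨φ, hφ, hA, hB, h2⟩ := h
  obtain ⟨c, σ, hc, hσ, hfσ⟩ := core φ hφ hf (fun a => (hB _).1 (mem_im f A ((hA _).2 ⟨a, rfl⟩))) h2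
  obtain ⟨y, hy, hyM⟩ := exists_trace (κ := -c) (neg_ne_zero.2 hc) hℓ hd
  obtain ⟨a, ha, haσ⟩ := sq_twist hσ hy
  refine bad_order hinj hbad (φ (u a)) ℓ hℓ ?_
  have h3 : f (φ (u a)) * (φ (u a))⁻¹ = φ (v (c * σ a) * u (-a)) := by
    rw [hfσ, ← map_inv, ← map_mul]
    congr 2
    apply sl_ext <;> simp
  rw [h3, orderOf_injective φ hφ]
  apply hyM
  rw [prod_uv, ← haσ]
  ring

lemma card_primes [Finite F] (p : ℕ) [hp : Fact p.Prime] [CharP F p] {ℓ : ℕ} (hℓ : ℓ.Prime)
    (h : ℓ ∣ Nat.card SL(2, F)) : ℓ = p ∨ ℓ ∣ Nat.card F - 1 ∨ ℓ ∣ Nat.card F + 1 := by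
  have := Fintype.ofFinite F
  have h1 : Nat.card SL(2, F) ∣ Nat.card (GL (Fin 2) F) := by
    refine Subgroup.card_dvd_of_injective (Matrix.SpecialLinearGroup.toGL (n := Fin 2) (R := F)) ?_
    intro A B hAB
    apply Subtype.ext
    exact congrArg (fun g : GL (Fin 2) F => g.1) hAB
  have h2 : Nat.card (GL (Fin 2) F) = ∏ i : Fin 2, (Fintype.card F ^ 2 - Fintype.card F ^ (i : ℕ)) :=
    Matrix.card_GL_field 2
  rw [Fin.prod_univ_two] at h2
  have h3 := h.trans h1
  rw [h2] at h3
  rw [Nat.card_eq_fintype_card]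
  have hfac : Fintype.card F ^ 2 - 1 = (Fintype.card F + 1) * (Fintype.card F - 1) := by
    have := Nat.sq_sub_sq (Fintype.card F) 1
    rwa [one_pow] at this
  have hfac2 : Fintype.card F ^ 2 - Fintype.card F = Fintype.card F * (Fintype.card F - 1) := by
    rw [Nat.mul_sub, mul_one, pow_two]
  have e0 : ((0 : Fin 2) : ℕ) = 0 := rfl
  have e1 : ((1 : Fin 2) : ℕ) = 1 := rfl
  rw [e0, e1, pow_zero, pow_one, hfac, hfac2] at h3
  rcases hℓ.dvd_mul.1 h3 with h4 | h4
  · rcases hℓ.dvd_mul.1 h4 with h5 | h5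
    · exact Or.inr (Or.inr h5)
    · exact Or.inr (Or.inl h5)
  · rcases hℓ.dvd_mul.1 h4 with h5 | h5
    · left
      obtain ⟨n, -, hn⟩ := FiniteField.card F p
      rw [hn] at h5
      exact (Nat.prime_dvd_prime_iff_eq hℓ hp.out).1 (hℓ.dvd_of_dvd_pow h5)
    · exact Or.inr (Or.inl h5)

/-- Two root groups generate a `π`-group. -/
lemma pair_isPi [Finite S] [Finite F] (p : ℕ) [hp : Fact p.Prime] [CharP F p] (hpπ : p ∈ π)
    (hπ : ∀ ℓ : ℕ, ℓ.Prime → ℓ ∣ Nat.card F - 1 ∨ ℓ ∣ Nat.card F + 1 → ℓ ∈ π)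
    {A B : Subgroup S} (h : Opp p A B → IsSL2 F A B) : IsPi π (A ⊔ B : Subgroup S) := by
  by_cases h1 : IsPGroup p (A ⊔ B : Subgroup S)
  · exact PSLn.isPi_of_pgroup hp.out hpπ h1
  · obtain ⟨φ, hφ, hA, hB, -⟩ := h h1
    have h2 : A ⊔ B ≤ φ.range := by
      rw [sup_le_iff]
      constructor
      · intro x hx
        obtain ⟨a, rfl⟩ := (hA x).1 hx
        exact ⟨_, rfl⟩
      · intro x hx
        obtain ⟨a, rfl⟩ := (hB x).1 hx
        exact ⟨_, rfl⟩
    intro ℓ hℓ hd
    have h3 : ℓ ∣ Nat.card SL(2, F) := by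
      refine (hd.trans (Subgroup.card_dvd_of_le h2)).trans ?_
      exact Subgroup.card_range_dvd φ
    rcases card_primes p hℓ h3 with rfl | h4
    · exact hpπ
    · exact hπ ℓ hℓ h4

/-- Normalizing a subgroup. -/
def Nm (A : Subgroup S) (s : S) : Prop := im (MulAut.conj s) A = A

lemma Nm.mul {A : Subgroup S} {s t : S} (hs : Nm A s) (ht : Nm A t) : Nm A (s * t) := by
  rw [Nm, map_mul, im_mul, ht, hs]

lemma Nm.conj_mem {A : Subgroup S} {s x : S} (hs : Nm A s) (hx : x ∈ A) : s * x * s⁻¹ ∈ A := by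
  have h1 := mem_im (MulAut.conj s) A hx
  rw [hs] at h1
  exact h1

lemma im_conj (f : MulAut S) (s : S) (A : Subgroup S) :
    im f (im (MulAut.conj s) A) = im (MulAut.conj (f s)) (im f A) := by
  rw [← im_mul, ← im_mul]
  congr 1
  ext x
  rw [MulAut.mul_apply, MulAut.mul_apply, MulAut.conj_apply, MulAut.conj_apply, map_mul,
    map_mul, map_inv]

lemma Nm.im {A : Subgroup S} {s : S} (hs : Nm A s) (f : MulAut S) :
    Nm (Cls.im f A) (f s) := by
  rw [Nm, ← im_conj, hs]

lemma le_normalizer {A B : Subgroup S} (h : ∀ s ∈ B, Nm A s) : B ≤ Subgroup.normalizer (A : Set S) := by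
  intro s hs
  rw [Subgroup.mem_normalizer_iff]
  intro x
  constructor
  · intro hx
    exact (h s hs).conj_mem hx
  · intro hx
    have h1 := (h s⁻¹ (inv_mem hs)).conj_mem hx
    have h2 : s⁻¹ * (s * x * s⁻¹) * s⁻¹⁻¹ = x := by group
    rwa [h2] at h1

/-- The geometric properties of root groups. -/
structure Geo (p : ℕ) (R : Set (Subgroup S)) : Prop where
  pgroup : ∀ A ∈ R, IsPGroup p A
  trans : ∀ A ∈ R, ∃ Q : Subgroup S, IsPGroup p Q ∧ (∀ s ∈ Q, Nm A s) ∧
    (∀ s, Nm A s → Nm Q s) ∧ ∀ B ∈ R, ∀ B' ∈ R, Opp p A B → Opp p A B' →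
      ∃ x ∈ Q, im (MulAut.conj x) B = B'
  common : ∀ A ∈ R, ∀ C ∈ R, ∃ B ∈ R, Opp p A B ∧ Opp p C B
  gen : ∀ H : Subgroup S, (∀ A ∈ R, A ≤ H) → H = ⊤

/-- If `p` is not in `π` then bad automorphisms move all root groups to opposite ones. -/
lemma fixed_case [Finite S] {p : ℕ} [hp : Fact p.Prime] {R : Set (Subgroup S)} (hG : Geo p R)
    (hinj : Function.Injective (MulAut.conj : S →* MulAut S)) {f : MulAut S} {r : ℕ}
    (hr : r.Prime) (hrp : r ≠ p) (hf : f ^ r = 1) (hbad : BadAut π S f) (hP : Pres R f)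
    (hpπ : p ∉ π) {A : Subgroup S} (hA : A ∈ R) (hAf : ¬ Opp p A (im f A)) : f = 1 := by
  have hpel : ∀ (K : Subgroup S) (s : S), IsPGroup p K → f s * s⁻¹ ∈ K → f s = s := by
    intro K s hK hs
    by_contra hne
    have h1 : f s * s⁻¹ ≠ 1 := fun h => hne (mul_inv_eq_one.1 h)
    apply hpπ
    refine bad_order hinj hbad s p hp.out ?_
    obtain ⟨k, hk⟩ := (IsPGroup.iff_orderOf.1 hK) ⟨_, hs⟩
    rw [← Subgroup.orderOf_coe] at hk
    change orderOf (f s * s⁻¹) = p ^ k at hk
    rw [hk]
    refine dvd_pow_self p ?_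
    rintro rfl
    rw [pow_zero] at hk
    exact h1 (orderOf_eq_one_iff.1 hk)
  -- root groups which are not moved to opposite ones are centralized
  have hcent : ∀ B : Subgroup S, ¬ Opp p B (im f B) → ∀ x ∈ B, f x = x := by
    intro B hB x hx
    rw [Opp, not_not] at hB
    exact hpel _ x hB (mul_mem (Subgroup.mem_sup_right (mem_im f B hx))
      (inv_mem (Subgroup.mem_sup_left hx)))
  have himeq : ∀ B : Subgroup S, (∀ x ∈ B, f x = x) → im f B = B := by
    intro B hB
    ext x
    constructor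
    · rintro ⟨y, hy, rfl⟩
      change f y ∈ B
      rw [hB y hy]
      exact hy
    · intro hx
      exact ⟨x, hx, hB x hx⟩
  -- if a root group is centralized, so are the opposite ones
  have hstep : ∀ B ∈ R, (∀ x ∈ B, f x = x) → ∀ C ∈ R, Opp p B C → ∀ x ∈ C, f x = x := by
    intro B hB hBf C hC hBC
    obtain ⟨Q, hQ, hQB, hBQ, htr⟩ := hG.trans B hB
    have hBim := himeq B hBf
    have hQcent : ∀ s ∈ Q, f s = s := by
      intro s hs
      -- the product of `Q` and its image is a `p`-group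
      have h1 : ∀ t ∈ im f Q, Nm B t := by
        rintro _ ⟨t, ht, rfl⟩
        have := (hQB t ht).im f
        rwa [hBim] at this
      have h2 : IsPGroup p (im f Q ⊔ Q : Subgroup S) :=
        IsPGroup.to_sup_of_normal_right' (hQ.map _) hQ
          (le_normalizer fun t ht => hBQ t (h1 t ht))
      exact hpel _ s h2 (mul_mem (Subgroup.mem_sup_left (mem_im f Q hs))
        (inv_mem (Subgroup.mem_sup_right hs)))
    have hCf : im f C ∈ R := hP C hC
    have hBC' : Opp p B (im f C) := by
      have h1 := (opp_im (p := p) f).2 hBC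
      rwa [hBim] at h1
    obtain ⟨x, hx, hxC⟩ := htr C hC _ hCf hBC hBC'
    have hit : ∀ k : ℕ, im (f ^ k) C = im (MulAut.conj (x ^ k)) C := by
      intro k
      induction k with
      | zero => rw [pow_zero, pow_zero, map_one]
      | succ k ih =>
        rw [pow_succ', im_mul, ih, im_conj, ← hxC, map_pow, hQcent x hx, ← im_mul, ← map_mul,
          ← pow_succ]
    have h1 := hit r
    rw [hf, im_one] at h1
    have hxC' : im (MulAut.conj x) C = C := by
      obtain ⟨k, hk⟩ := (IsPGroup.iff_orderOf.1 hQ) ⟨x, hx⟩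
      rw [← Subgroup.orderOf_coe] at hk
      change orderOf x = p ^ k at hk
      have h2 : Nat.Coprime r (orderOf x) := by
        rw [hk]
        exact ((Nat.coprime_primes hr hp.out).2 hrp).pow_right k
      have h3 : x ∈ Subgroup.zpowers (x ^ r) := by
        rw [mem_zpowers_pow_iff]
        exact h2
      obtain ⟨j, hj⟩ := h3
      have h4 : ∀ j : ℕ, im (MulAut.conj ((x ^ r) ^ j)) C = C := by
        intro j
        induction j with
        | zero => rw [pow_zero, map_one, im_one]
        | succ j ih => rw [pow_succ, map_mul, im_mul, ← h1, ih]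
      obtain ⟨j', hj'⟩ := (mem_powers_iff_mem_zpowers.2 ⟨j, hj⟩ : x ∈ Submonoid.powers (x ^ r))
      have h5 := h4 j'
      have hj2 : (x ^ r) ^ j' = x := hj'
      rwa [hj2] at h5
    apply hcent C
    rw [← hxC, hxC', Opp, not_not, sup_idem]
    exact hG.pgroup C hC
  have hAc := hcent A hAf
  have hall : ∀ C ∈ R, ∀ x ∈ C, f x = x := by
    intro C hC
    obtain ⟨B, hB, hAB, hCB⟩ := hG.common A hA C hC
    exact hstep B hB (hstep A hA hAc B hB hAB) C hC hCB.symm
  let H : Subgroup S :=
    { carrier := {x | f x = x}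
      mul_mem' := fun {a b} ha hb => by
        change f (a * b) = a * b
        rw [map_mul, show f a = a from ha, show f b = b from hb]
      one_mem' := map_one f
      inv_mem' := fun {a} ha => by
        change f a⁻¹ = a⁻¹
        rw [map_inv, show f a = a from ha] }
  have hH := hG.gen H (fun C hC x hx => hall C hC x hx)
  ext x
  have hx : x ∈ H := by rw [hH]; trivial
  exact hx

/-- A permutation preserving a relation with even-like counts has a suitable point. -/
lemma exists_not_opp {X : Type} [Finite X] {p : ℕ} [hp : Fact p.Prime] (O : X → X → Prop)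
    (hc : ∀ a b, p ∣ Nat.card {c // O a c ∧ O c b}) (h1 : ¬ p ∣ Nat.card X)
    (hs : ∀ a b, O a b → O b a) (g : Equiv.Perm X) (hg : ∀ a b, O (g a) (g b) ↔ O a b) :
    ∃ a, ¬ O a (g a) := by
  classical
  have := Fintype.ofFinite X
  by_contra hcon
  push Not at hcon
  let M : Matrix X X (ZMod p) := Matrix.of fun a b => if O a b then 1 else 0
  let P : Matrix X X (ZMod p) := Matrix.of fun a b => if g a = b then 1 else 0
  have hMM : M * M = 0 := by
    ext a b
    rw [Matrix.mul_apply, Matrix.zero_apply]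
    have h2 : ∀ c, M a c * M c b = if O a c ∧ O c b then 1 else 0 := by
      intro c
      simp only [M, Matrix.of_apply]
      by_cases h3 : O a c <;> by_cases h4 : O c b <;> simp [h3, h4]
    rw [Finset.sum_congr rfl fun c _ => h2 c, Finset.sum_boole,
      ← Fintype.card_subtype, ← Nat.card_eq_fintype_card, ZMod.natCast_eq_zero_iff]
    exact hc a b
  have hPM : ∀ a b, (P * M) a b = if O (g a) b then 1 else 0 := by
    intro a b
    rw [Matrix.mul_apply, Finset.sum_eq_single (g a)]
    · simp [P, M]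
    · intro c _ hcg
      simp only [P, Matrix.of_apply]
      rw [if_neg (Ne.symm hcg), zero_mul]
    · intro h
      exact absurd (Finset.mem_univ _) h
  have hMP : ∀ a b, (M * P) a b = if O a (g.symm b) then 1 else 0 := by
    intro a b
    rw [Matrix.mul_apply, Finset.sum_eq_single (g.symm b)]
    · simp [P, M]
    · intro c _ hcg
      simp only [P, Matrix.of_apply]
      rw [if_neg (fun h => hcg (by rw [← h, Equiv.symm_apply_apply])), mul_zero]
    · intro h
      exact absurd (Finset.mem_univ _) h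
  have hcomm : P * M = M * P := by
    ext a b
    rw [hPM, hMP]
    have h3 := hg a (g.symm b)
    rw [Equiv.apply_symm_apply] at h3
    simp only [h3]
  have hnil : IsNilpotent (P * M) := by
    refine ⟨2, ?_⟩
    rw [pow_two]
    nth_rewrite 2 [hcomm]
    rw [mul_assoc, ← mul_assoc M, hMM, zero_mul, mul_zero]
  have htr := (Matrix.isNilpotent_trace_of_isNilpotent hnil).eq_zero
  rw [Matrix.trace] at htr
  have h3 : ∀ a, (P * M).diag a = 1 := by
    intro a
    rw [Matrix.diag_apply, hPM, if_pos (hs _ _ (hcon a))]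
  rw [Finset.sum_congr rfl fun a _ => h3 a, Finset.sum_const, Finset.card_univ, nsmul_eq_mul,
    mul_one, ZMod.natCast_eq_zero_iff] at htr
  exact h1 (by rw [Nat.card_eq_fintype_card]; exact htr)

/-- Groups with root groups are good. -/
theorem goodAt_of_root [Finite S] [Finite F] {p : ℕ} [hp : Fact p.Prime] [CharP F p]
    (hinj : Function.Injective (MulAut.conj : S →* MulAut S)) {R : Set (Subgroup S)}
    (hG : Geo p R) (hne : ∃ A ∈ R, ∃ x ∈ A, x ≠ 1)
    (hSL : ∀ A ∈ R, ∀ B ∈ R, Opp p A B → IsSL2 F A B)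
    (hin : ∀ s : S, Pres R (MulAut.conj s))
    (hall : (∀ f : MulAut S, Pres R f) ∨ ((p = 2) ∧ ∀ A ∈ R, ∀ x ∈ A, x * x = 1))
    {r : ℕ} (hr : r.Prime) (hr2 : r ≠ 2) (hodd : ∀ f : MulAut S, orderOf f = r → Pres R f)
    (hcount : ∀ A ∈ R, ∀ B ∈ R, p ∣ Nat.card {C : R // Opp p A C.1 ∧ Opp p C.1 B})
    (hcard : ¬ p ∣ Nat.card R)
    (hmove : ∀ f : MulAut S, orderOf f = r → BadAut π S f → Pres R f → (∃ A ∈ R, Opp p A (im f A)) ∨
      ∀ ℓ : ℕ, ℓ.Prime → ℓ ∣ Nat.card F - 1 ∨ ℓ ∣ Nat.card F + 1 → ℓ ∈ π) :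
    GoodAt π r S := by
  by_cases h : ∃ f : MulAut S, orderOf f = r ∧ BadAut π _ f
  · obtain ⟨f, hfr, hf⟩ := h
    have hP := hodd f hfr
    have hf1 : f ^ r = 1 := by rw [← hfr]; exact pow_orderOf_eq_one f
    have hrπ : r ∈ π := (hf 1).orderOf (left_mem _ _) r hr (by rw [hfr])
    obtain ⟨m, hm⟩ := hr.odd_of_ne_two hr2
    have hπ : ∀ ℓ : ℕ, ℓ.Prime → ℓ ∣ Nat.card F - 1 ∨ ℓ ∣ Nat.card F + 1 → ℓ ∈ π := by
      rcases hmove f hfr hf hP with ⟨A, hA, hAf⟩ | h1
      · intro ℓ hℓ hd
        rw [hm] at hf1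
        exact primes_of_opp hinj hf1 hf (hSL A hA _ (hP A hA) hAf) ℓ hℓ hd
      · exact h1
    have hpπ : p ∈ π := by
      by_contra hpπ
      have hrp : r ≠ p := fun h => hpπ (h ▸ hrπ)
      have : Finite R := Finite.of_injective (fun A : R => A.1) Subtype.val_injective
      have hP' : ∀ A ∈ R, im f⁻¹ A ∈ R := by
        intro A hA
        have h1 : f⁻¹ = f ^ (r - 1) := by
          rw [inv_eq_iff_mul_eq_one, ← pow_succ']
          have h2 : r - 1 + 1 = r := by have := hr.one_lt; omega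
          rw [h2, hf1]
        rw [h1]
        have h3 : ∀ k : ℕ, im (f ^ k) A ∈ R := by
          intro k
          induction k with
          | zero => rw [pow_zero, im_one]; exact hA
          | succ k ih => rw [pow_succ', im_mul]; exact hP _ ih
        exact h3 _
      let g : Equiv.Perm R :=
        { toFun := fun A => ⟨im f A.1, hP A.1 A.2⟩
          invFun := fun A => ⟨im f⁻¹ A.1, hP' A.1 A.2⟩
          left_inv := fun A => Subtype.ext (by
            change im f⁻¹ (im f A.1) = A.1
            rw [← im_mul, inv_mul_cancel, im_one])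
          right_inv := fun A => Subtype.ext (by
            change im f (im f⁻¹ A.1) = A.1
            rw [← im_mul, mul_inv_cancel, im_one]) }
      obtain ⟨A, hA⟩ := exists_not_opp (fun A B : R => Opp p A.1 B.1)
        (fun A B => hcount A.1 A.2 B.1 B.2) hcard (fun A B h => h.symm) g
        (fun A B => opp_im f)
      have h1 := fixed_case hG hinj hr hrp hf1 hf hP hpπ A.2 hA
      rw [h1, orderOf_one] at hfr
      exact hr.one_lt.ne hfr
    obtain ⟨A, hA, x, hx, hx1⟩ := hne
    refine Or.inl ⟨x, hx1, ?_⟩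
    have key : ∀ β : MulAut S, Pres R β → IsPi π (Subgroup.closure {x, β x}) := by
      intro β hβ
      refine (pair_isPi (F := F) p hpπ hπ (hSL A hA _ (hβ A hA))).mono (closure_pair_le
        (Subgroup.mem_sup_left hx) (Subgroup.mem_sup_right (mem_im β A hx)))
    rcases hall with hall | ⟨hp2, hall⟩
    · intro β
      exact key β (hall β)
    · intro β
      have hord : orderOf (MulAut.conj x) = 2 := by
        rw [orderOf_injective (MulAut.conj : S →* MulAut S) hinj]
        have := Fact.mk Nat.prime_two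
        exact orderOf_eq_prime (by rw [pow_two]; exact hall A hA x hx) hx1
      have hnorm : (MulAut.conj : S →* MulAut S).range.Normal := by
        constructor
        rintro _ ⟨s, rfl⟩ γ
        refine ⟨γ s, ?_⟩
        ext y
        rw [MulAut.mul_apply, MulAut.mul_apply, MulAut.conj_apply, MulAut.conj_apply, map_mul,
          map_mul, map_inv, MulAut.apply_inv_self]
      have h1 := involution (π := π) (MulAut.conj : S →* MulAut S).range (MulAut.conj x) ⟨x, rfl⟩ hord
        (by
          rintro _ ⟨s, rfl⟩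
          have h2 := (key (MulAut.conj s) (hin s)).map (MulAut.conj : S →* MulAut S)
          rw [map_pair] at h2
          rw [MulAut.conj_apply] at h2
          rw [← map_inv, ← map_mul, ← map_mul]
          exact h2) β
      have h3 : β * MulAut.conj x * β⁻¹ = MulAut.conj (β x) := by
        ext y
        rw [MulAut.mul_apply, MulAut.mul_apply, MulAut.conj_apply, MulAut.conj_apply, map_mul,
          map_mul, map_inv, MulAut.apply_inv_self]
      rw [h3] at h1
      rw [← isPi_map_iff _ hinj, map_pair]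
      exact h1
  · push Not at h
    exact Or.inr fun f _ hf _ hfb _ => absurd hfb (h f hf)

end Pool.Agent.BSpi.Cls
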