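import Pool.Agent.BSpi.Cls.Form
import Pool.Agent.BSpi.Cls.Root
import Pool.Agent.BSpi.PSL.Rep

set_option autoImplicit false
set_option linter.unusedSimpArgs false
set_option linter.unusedVariables false
set_option linter.unusedSectionVars false

open Matrix Matrix.SpecialLinearGroup
open scoped MatrixGroups

namespace Pool.Agent.BSpi.Cls

open Pool.Agent.BSpi.PSL

variable {K V : Type} [Field K] [AddCommGroup V] [Module K V]

/-- The fixed field. -/
def SForm.F (B : SForm K V) : Subfield K where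
  carrier := {a | B.τ a = a}
  mul_mem' := fun {a b} ha hb => by
    change B.τ (a * b) = a * b
    rw [map_mul, show B.τ a = a from ha, show B.τ b = b from hb]
  one_mem' := map_one _
  add_mem' := fun {a b} ha hb => by
    change B.τ (a + b) = a + b
    rw [map_add, show B.τ a = a from ha, show B.τ b = b from hb]
  zero_mem' := map_zero _
  neg_mem' := fun {a} ha => by
    change B.τ (-a) = -a
    rw [map_neg, show B.τ a = a from ha]
  inv_mem' := fun a ha => by
    change B.τ a⁻¹ = a⁻¹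
    rw [map_inv₀, show B.τ a = a from ha]

/-- Unipotent endomorphisms have `p`-power order. -/
lemma unip_pow (p : ℕ) [hp : Fact p.Prime] [CharP K p] {T : Module.End K V}
    (hT : (T - 1) ^ 3 = 0) : ∃ k : ℕ, T ^ (p ^ k) = 1 := by
  rcases subsingleton_or_nontrivial V with hs | hn
  · exact ⟨0, Subsingleton.elim _ _⟩
  · have : CharP (Module.End K V) p :=
      charP_of_injective_algebraMap (algebraMap K (Module.End K V)).injective p
    refine ⟨2, ?_⟩
    have h1 : T = (T - 1) + 1 := by rw [sub_add_cancel]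
    have h2 : 3 ≤ p ^ 2 := by
      have := hp.out.two_le
      nlinarith
    rw [h1, add_pow_char_pow_of_commute p 2 (Commute.one_right (T - 1)), one_pow]
    have h3 : p ^ 2 = 3 + (p ^ 2 - 3) := by omega
    rw [h3, pow_add, hT, zero_mul, zero_add]

/-- Groups of isometries containing all isometries of `p`-power order. -/
structure Rep (B : SForm K V) (p : ℕ) (G : Type) [Group G] where
  ρ : G →* Module.End K V
  inj : Function.Injective ρ
  iso : ∀ g x y, B.h (ρ g x) (ρ g y) = B.h x y
  ex : ∀ T : Module.End K V, (∀ x y, B.h (T x) (T y) = B.h x y) → (∃ k : ℕ, T ^ (p ^ k) = 1) →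
    ∃ g, ρ g = T

/-- Transvections as linear maps. -/
def tvL (B : SForm K V) (u : V) (a : K) : Module.End K V where
  toFun x := x + (a * B.h x u) • u
  map_add' x y := by rw [B.add_left, mul_add, add_smul]; abel
  map_smul' c x := by rw [B.smul_left, RingHom.id_apply, smul_add, smul_smul]; congr 2; ring

lemma tvL_apply (B : SForm K V) (u : V) (a : K) (x : V) : tvL B u a x = x + (a * B.h x u) • u := rfl

lemma tvL_iso (B : SForm K V) {u : V} (hu : B.h u u = 0) {a : K} (ha : B.τ a = a) (x y : V) :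
    B.h (tvL B u a x) (tvL B u a y) = B.h x y := by
  rw [tvL_apply, tvL_apply, B.add_left, B.add_right, B.add_right, B.smul_left, B.smul_left,
    B.smul_right, B.smul_right, hu, map_mul, ha, B.skew y u]
  ring

/-- Siegel transformations. -/
def sgL (B : SForm K V) (u v : V) (c : K) : Module.End K V where
  toFun x := x + B.h x u • v + B.h x v • u + (c * B.h x u) • u
  map_add' x y := by
    rw [B.add_left, B.add_left, mul_add]
    simp only [add_smul]
    abel
  map_smul' a x := by
    rw [B.smul_left, B.smul_left, RingHom.id_apply]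
    simp only [smul_add, smul_smul]
    congr 2
    ring

lemma sgL_apply (B : SForm K V) (u v : V) (c : K) (x : V) :
    sgL B u v c x = x + B.h x u • v + B.h x v • u + (c * B.h x u) • u := rfl

lemma sgL_iso (B : SForm K V) {u v : V} (hu : B.h u u = 0) (hv : B.h v u = 0) {c : K}
    (hc : c - B.τ c = B.h v v) (x y : V) :
    B.h (sgL B u v c x) (sgL B u v c y) = B.h x y := by
  have hu' := B.zero_symm hv
  simp only [sgL_apply, B.add_left, B.add_right, B.smul_left, B.smul_right, hu, hv, hu', map_mul,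
    B.skew y u, B.skew y v, map_neg, B.tt]
  linear_combination (-(B.τ (B.h y u) * B.h x u)) * hc

variable {B : SForm K V} {p : ℕ} [hp : Fact p.Prime] [CharP K p] {G : Type} [Group G]

namespace Rep

variable (D : Rep B p G)

lemma mul_apply (g g' : G) (x : V) : D.ρ (g * g') x = D.ρ g (D.ρ g' x) := by
  rw [map_mul]; rfl

lemma one_apply (x : V) : D.ρ 1 x = x := by
  rw [map_one]; rfl

lemma inv_self_apply (g : G) (x : V) : D.ρ g⁻¹ (D.ρ g x) = x := by
  rw [← D.mul_apply, inv_mul_cancel, D.one_apply]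

lemma self_inv_apply (g : G) (x : V) : D.ρ g (D.ρ g⁻¹ x) = x := by
  rw [← D.mul_apply, mul_inv_cancel, D.one_apply]

lemma ext {g g' : G} (h : ∀ x, D.ρ g x = D.ρ g' x) : g = g' := D.inj (LinearMap.ext h)

lemma iso_inv (g : G) (x y : V) : B.h (D.ρ g⁻¹ x) y = B.h x (D.ρ g y) := by
  rw [← D.iso g (D.ρ g⁻¹ x) y, D.self_inv_apply]

lemma ne_zero (g : G) {x : V} (hx : x ≠ 0) : D.ρ g x ≠ 0 := by
  intro h
  apply hx
  rw [← D.inv_self_apply g x, h, map_zero]

lemma isoVec (g : G) {x : V} (hx : B.Iso x) : B.Iso (D.ρ g x) :=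
  ⟨D.ne_zero g hx.1, by rw [D.iso, hx.2]⟩

include hp in
lemma ex_tv {u : V} (hu : B.h u u = 0) {a : K} (ha : B.τ a = a) : ∃ g, D.ρ g = tvL B u a := by
  refine D.ex _ (tvL_iso B hu ha) (unip_pow p ?_)
  have h1 : (tvL B u a - 1) * (tvL B u a - 1) = 0 := by
    ext x
    change tvL B u a (tvL B u a x - x) - (tvL B u a x - x) = 0
    have h2 : tvL B u a x - x = (a * B.h x u) • u := by rw [tvL_apply, add_sub_cancel_left]
    rw [h2, tvL_apply, B.smul_left, hu, mul_zero, mul_zero, zero_smul, add_zero, sub_self]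
  rw [pow_succ, pow_two, h1, zero_mul]

open Classical in
/-- Transvections. -/
noncomputable def tv (u : V) (a : K) : G :=
  if h : B.h u u = 0 ∧ B.τ a = a then (D.ex_tv h.1 h.2).choose else 1

lemma tv_apply {u : V} (hu : B.h u u = 0) {a : K} (ha : B.τ a = a) (x : V) :
    D.ρ (D.tv u a) x = x + (a * B.h x u) • u := by
  rw [tv, dif_pos ⟨hu, ha⟩, (D.ex_tv hu ha).choose_spec]
  rfl

lemma tv_add {u : V} (hu : B.h u u = 0) {a b : K} (ha : B.τ a = a) (hb : B.τ b = b) :
    D.tv u (a + b) = D.tv u a * D.tv u b := by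
  apply D.ext
  intro x
  rw [D.mul_apply, D.tv_apply hu (by rw [map_add, ha, hb]), D.tv_apply hu ha, D.tv_apply hu hb,
    B.add_left, B.smul_left, hu, mul_zero, add_zero, add_mul, add_smul]
  abel

lemma tv_zero {u : V} (hu : B.h u u = 0) : D.tv u 0 = 1 := by
  apply D.ext
  intro x
  rw [D.tv_apply hu (map_zero _), zero_mul, zero_smul, add_zero, D.one_apply]

lemma tv_smul {u : V} (hu : B.h u u = 0) {a : K} (ha : B.τ a = a) (c : K) :
    D.tv (c • u) a = D.tv u (c * B.τ c * a) := by
  apply D.ext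
  intro x
  rw [D.tv_apply (by rw [B.smul_left, B.smul_right, hu, mul_zero, mul_zero]) ha,
    D.tv_apply hu (by rw [map_mul, map_mul, B.tt, ha]; ring), B.smul_right, smul_smul]
  congr 2
  ring

lemma tv_conj {u : V} (hu : B.h u u = 0) {a : K} (ha : B.τ a = a) (g : G) :
    g * D.tv u a * g⁻¹ = D.tv (D.ρ g u) a := by
  apply D.ext
  intro x
  rw [D.mul_apply, D.mul_apply, D.tv_apply hu ha, D.tv_apply (by rw [D.iso, hu]) ha, map_add,
    map_smul, D.self_inv_apply, D.iso_inv]

lemma tv_pow {u : V} (hu : B.h u u = 0) {a : K} (ha : B.τ a = a) (n : ℕ) :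
    D.tv u a ^ n = D.tv u (n * a) := by
  induction n with
  | zero => rw [pow_zero, Nat.cast_zero, zero_mul, D.tv_zero hu]
  | succ n ih =>
    rw [pow_succ, ih, ← D.tv_add hu (by rw [map_mul, map_natCast, ha]) ha]
    congr 1
    push_cast
    ring

lemma tv_pow_p {u : V} (hu : B.h u u = 0) {a : K} (ha : B.τ a = a) : D.tv u a ^ p = 1 := by
  rw [D.tv_pow hu ha, CharP.cast_eq_zero, zero_mul, D.tv_zero hu]

lemma tv_comm {u w : V} (hu : B.h u u = 0) (hw : B.h w w = 0) (huw : B.h u w = 0) {a b : K}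
    (ha : B.τ a = a) (hb : B.τ b = b) : D.tv u a * D.tv w b = D.tv w b * D.tv u a := by
  rw [← eq_mul_inv_iff_mul_eq]
  have h1 := D.tv_conj hu ha (D.tv w b)
  rw [h1, D.tv_apply hw hb, huw, mul_zero, zero_smul, add_zero]

/-- Equality of transvections. -/
lemma tv_inj {u w : V} (hu : B.Iso u) (hw : B.h w w = 0) {a b : K}
    (ha : B.τ a = a) (hb : B.τ b = b) (ha0 : a ≠ 0) (h : D.tv u a = D.tv w b) :
    ∃ c : K, u = c • w := by
  obtain ⟨y, hy, hy1⟩ := SForm.partner hu
  have h1 : D.ρ (D.tv u a) y = D.ρ (D.tv w b) y := by rw [h]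
  rw [D.tv_apply hu.2 ha, D.tv_apply hw hb] at h1
  have h2 := add_left_cancel h1
  have h3 : a * B.h y u ≠ 0 := by
    refine mul_ne_zero ha0 (B.ne_symm ?_)
    rw [hy1]
    exact one_ne_zero
  refine ⟨(a * B.h y u)⁻¹ * (b * B.h y w), ?_⟩
  rw [← smul_smul, ← h2, smul_smul, inv_mul_cancel₀ h3, one_smul]

lemma tv_ne_one {u : V} (hu : B.Iso u) {a : K} (ha : B.τ a = a) (ha0 : a ≠ 0) :
    D.tv u a ≠ 1 := by
  intro h
  obtain ⟨y, hy, hy1⟩ := SForm.partner hu
  have h1 : D.ρ (D.tv u a) y = y := by rw [h, D.one_apply]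
  rw [D.tv_apply hu.2 ha, add_eq_left, smul_eq_zero] at h1
  rcases h1 with h1 | h1
  · rcases mul_eq_zero.1 h1 with h2 | h2
    · exact ha0 h2
    · have h3 := B.zero_symm h2
      rw [hy1] at h3
      exact one_ne_zero h3
  · exact hu.1 h1

/-- Elements fixing all isotropic points are scalars. -/
lemma scalar_of_fix (hB : ∃ u, B.Iso u) {z : G}
    (h1 : ∀ u, B.Iso u → ∃ l : K, D.ρ z u = l • u) : ∃ l : K, ∀ x, D.ρ z x = l • x := by
  have h2 : ∀ u w (l m : K), B.Iso u → B.Iso w → B.h u w ≠ 0 → D.ρ z u = l • u → D.ρ z w = m • w →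
      l = m := by
    intro u w l m hu hw huw hl hm
    have hne : ∀ c : K, u + c • w ≠ 0 := by
      intro c h0
      apply huw
      have h5 : u = (-c) • w := by rw [neg_smul]; exact eq_neg_of_add_eq_zero_left h0
      rw [h5, B.smul_left, hw.2, mul_zero]
    obtain ⟨c, hc, hcI⟩ := SForm.combine hu hw hne
    obtain ⟨k, hk⟩ := h1 _ hcI
    rw [map_add, map_smul, hl, hm, smul_add, smul_smul, smul_smul] at hk
    -- compare coefficients
    have e1 := congrArg (fun x => B.h x w) hk
    have e2 := congrArg (fun x => B.h x u) hk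
    simp only [B.add_left, B.smul_left, hu.2, hw.2, mul_zero, add_zero, zero_add] at e1 e2
    have f1 : l = k := mul_right_cancel₀ huw e1
    have f2 : c * m = k * c := mul_right_cancel₀ (B.ne_symm huw) e2
    rw [f1]
    exact mul_left_cancel₀ hc (by rw [f2]; ring)
  obtain ⟨u, hu⟩ := hB
  obtain ⟨l, hl⟩ := h1 u hu
  refine ⟨l, fun x => ?_⟩
  have h3 := SForm.ext_iso ⟨u, hu⟩ (D.ρ z - l • (1 : Module.End K V)) (by
    intro w hw
    obtain ⟨m, hm⟩ := h1 w hw
    obtain ⟨y, hy, huy, hwy⟩ := SForm.common hu hw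
    obtain ⟨k, hk⟩ := h1 y hy
    have h4 := h2 u y l k hu hy huy hl hk
    have h5 := h2 w y m k hw hy hwy hm hk
    rw [LinearMap.sub_apply, LinearMap.smul_apply, hm, h4, h5]
    exact sub_self _) x
  rw [LinearMap.sub_apply, LinearMap.smul_apply, sub_eq_zero] at h3
  exact h3

/-- Central elements are scalars. -/
lemma center_scalar (hB : ∃ u, B.Iso u) {z : G} (hz : z ∈ Subgroup.center G) :
    ∃ l : K, ∀ x, D.ρ z x = l • x := by
  refine D.scalar_of_fix hB fun u hu => ?_
  have h2 := D.tv_conj hu.2 (map_one B.τ) z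
  rw [← (Subgroup.mem_center_iff.1 hz), mul_inv_cancel_right] at h2
  obtain ⟨c, hc⟩ := D.tv_inj (D.isoVec z hu) hu.2 (map_one _) (map_one _) one_ne_zero h2.symm
  exact ⟨c, hc⟩

/-- Scalars are central. -/
lemma center_of_scalar {z : G} {l : K} (hz : ∀ x, D.ρ z x = l • x) : z ∈ Subgroup.center G := by
  rw [Subgroup.mem_center_iff]
  intro g
  apply D.ext
  intro x
  rw [D.mul_apply, D.mul_apply, hz, hz, map_smul]

include D in
/-- Elements of `p`-power order in the centre are trivial. -/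
lemma center_p (hB : ∃ u, B.Iso u) {z : G} (hz : z ∈ Subgroup.center G) {k : ℕ}
    (h : z ^ p ^ k = 1) : z = 1 := by
  obtain ⟨l, hl⟩ := D.center_scalar hB hz
  obtain ⟨u, hu⟩ := hB
  have h1 : ∀ n : ℕ, D.ρ (z ^ n) u = l ^ n • u := by
    intro n
    induction n with
    | zero => rw [pow_zero, pow_zero, D.one_apply, one_smul]
    | succ n ih => rw [pow_succ, D.mul_apply, hl, map_smul, ih, smul_smul, pow_succ']
  have h2 := h1 (p ^ k)
  rw [h, D.one_apply] at h2
  have h3 : l ^ p ^ k = 1 := by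
    have h4 : (l ^ p ^ k - 1) • u = 0 := by rw [sub_smul, one_smul, ← h2, sub_self]
    exact sub_eq_zero.1 ((smul_eq_zero.1 h4).resolve_right hu.1)
  have h5 : l = 1 := by
    have h6 : (l - 1) ^ p ^ k = 0 := by
      rw [sub_pow_char_pow, h3, one_pow, sub_self]
    exact sub_eq_zero.1 (pow_eq_zero_iff (pow_ne_zero k hp.out.ne_zero) |>.1 h6)
  apply D.ext
  intro x
  rw [hl, h5, one_smul, D.one_apply]

end Rep

end Pool.Agent.BSpi.Cls
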