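import Pool.Agent.BSpi.Cls.FormGood
import Pool.Agent.BSpi.PSLn.All

set_option autoImplicit false
set_option linter.unusedSimpArgs false
set_option linter.unusedVariables false
set_option linter.unusedSectionVars false

open Matrix

namespace Pool.Agent.BSpi.Cls

variable {π : Set ℕ}

section

variable {ι K : Type} [Fintype ι] [DecidableEq ι] [Field K]

lemma J_alt (x : ι ⊕ ι → K) : x ⬝ᵥ (Matrix.J ι K *ᵥ x) = 0 := by
  rw [Matrix.J, Matrix.fromBlocks_mulVec, dotProduct, Fintype.sum_sum_type, ← Finset.sum_add_distrib]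
  apply Finset.sum_eq_zero
  intro i _
  simp only [Sum.elim_inl, Sum.elim_inr, Matrix.zero_mulVec, Matrix.one_mulVec, Matrix.neg_mulVec,
    zero_add, add_zero, Pi.neg_apply, Function.comp_apply]
  ring

/-- The symplectic form. -/
def spForm (ι K : Type) [Fintype ι] [DecidableEq ι] [Field K] : SForm K (ι ⊕ ι → K) where
  τ := RingEquiv.refl K
  tt a := rfl
  h x y := x ⬝ᵥ (Matrix.J ι K *ᵥ y)
  add_left x y z := by rw [add_dotProduct]
  smul_left a x y := by rw [smul_dotProduct, smul_eq_mul]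
  skew x y := by
    have h1 := J_alt (x + y)
    rw [mulVec_add, dotProduct_add, add_dotProduct, add_dotProduct, J_alt, J_alt] at h1
    change y ⬝ᵥ (Matrix.J ι K *ᵥ x) = -(x ⬝ᵥ (Matrix.J ι K *ᵥ y))
    linear_combination h1
  nondeg x h := by
    have h1 : ∀ y, x ⬝ᵥ y = 0 := by
      intro y
      have h2 := h (-(Matrix.J ι K *ᵥ y))
      rw [mulVec_neg, mulVec_mulVec, Matrix.J_squared, neg_mulVec, one_mulVec, neg_neg] at h2
      exact h2
    exact dotProduct_eq_zero _ h1
  tr x := ⟨0, by rw [J_alt]; simp⟩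

lemma spForm_h (x y : ι ⊕ ι → K) : (spForm ι K).h x y = x ⬝ᵥ (Matrix.J ι K *ᵥ y) := rfl

/-- The representation of the symplectic group. -/
noncomputable def spRep (ι K : Type) [Fintype ι] [DecidableEq ι] [Field K] (p : ℕ) :
    Rep (spForm ι K) p (Matrix.symplecticGroup ι K) where
  ρ := (Matrix.toLinAlgEquiv' (R := K) (n := ι ⊕ ι)).toRingEquiv.toMonoidHom.comp
    (Matrix.symplecticGroup ι K).subtype
  inj := by
    intro a b hab
    exact Subtype.ext ((Matrix.toLinAlgEquiv' (R := K) (n := ι ⊕ ι)).injective hab)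
  iso g x y := by
    change (g.1 *ᵥ x) ⬝ᵥ (Matrix.J ι K *ᵥ (g.1 *ᵥ y)) = x ⬝ᵥ (Matrix.J ι K *ᵥ y)
    have h1 := SymplecticGroup.mem_iff'.1 g.2
    rw [mulVec_mulVec, ← vecMul_transpose, ← dotProduct_mulVec, mulVec_mulVec, ← Matrix.mul_assoc, h1]
  ex T hT _ := by
    refine ⟨⟨LinearMap.toMatrix' T, SymplecticGroup.mem_iff'.2 ?_⟩, ?_⟩
    · have h1 : ∀ x y, x ⬝ᵥ (((LinearMap.toMatrix' T)ᵀ * Matrix.J ι K * LinearMap.toMatrix' T) *ᵥ y) =
          x ⬝ᵥ (Matrix.J ι K *ᵥ y) := by
        intro x y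
        have h2 := hT x y
        rw [spForm_h, spForm_h, ← LinearMap.toMatrix'_mulVec T x, ← LinearMap.toMatrix'_mulVec T y,
          mulVec_mulVec, ← vecMul_transpose, ← dotProduct_mulVec, mulVec_mulVec, ← Matrix.mul_assoc]
          at h2
        exact h2
      ext i j
      have h2 := h1 (Pi.single i 1) (Pi.single j 1)
      rwa [mulVec_single_one, mulVec_single_one, single_one_dotProduct, single_one_dotProduct] at h2
    · refine LinearMap.ext fun x => ?_
      change Matrix.toLin' (LinearMap.toMatrix' T) x = T x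
      rw [Matrix.toLin'_toMatrix']

lemma spForm_rk (hι : 2 ≤ Fintype.card ι) : (spForm ι K).Rk := by
  have hn : Nontrivial ι := Fintype.one_lt_card_iff_nontrivial.1 (by omega)
  have hn2 : Nontrivial (ι ⊕ ι → K) := inferInstance
  have hiso : ∀ x : ι ⊕ ι → K, x ≠ 0 → (spForm ι K).Iso x := fun x hx => ⟨hx, J_alt x⟩
  refine ⟨?_, ?_⟩
  · obtain ⟨x, hx⟩ := exists_ne (0 : ι ⊕ ι → K)
    exact ⟨x, hiso x hx⟩
  · intro u w _ _ _
    let T : (ι ⊕ ι → K) →ₗ[K] (Fin 2 → K) :=
      { toFun := fun z => ![(spForm ι K).h z u, (spForm ι K).h z w]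
        map_add' := fun x y => by
          rw [(spForm ι K).add_left, (spForm ι K).add_left]
          simp
        map_smul' := fun a x => by
          rw [(spForm ι K).smul_left, (spForm ι K).smul_left]
          simp }
    have h1 : Module.finrank K (Fin 2 → K) < Module.finrank K (ι ⊕ ι → K) := by
      rw [Module.finrank_fintype_fun_eq_card, Module.finrank_fintype_fun_eq_card, Fintype.card_sum,
        Fintype.card_fin]
      omega
    have h2 := LinearMap.ker_ne_bot_of_finrank_lt (f := T) h1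
    obtain ⟨z, hz, hz0⟩ := Submodule.exists_mem_ne_zero_of_ne_bot h2
    have h3 : T z = 0 := hz
    refine ⟨z, hiso z hz0, ?_, ?_⟩
    · have := congrFun h3 0
      simpa [T] using this
    · have := congrFun h3 1
      simpa [T] using this

end

/-- The simple groups `PSp(2n, F)`, `n ≥ 2`, over finite fields are good at all odd primes. -/
lemma sp_goodAt {S : Type} [Group S] (hS : IsSimpleGroup S) (hna : ∃ a b : S, a * b ≠ b * a)
    {r : ℕ} (hr : r.Prime) (hr2 : r ≠ 2) (n : ℕ) (hn : 2 ≤ n) (F : Type) [Field F] [Finite F]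
    (e : S ≃* (Matrix.symplecticGroup (Fin n) F ⧸ Subgroup.center (Matrix.symplecticGroup (Fin n) F))) :
    GoodAt π r S := by
  obtain ⟨p, hp, hcp⟩ : ∃ p : ℕ, Fact p.Prime ∧ CharP F p := by
    have hne : ringChar F ≠ 0 := by
      intro h0
      have : CharZero F := (CharP.ringChar_zero_iff_CharZero F).1 h0
      exact not_finite F
    have : NeZero (ringChar F) := ⟨hne⟩
    exact ⟨ringChar F, CharP.char_is_prime_of_pos F (ringChar F), inferInstance⟩
  have hinj := conj_injective_congr e (conj_injective_of_simple hS hna)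
  have hfin : Finite (Matrix.symplecticGroup (Fin n) F) :=
    Finite.of_injective (fun g => g.1) Subtype.val_injective
  have hS' : IsSimpleGroup (Pr (Matrix.symplecticGroup (Fin n) F)) :=
    (MulEquiv.isSimpleGroup_congr e).1 hS
  exact (form_goodAt (spRep (Fin n) F p) (spForm_rk (by rw [Fintype.card_fin]; exact hn)) hS' hinj
    (Or.inr ⟨fun a => rfl, fun x => J_alt x⟩) hr hr2).congr e

end Pool.Agent.BSpi.Cls
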