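import Pool.Agent.BSpi.Cls.FormGood
import Pool.Agent.BSpi.PSLn.All
import Pool.Agent.BSpi.PSL.H90

set_option autoImplicit false
set_option linter.unusedSimpArgs false
set_option linter.unusedVariables false
set_option linter.unusedSectionVars false

open Matrix

namespace Pool.Agent.BSpi.Cls

variable {π : Set ℕ}

section

variable {ι K : Type} [Fintype ι] [DecidableEq ι] [Field K] [StarRing K]

/-- Norms are surjective. -/
lemma star_norm_surj [Finite K] (hs : ∃ a : K, star a ≠ a) {x : K} (hx0 : x ≠ 0)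
    (hx : star x = x) : ∃ y : K, y ≠ 0 ∧ y * star y = x := by
  obtain ⟨a, ha⟩ := hs
  obtain ⟨y, hy, h⟩ := PSL.nm_surj (σ := (starRingAut : K ≃+* K)) (r := 2) Nat.prime_two
    (by
      ext x
      rw [pow_two]
      change star (star x) = x
      rw [star_star])
    (fun h => ha (congrArg (fun f : K ≃+* K => f a) h)) hx0 hx
  refine ⟨y, hy, ?_⟩
  rw [PSL.nm, Finset.prod_range_succ, Finset.prod_range_succ, Finset.prod_range_zero, one_mul,
    pow_zero, pow_one] at h
  exact h

/-- Traces are surjective. -/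
lemma star_trace_surj (hs : ∃ a : K, star a ≠ a) {t : K} (ht : star t = t) :
    ∃ c : K, c + star c = t := by
  obtain ⟨b, hb⟩ : ∃ b : K, b + star b ≠ 0 := by
    by_contra hcon
    push Not at hcon
    obtain ⟨a, ha⟩ := hs
    have h1 := hcon 1
    have h2 := hcon a
    rw [star_one] at h1
    apply ha
    linear_combination h2 - a * h1
  refine ⟨t * b / (b + star b), ?_⟩
  have h1 : star (t * b / (b + star b)) = t * star b / (b + star b) := by
    rw [star_div₀, star_mul', star_add, star_star, ht, add_comm (star b)]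
  rw [h1, ← add_div, ← mul_add, mul_div_assoc, div_self hb, mul_one]

lemma exists_delta (hs : ∃ a : K, star a ≠ a) : ∃ d : K, d ≠ 0 ∧ star d = -d := by
  obtain ⟨a, ha⟩ := hs
  exact ⟨star a - a, sub_ne_zero.2 ha, by rw [star_sub, star_star]; ring⟩

lemma star_dp (x y : ι → K) : star (x ⬝ᵥ star y) = y ⬝ᵥ star x := by
  simp only [dotProduct, star_sum, star_mul', Pi.star_apply, star_star]
  exact Finset.sum_congr rfl fun i _ => mul_comm _ _

/-- The skew-hermitian form. -/
noncomputable def uForm (ι K : Type) [Fintype ι] [DecidableEq ι] [Field K] [StarRing K]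
    (hs : ∃ a : K, star a ≠ a) : SForm K (ι → K) where
  τ := starRingAut
  tt a := star_star a
  h x y := (exists_delta hs).choose * (x ⬝ᵥ star y)
  add_left x y z := by rw [add_dotProduct, mul_add]
  smul_left a x y := by rw [smul_dotProduct, smul_eq_mul]; ring
  skew x y := by
    change _ = - star _
    rw [star_mul', (exists_delta hs).choose_spec.2, star_dp]
    ring
  nondeg x h := by
    have h1 : ∀ y, x ⬝ᵥ y = 0 := by
      intro y
      have h2 := h (star y)
      rw [star_star] at h2
      exact (mul_eq_zero.1 h2).resolve_left (exists_delta hs).choose_spec.1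
    exact dotProduct_eq_zero _ h1
  tr x := by
    obtain ⟨c, hc⟩ := star_trace_surj hs (t := x ⬝ᵥ star x) (star_dp x x)
    refine ⟨(exists_delta hs).choose * c, ?_⟩
    change _ = _ - star _
    rw [← hc, star_mul', (exists_delta hs).choose_spec.2]
    ring

lemma uForm_h (hs : ∃ a : K, star a ≠ a) (x y : ι → K) :
    (uForm ι K hs).h x y = (exists_delta hs).choose * (x ⬝ᵥ star y) := rfl

lemma uForm_h_eq (hs : ∃ a : K, star a ≠ a) {x y x' y' : ι → K} :
    (uForm ι K hs).h x y = (uForm ι K hs).h x' y' ↔ x ⬝ᵥ star y = x' ⬝ᵥ star y' := by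
  rw [uForm_h, uForm_h]
  exact mul_right_inj' (exists_delta hs).choose_spec.1

/-- The representation of the special unitary group. -/
noncomputable def uRep (ι K : Type) [Fintype ι] [DecidableEq ι] [Field K] [StarRing K]
    (hs : ∃ a : K, star a ≠ a) (p : ℕ) [hp : Fact p.Prime] [CharP K p] :
    Rep (uForm ι K hs) p (Matrix.specialUnitaryGroup ι K) where
  ρ := (Matrix.toLinAlgEquiv' (R := K) (n := ι)).toRingEquiv.toMonoidHom.comp
    (Matrix.specialUnitaryGroup ι K).subtype
  inj := by
    intro a b hab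
    exact Subtype.ext ((Matrix.toLinAlgEquiv' (R := K) (n := ι)).injective hab)
  iso g x y := by
    change (uForm ι K hs).h (g.1 *ᵥ x) (g.1 *ᵥ y) = _
    rw [uForm_h_eq]
    have h1 : g.1ᴴ * g.1 = 1 := Matrix.mem_unitaryGroup_iff'.1 (Matrix.mem_specialUnitaryGroup_iff.1 g.2).1
    rw [star_mulVec, dotProduct_comm, ← dotProduct_mulVec, mulVec_mulVec, h1, one_mulVec,
      dotProduct_comm]
  ex T hT hk := by
    have hU : LinearMap.toMatrix' T ∈ Matrix.unitaryGroup ι K := by
      rw [Matrix.mem_unitaryGroup_iff', Matrix.star_eq_conjTranspose]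
      have h1 : ∀ x y, star y ⬝ᵥ (((LinearMap.toMatrix' T)ᴴ * LinearMap.toMatrix' T) *ᵥ x) =
          star y ⬝ᵥ x := by
        intro x y
        have h2 := hT x y
        rw [uForm_h_eq, ← LinearMap.toMatrix'_mulVec T x, ← LinearMap.toMatrix'_mulVec T y,
          star_mulVec, dotProduct_comm, ← dotProduct_mulVec, mulVec_mulVec, dotProduct_comm x] at h2
        exact h2
      ext i j
      have h2 := h1 (Pi.single j 1) (Pi.single i 1)
      have h3 : star (Pi.single i 1 : ι → K) = Pi.single i 1 := by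
        ext k
        rw [Pi.star_apply]
        by_cases hk : k = i
        · subst hk
          simp
        · simp [hk]
      rw [h3, mulVec_single_one, single_one_dotProduct, single_one_dotProduct, Pi.single_apply] at h2
      rw [Matrix.one_apply]
      exact h2
    refine ⟨⟨LinearMap.toMatrix' T, Matrix.mem_specialUnitaryGroup_iff.2 ⟨hU, ?_⟩⟩, ?_⟩
    · obtain ⟨k, hk⟩ := hk
      have h1 : (LinearMap.toMatrix' T).det ^ p ^ k = 1 := by
        rw [LinearMap.det_toMatrix', ← map_pow, hk, map_one]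
      have h2 : ((LinearMap.toMatrix' T).det - 1) ^ p ^ k = 0 := by
        rw [sub_pow_char_pow, h1, one_pow, sub_self]
      exact sub_eq_zero.1 (pow_eq_zero_iff (pow_ne_zero k hp.out.ne_zero) |>.1 h2)
    · refine LinearMap.ext fun x => ?_
      change Matrix.toLin' (LinearMap.toMatrix' T) x = T x
      rw [Matrix.toLin'_toMatrix']

/-- Subspaces of dimension at least two contain isotropic vectors. -/
lemma exists_iso_of_perp [Finite K] (hs : ∃ a : K, star a ≠ a) {x y : ι → K} (hx : x ≠ 0)
    (hy : y ≠ 0) (hxy : (uForm ι K hs).h y x = 0) :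
    (uForm ι K hs).Iso y ∨ ∃ c : K, (uForm ι K hs).Iso (x + c • y) := by
  set B := uForm ι K hs with hB
  by_cases h1 : B.h y y = 0
  · exact Or.inl ⟨hy, h1⟩
  by_cases h2 : B.h x x = 0
  · exact Or.inr ⟨0, by rw [zero_smul, add_zero]; exact ⟨hx, h2⟩⟩
  right
  have hsk : ∀ z, star (B.h z z) = - B.h z z := by
    intro z
    have h3 := B.skew z z
    change B.h z z = - star (B.h z z) at h3
    rw [h3, neg_neg, ← h3]
  have h3 : star (-(B.h x x) / B.h y y) = -(B.h x x) / B.h y y := by
    rw [star_div₀, star_neg, hsk, hsk]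
    rw [neg_div_neg_eq]
  obtain ⟨c, hc, hcn⟩ := star_norm_surj hs (div_ne_zero (neg_ne_zero.2 h2) h1) h3
  refine ⟨c, ?_, ?_⟩
  · intro h0
    have h4 := B.add_left x (c • y) x
    rw [h0, B.zero_left, B.smul_left, hxy, mul_zero, add_zero] at h4
    exact h2 h4.symm
  · have h5 : B.τ c = star c := rfl
    rw [B.add_left, B.add_right, B.add_right, B.smul_left, B.smul_left, B.smul_right, B.smul_right,
      hxy, B.zero_symm hxy, h5]
    have h6 : c * (star c * B.h y y) = -(B.h x x) := by
      rw [← mul_assoc, hcn, div_mul_cancel₀ _ h1]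
    rw [h6]
    ring

/-- Vectors orthogonal to few vectors. -/
lemma exists_perp_fin (hs : ∃ a : K, star a ≠ a) {k : ℕ} (hk : k < Fintype.card ι)
    (a : Fin k → (ι → K)) : ∃ z : ι → K, z ≠ 0 ∧ ∀ i, (uForm ι K hs).h z (a i) = 0 := by
  set B := uForm ι K hs with hB
  let T : (ι → K) →ₗ[K] (Fin k → K) :=
    { toFun := fun z i => B.h z (a i)
      map_add' := fun x y => by
        ext i
        exact B.add_left _ _ _
      map_smul' := fun c x => by
        ext i
        exact B.smul_left _ _ _ }
  have h1 : Module.finrank K (Fin k → K) < Module.finrank K (ι → K) := by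
    rw [Module.finrank_fintype_fun_eq_card, Module.finrank_fintype_fun_eq_card, Fintype.card_fin]
    exact hk
  have h2 := LinearMap.ker_ne_bot_of_finrank_lt (f := T) h1
  obtain ⟨z, hz, hz0⟩ := Submodule.exists_mem_ne_zero_of_ne_bot h2
  have h3 : T z = 0 := hz
  exact ⟨z, hz0, fun i => congrFun h3 i⟩

lemma uForm_rk [Finite K] (hs : ∃ a : K, star a ≠ a) (hι : 4 ≤ Fintype.card ι) :
    (uForm ι K hs).Rk := by
  refine ⟨?_, ?_⟩
  · obtain ⟨x, hx, -⟩ := exists_perp_fin (ι := ι) hs (k := 0) (by omega) (fun i => i.elim0)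
    obtain ⟨y, hy, hyx⟩ := exists_perp_fin hs (k := 1) (by omega) ![x]
    have h1 := hyx 0
    rcases exists_iso_of_perp hs hx hy h1 with h2 | ⟨c, h2⟩
    · exact ⟨_, h2⟩
    · exact ⟨_, h2⟩
  · intro u w _ _ _
    obtain ⟨x, hx, hxa⟩ := exists_perp_fin (ι := ι) hs (k := 2) (by omega) ![u, w]
    obtain ⟨y, hy, hyx⟩ := exists_perp_fin hs (k := 3) (by omega) ![u, w, x]
    have hxu : (uForm ι K hs).h x u = 0 := hxa 0
    have hxw : (uForm ι K hs).h x w = 0 := hxa 1
    have hyu : (uForm ι K hs).h y u = 0 := hyx 0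
    have hyw : (uForm ι K hs).h y w = 0 := hyx 1
    have hyx : (uForm ι K hs).h y x = 0 := hyx 2
    rcases exists_iso_of_perp hs hx hy hyx with h2 | ⟨c, h2⟩
    · exact ⟨_, h2, hyu, hyw⟩
    · refine ⟨_, h2, ?_, ?_⟩
      · rw [SForm.add_left, SForm.smul_left, hxu, hyu, mul_zero, add_zero]
      · rw [SForm.add_left, SForm.smul_left, hxw, hyw, mul_zero, add_zero]

end

/-- The simple groups `PSU(n, K)`, `n ≥ 4`, over finite fields are good at all odd primes. -/
lemma su_goodAt {S : Type} [Group S] (hS : IsSimpleGroup S) (hna : ∃ a b : S, a * b ≠ b * a)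
    {r : ℕ} (hr : r.Prime) (hr2 : r ≠ 2) (n : ℕ) (hn : 4 ≤ n) (K : Type) [Field K] [Finite K]
    [StarRing K] (hs : ∃ a : K, star a ≠ a)
    (e : S ≃* (Matrix.specialUnitaryGroup (Fin n) K ⧸
      Subgroup.center (Matrix.specialUnitaryGroup (Fin n) K))) :
    GoodAt π r S := by
  obtain ⟨p, hp, hcp⟩ : ∃ p : ℕ, Fact p.Prime ∧ CharP K p := by
    have hne : ringChar K ≠ 0 := by
      intro h0
      have : CharZero K := (CharP.ringChar_zero_iff_CharZero K).1 h0
      exact not_finite K
    have : NeZero (ringChar K) := ⟨hne⟩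
    exact ⟨ringChar K, CharP.char_is_prime_of_pos K (ringChar K), inferInstance⟩
  have hinj := conj_injective_congr e (conj_injective_of_simple hS hna)
  have hfin : Finite (Matrix.specialUnitaryGroup (Fin n) K) :=
    Finite.of_injective (fun g => g.1) Subtype.val_injective
  have hS' : IsSimpleGroup (Pr (Matrix.specialUnitaryGroup (Fin n) K)) :=
    (MulEquiv.isSimpleGroup_congr e).1 hS
  exact (form_goodAt (uRep (Fin n) K hs p) (uForm_rk hs (by rw [Fintype.card_fin]; exact hn)) hS' hinj
    (Or.inl (Or.inl hs)) hr hr2).congr e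

end Pool.Agent.BSpi.Cls
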