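import Pool.Agent.BSpi.Cls.U3e

set_option autoImplicit false
set_option linter.unusedSimpArgs false
set_option linter.unusedVariables false
set_option linter.unusedSectionVars false

open Matrix Matrix.SpecialLinearGroup
open scoped MatrixGroups

namespace Pool.Agent.BSpi.Cls

open Pool.Agent.BSpi.PSL

variable {K V : Type} [Field K] [AddCommGroup V] [Module K V]
variable {B : SForm K V} {p : ℕ} [hp : Fact p.Prime] [CharP K p] {G : Type} [Group G] {π : Set ℕ}

namespace Rep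

variable {D : Rep B p G} {u w n : V}

namespace Semi

variable {f : MulAut (Pr G)} (M : Semi D f)

lemma plane (hB : B.Dim3) (hfix : ∀ y, B.Iso y → ∀ c : K, M.T y ≠ c • y) {u : V} (hu : B.Iso u) :
    ∃ (w n : V) (c : K), Fr B u w n ∧ c ≠ 0 ∧ M.T u = c • w := by
  have hTuI := M.isoVec hu
  have hγ : B.h u (M.T u) ≠ 0 := by
    intro h0
    obtain ⟨w, hw, huw⟩ := SForm.partner hu
    obtain ⟨n, F⟩ := hB.2 u w hu hw huw
    obtain ⟨c, hc⟩ := F.iso_perp hTuI.2 (B.zero_symm h0)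
    exact hfix u hu c hc
  have hγ' : B.τ (B.h u (M.T u))⁻¹ ≠ 0 := (map_ne_zero_iff _ B.τ.injective).2 (inv_ne_zero hγ)
  have hw : B.Iso (B.τ (B.h u (M.T u))⁻¹ • M.T u) := hTuI.smul hγ'
  have huw : B.h u (B.τ (B.h u (M.T u))⁻¹ • M.T u) = 1 := by
    rw [B.smul_right, B.tt, inv_mul_cancel₀ hγ]
  obtain ⟨n, F⟩ := hB.2 u _ hu hw huw
  exact ⟨_, n, (B.τ (B.h u (M.T u))⁻¹)⁻¹, F, inv_ne_zero hγ', by
    rw [smul_smul, inv_mul_cancel₀ hγ', one_smul]⟩

/-- Linear similitudes without isotropic eigenvectors have isotropic cyclic vectors. -/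
lemma exists_cyclic [Finite K] (hB : B.Dim3) (hK : ∃ b : K, b ≠ 0 ∧ B.τ b ^ 3 ≠ b ^ 3)
    (hρ : M.ρ = 1) (hfix : ∀ y, B.Iso y → ∀ c : K, M.T y ≠ c • y) :
    ∃ u, B.Iso u ∧ ∀ a b : K, M.T (M.T u) ≠ a • u + b • M.T u := by
  have hsm : ∀ (a : K) x, M.T (a • x) = a • M.T x := fun a x => by rw [M.smul, hρ]; rfl
  have hnorm := fun {x : K} (h0 : x ≠ 0) (hx : B.τ x = x) => B.norm_surj hK h0 hx
  obtain ⟨u, hu⟩ := hB.1
  by_cases hcyc : ∀ a b : K, M.T (M.T u) ≠ a • u + b • M.T u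
  · exact ⟨u, hu, hcyc⟩
  push Not at hcyc
  obtain ⟨α0, β0, hαβ⟩ := hcyc
  have hTuI := M.isoVec hu
  obtain ⟨w, n, c, F, hc0, hTu⟩ := M.plane hB hfix hu
  have hw := F.hw
  have huw := F.uw
  obtain ⟨α, β, hTw⟩ : ∃ α β : K, M.T w = α • u + β • w := by
    refine ⟨c⁻¹ * α0, β0, ?_⟩
    have h1 : M.T w = c⁻¹ • M.T (M.T u) := by
      rw [hTu, hsm, smul_smul, inv_mul_cancel₀ hc0, one_smul]
    rw [h1, hαβ, hTu, smul_add, smul_smul, smul_smul, smul_smul]
    congr 2
    field_simp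
  have hα0 : α ≠ 0 := by
    rintro rfl
    rw [zero_smul, zero_add] at hTw
    exact hfix w hw β hTw
  obtain ⟨δ, hTn⟩ : ∃ δ : K, M.T n = δ • n := by
    have h1 : B.h (M.T n) w = 0 := by
      have h2 := M.iso n u
      rw [F.nu, map_zero, mul_zero, hTu, B.smul_right] at h2
      exact (mul_eq_zero.1 h2).resolve_left ((map_ne_zero_iff _ B.τ.injective).2 hc0)
    refine ⟨_, F.perp_uw ?_ h1⟩
    have h2 := M.iso n w
    rw [F.nw, map_zero, mul_zero, hTw, B.add_right, B.smul_right, B.smul_right, h1, mul_zero,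
      add_zero] at h2
    exact (mul_eq_zero.1 h2).resolve_left ((map_ne_zero_iff _ B.τ.injective).2 hα0)
  have hη := F.hn
  -- `δ` is not an eigenvalue on the hyperbolic plane
  have hδ : δ * δ - β * δ - c * α ≠ 0 := by
    intro h0
    obtain ⟨y0, hy0⟩ : ∃ y0, y0 = c • w - (β - δ) • u := ⟨_, rfl⟩
    have hTy0 : M.T y0 = δ • y0 := by
      have h1 : y0 = c • w + (-(β - δ)) • u := by rw [hy0]; module
      rw [h1, M.add, hsm, hsm, hTw, hTu]
      have h2 : c • (α • u + β • w) + -(β - δ) • c • w - δ • (c • w + -(β - δ) • u) =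
          (-(δ * δ - β * δ - c * α)) • u := by module
      rw [← sub_eq_zero, h2, h0, neg_zero, zero_smul]
    have hy0u : B.h y0 u ≠ 0 := by
      rw [hy0, B.sub_left, B.smul_left, B.smul_left, F.wu, hu.2]
      simp [hc0]
    by_cases hI : B.h y0 y0 = 0
    · refine hfix y0 ⟨?_, hI⟩ δ hTy0
      intro h
      rw [h, B.zero_left] at hy0u
      exact hy0u rfl
    · have hsk : B.τ (B.h y0 y0) = - B.h y0 y0 := by
        have h := B.skew y0 y0
        rw [h, neg_neg, ← h]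
      obtain ⟨x, hx, hxN⟩ := hnorm (x := -(B.h y0 y0) / B.h n n)
        (div_ne_zero (neg_ne_zero.2 hI) hη) (by
          rw [map_div₀, map_neg, hsk, F.hnτ, neg_div_neg_eq])
      have hny : B.h n y0 = 0 := by
        rw [hy0, B.sub_right, B.smul_right, B.smul_right, F.nw, F.nu, mul_zero, mul_zero, sub_zero]
      refine hfix (x • n + y0) ⟨?_, ?_⟩ δ ?_
      · intro h
        apply hy0u
        have h1 : B.h (x • n + y0) u = 0 := by rw [h, B.zero_left]
        rwa [B.add_left, B.smul_left, F.nu, mul_zero, zero_add] at h1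
      · rw [B.add_left, B.add_right, B.add_right, B.smul_left, B.smul_left, B.smul_right,
          B.smul_right, hny, B.zero_symm hny, ← mul_assoc, hxN, div_mul_cancel₀ _ hη]
        ring
      · rw [M.add, hsm, hTn, hTy0]
        module
  -- a suitable non eigenvector
  obtain ⟨s, hs, hroot⟩ : ∃ s : K, B.τ s ≠ s ∧ c * s * s + β * s - α ≠ 0 := by
    by_contra hcon
    push Not at hcon
    obtain ⟨b, hb0, hb⟩ := hK
    have hbτ : B.τ b ≠ b := fun h => hb (by rw [h])
    obtain ⟨t, ht, ht0, ht1⟩ := B.exists_third ⟨b, hb0, hb⟩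
    have h1 : ∀ t : K, B.τ t = t → c * (b + t) * (b + t) + β * (b + t) - α = 0 := by
      intro t ht
      refine hcon (b + t) ?_
      rw [map_add, ht]
      intro h
      exact hbτ (add_right_cancel h)
    have e0 := h1 0 (map_zero _)
    have e1 := h1 1 (map_one _)
    have e2 := h1 t ht
    have e3 : t * (t - 1) * c = 0 := by linear_combination e2 - t * e1 + (t - 1) * e0
    rcases mul_eq_zero.1 e3 with h | h
    · rcases mul_eq_zero.1 h with h | h
      · exact ht0 h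
      · exact ht1 (sub_eq_zero.1 h)
    · exact hc0 h
  obtain ⟨x, hx, hxN⟩ := hnorm (x := (B.τ s - s) / B.h n n) (div_ne_zero (sub_ne_zero.2 hs) hη) (by
    rw [map_div₀, map_sub, B.tt, F.hnτ, div_neg, ← neg_div, neg_sub])
  refine ⟨x • n + (s • u + w), ⟨?_, ?_⟩, ?_⟩
  · intro h
    have h1 : B.h (x • n + (s • u + w)) u = 0 := by rw [h, B.zero_left]
    simp only [B.add_left, B.smul_left, F.nu, F.wu, hu.2, mul_zero, zero_add] at h1
    exact neg_ne_zero.2 one_ne_zero h1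
  · simp only [B.add_left, B.add_right, B.smul_left, B.smul_right, F.hu.2, F.hw.2, F.uw, F.wu,
          F.nu, F.un, F.nw, F.wn, mul_zero, mul_one, add_zero, zero_add]
    have h1 : x * B.τ x * B.h n n = B.τ s - s := by rw [hxN, div_mul_cancel₀ _ hη]
    linear_combination h1
  · intro A C h
    have hTT : M.T (M.T (x • n + (s • u + w))) = (x * δ * δ) • n + (c * α + β * α) • u +
        ((s * c + β) * β) • w + (s * c * α - c * α) • u + (α * c) • w := by
      simp only [M.add, hsm, hTn, hTu, hTw]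
      module
    rw [hTT, M.add, M.add, hsm, hsm, hTn, hTu, hTw] at h
    have e1 := congrArg (fun x => B.h x u) h
    have e2 := congrArg (fun x => B.h x w) h
    have e3 := congrArg (fun x => B.h x n) h
    simp only [B.add_left, B.smul_left, F.hu.2, F.hw.2, F.uw, F.wu,
          F.nu, F.un, F.nw, F.wn, mul_zero, mul_one, add_zero, zero_add, smul_add] at e1 e2 e3
    have f3 : δ * δ - A - C * δ = 0 := by
      have h1 : x * B.h n n * (δ * δ - A - C * δ) = 0 := by linear_combination e3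
      exact (mul_eq_zero.1 h1).resolve_left (mul_ne_zero hx hη)
    -- components in the plane
    have g1 : (s * c + β) * β + α * c - A - C * (s * c + β) = 0 := by linear_combination -e1
    have g2 : s * c * α + β * α - A * s - C * α = 0 := by linear_combination e2
    have g3 : (β - C) * (c * s * s + β * s - α) = 0 := by linear_combination s * g1 - g2
    have hC : C = β := by
      have := (mul_eq_zero.1 g3).resolve_right hroot
      linear_combination -this
    apply hδ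
    rw [hC] at g1 f3
    linear_combination f3 - g1

/-- Commutators which are unipotent. -/
lemma exists_unipotent [Finite K] [Finite V] (hB : B.Dim3) (hT : D.Tor)
    (hK : ∃ b : K, b ≠ 0 ∧ B.τ b ^ 3 ≠ b ^ 3)
    (hρ : M.ρ = 1) (hfix : ∀ y, B.Iso y → ∀ c : K, M.T y ≠ c • y) :
    ∃ s : Pr G, f s * s⁻¹ ≠ 1 ∧ (f s * s⁻¹) ^ p ^ 2 = 1 := by
  have hsm : ∀ (a : K) x, M.T (a • x) = a • M.T x := fun a x => by rw [M.smul, hρ]; rfl
  obtain ⟨u, hu, hcyc⟩ := M.exists_cyclic hB hK hρ hfix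
  have hTuI := M.isoVec hu
  obtain ⟨w, n, c, F, hc0, hTu⟩ := M.plane hB hfix hu
  have hw := F.hw
  have huw := F.uw
  have hη := F.hn
  -- the image frame
  have hκ0 := M.κ0
  have hisoM : ∀ x y, B.h (M.T x) (M.T y) = M.κ * B.h x y := fun x y => by rw [M.iso, hρ]; rfl
  have F' : Fr B (M.T u) (M.κ⁻¹ • M.T w) (M.T n) := by
    refine ⟨hTuI, (M.isoVec hw).smul (inv_ne_zero hκ0), ?_, M.ne_zero F.n0, ?_, ?_, fun x => ?_⟩
    · rw [B.smul_right, map_inv₀, M.κτ, hisoM, huw, mul_one, inv_mul_cancel₀ hκ0]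
    · rw [hisoM, F.nu, mul_zero]
    · rw [B.smul_right, hisoM, F.nw, mul_zero, mul_zero]
    · obtain ⟨y, rfl⟩ := M.surjective x
      obtain ⟨a, b, e, rfl⟩ := F.span y
      refine ⟨a, b, e * M.κ, ?_⟩
      rw [M.add, M.add, hsm, hsm, hsm, smul_smul, mul_assoc, mul_inv_cancel₀ hκ0, mul_one]
  obtain ⟨b0, hb0, hb3⟩ := hK
  have hτb0 : B.τ b0 ≠ 0 := (map_ne_zero_iff _ B.τ.injective).2 hb0
  obtain ⟨a, ha0, haN, ha3⟩ : ∃ a : K, a ≠ 0 ∧ B.τ a * a = 1 ∧ a ^ 3 ≠ 1 := by
    refine ⟨B.τ b0 / b0, div_ne_zero hτb0 hb0, ?_, ?_⟩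
    · rw [map_div₀, B.tt]
      field_simp
    · rw [div_pow]
      intro h
      exact hb3 ((div_eq_one_iff_eq (pow_ne_zero 3 hb0)).1 h)
  have hτa : B.τ a = a⁻¹ := eq_inv_of_mul_eq_one_left haN
  obtain ⟨g, hgu, hgw, hgn⟩ := hT u w n F a ha0
  obtain ⟨g', hgu', hgw', hgn'⟩ := hT _ _ _ F' a ha0
  rw [hτa] at hgw hgn hgw' hgn'
  rw [_root_.inv_inv] at hgw hgw'
  have hgw'' : D.ρ g' (M.T w) = a • M.T w := by
    rw [map_smul] at hgw'
    have h1 := congrArg (fun x => M.κ • x) hgw'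
    simp only [smul_smul] at h1
    rw [mul_inv_cancel₀ hκ0, one_smul, mul_comm a, ← mul_assoc, mul_inv_cancel₀ hκ0, one_mul] at h1
    exact h1
  have hfg : f (pj g) = pj g' := by
    refine M.apply hB.rk1 fun x => ?_
    obtain ⟨x1, x2, x3, rfl⟩ := F.span x
    simp only [map_add, map_smul, M.add, hsm, hgu, hgw, hgn, hgu', hgw'', hgn']
  have hginv : ∀ (x : V) (b : K), b ≠ 0 → D.ρ g x = b • x → D.ρ g⁻¹ x = b⁻¹ • x := by
    intro x b hb hx
    have h1 := D.inv_self_apply g x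
    rw [hx, map_smul] at h1
    calc D.ρ g⁻¹ x = b⁻¹ • (b • D.ρ g⁻¹ x) := by rw [smul_smul, inv_mul_cancel₀ hb, one_smul]
      _ = b⁻¹ • x := by rw [h1]
  have hTuw : D.ρ g (M.T u) = a • M.T u := by rw [hTu, map_smul, hgw, smul_comm]
  have h1 : D.ρ (g' * g⁻¹) (M.T u) = M.T u := by
    rw [D.mul_apply, hginv _ _ ha0 hTuw, map_smul, hgu', smul_smul, inv_mul_cancel₀ ha0, one_smul]
  have hnTu : B.h n (M.T u) = 0 := by rw [hTu, B.smul_right, F.nw, mul_zero]
  obtain ⟨x1, x2, hn⟩ : ∃ x1 x2 : K, n = x1 • M.T u + x2 • M.T n := ⟨_, _, F'.perp_u hnTu⟩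
  have hq : D.ρ (g' * g⁻¹) n = n + (x1 * (a ^ 3 - 1)) • M.T u := by
    have e1 : D.ρ g⁻¹ n = (a * a) • n := by
      have h2 := hginv n (a⁻¹ / a) (div_ne_zero (inv_ne_zero ha0) ha0) hgn
      rw [h2]
      congr 1
      field_simp
    have e2 : D.ρ g' n = (x1 * a) • M.T u + (x2 * (a⁻¹ / a)) • M.T n := by
      nth_rewrite 1 [hn]
      rw [map_add, map_smul, map_smul, hgu', hgn', smul_smul, smul_smul]
    have e3 : x2 • M.T n = n - x1 • M.T u := by
      nth_rewrite 2 [hn]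
      rw [add_sub_cancel_left]
    rw [D.mul_apply, e1, map_smul, e2, smul_add, smul_smul, smul_smul]
    have e4 : (a * a * (x2 * (a⁻¹ / a))) • M.T n = x2 • M.T n := by
      congr 1
      field_simp
    rw [e4, e3]
    have e5 : a * a * (x1 * a) = x1 + x1 * (a ^ 3 - 1) := by ring
    rw [e5]
    module
  have hmem : g' * g⁻¹ ∈ D.QG (M.T u) := by
    refine ⟨h1, fun x hx => ?_⟩
    have hxw : B.h x w = 0 := by
      rw [hTu, B.smul_right] at hx
      exact (mul_eq_zero.1 hx).resolve_left ((map_ne_zero_iff _ B.τ.injective).2 hc0)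
    have h2 := F.eq x
    rw [hxw, zero_smul, zero_add] at h2
    set b := B.h x n / B.h n n
    set d := -(B.h x u)
    have hqw : D.ρ (g' * g⁻¹) w = w := by
      have h3 : w = c⁻¹ • M.T u := by rw [hTu, smul_smul, inv_mul_cancel₀ hc0, one_smul]
      rw [h3, map_smul, h1]
    refine ⟨b * (x1 * (a ^ 3 - 1)), ?_⟩
    rw [h2, map_add, map_smul, map_smul, hq, hqw]
    module
  have hpow := D.QG_pow hmem
  refine ⟨pj g, ?_, ?_⟩
  · rw [hfg, ← map_inv, ← map_mul]
    intro h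
    have h2 := D.center_p hB.1 (mk_eq_one.1 h) hpow
    rw [h2, D.one_apply] at hq
    have h3 : (x1 * (a ^ 3 - 1)) • M.T u = 0 := by
      have := hq
      rw [left_eq_add] at this
      exact this
    have hx1 : x1 = 0 := by
      rcases smul_eq_zero.1 h3 with h4 | h4
      · exact (mul_eq_zero.1 h4).resolve_right (sub_ne_zero.2 ha3)
      · exact absurd h4 hTuI.1
    rw [hx1, zero_smul, zero_add] at hn
    -- then `T (T u)` lies in the plane
    have hx2 : x2 ≠ 0 := by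
      rintro rfl
      exact F.n0 (by rw [hn, zero_smul])
    have h5 : B.h (M.T (M.T u)) n = 0 := by
      rw [hn, B.smul_right, hisoM, B.zero_symm hnTu, mul_zero, mul_zero]
    have h6 := F.eq (M.T (M.T u))
    rw [h5, zero_div, zero_smul, add_zero] at h6
    apply hcyc (B.h (M.T (M.T u)) w) (-(B.h (M.T (M.T u)) u) * c⁻¹)
    have h7 : w = c⁻¹ • M.T u := by rw [hTu, smul_smul, inv_mul_cancel₀ hc0, one_smul]
    rw [← smul_smul, ← h7]
    exact h6
  · rw [hfg, ← map_inv, ← map_mul, ← map_pow, hpow, map_one]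

end Semi

end Rep

/-- Three-dimensional unitary groups are good. -/
theorem form3_goodAt [Finite K] [Finite V] {G : Type} [Group G] [Finite G] (D : Rep B p G)
    (hB : B.Dim3) (hT : D.Tor) (hK : ∃ b : K, b ≠ 0 ∧ B.τ b ^ 3 ≠ b ^ 3)
    (hS : IsSimpleGroup (Pr G)) (hinj : Function.Injective (MulAut.conj : Pr G →* MulAut (Pr G)))
    {r : ℕ} (hr : r.Prime) (hr2 : r ≠ 2) : GoodAt π r (Pr G) := by
  have hF := charP_F B p
  have hτ : (∃ l, B.τ l ≠ l) ∨ (2 : K) ≠ 0 := by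
    obtain ⟨b, -, hb⟩ := hK
    exact Or.inl ⟨b, fun h => hb (by rw [h])⟩
  have hall := D.pres_all hB.rk1 hτ
  by_cases h : ∃ f : MulAut (Pr G), orderOf f = r ∧ BadAut π _ f
  · obtain ⟨f, hfr, hf⟩ := h
    have hf1 : f ^ r = 1 := by rw [← hfr]; exact pow_orderOf_eq_one f
    have hfne : f ≠ 1 := by
      rintro rfl
      rw [orderOf_one] at hfr
      exact hr.one_lt.ne hfr
    have hrπ : r ∈ π := (hf 1).orderOf (left_mem _ _) r hr (by rw [hfr])
    obtain ⟨m, hm⟩ := hr.odd_of_ne_two hr2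
    have hSL : ∀ A ∈ D.R, ∀ C ∈ D.R, Opp p A C → IsSL2 B.F A C := by
      rintro _ ⟨u, hu, rfl⟩ _ ⟨w, hw, rfl⟩ h
      exact D.isSL2 hB.rk1 hu hw ((D.opp_iff hB.rk1 hu hw).1 h)
    have hπ : ∀ ℓ : ℕ, ℓ.Prime → ℓ ∣ Nat.card B.F - 1 ∨ ℓ ∣ Nat.card B.F + 1 → ℓ ∈ π := by
      obtain ⟨A, hA, hAf⟩ := D.hmove hB.rk1 (m := m) (by rw [← hm]; exact hf1) (hall f) hfne
      intro ℓ hℓ hd
      exact primes_of_opp hinj (m := m) (by rw [← hm]; exact hf1) hf (hSL A hA _ (hall f A hA) hAf) ℓ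
        hℓ hd
    have hpπ : p ∈ π := by
      by_contra hpπ
      have hrp : r ≠ p := fun h => hpπ (h ▸ hrπ)
      by_cases hfx : ∃ y, B.Iso y ∧ im f (D.A y) = D.A y
      · obtain ⟨y, hy, hfy⟩ := hfx
        apply hfne
        refine fixed_case (D.geo hB.rk1 hS) hinj hr hrp hf1 hf (hall f) hpπ ⟨y, hy, rfl⟩ ?_
        rw [hfy, Opp, not_not, sup_idem]
        exact D.A_pgroup hy.2
      · obtain ⟨M⟩ := Rep.exists_semi hB hT hK f
        have hρ : M.ρ = 1 := by
          by_contra hρ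
          exact hfx (M.exists_fixed hB hK hr hr2 hf1 hρ)
        obtain ⟨s, hs, hs2⟩ := M.exists_unipotent hB hT hK hρ (fun y hy c hc => by
          apply hfx
          have hc0 : c ≠ 0 := by
            rintro rfl
            exact (M.isoVec hy).1 (by rw [hc, zero_smul])
          exact ⟨y, hy, by rw [M.act y hy, hc, D.A_smul hy.2 hc0]⟩)
        apply hpπ
        refine bad_order hinj hf s p hp.out ?_
        obtain ⟨k, -, hk⟩ := (Nat.dvd_prime_pow hp.out).1 (orderOf_dvd_of_pow_eq_one hs2)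
        rw [hk]
        refine dvd_pow_self p ?_
        rintro rfl
        rw [pow_zero] at hk
        exact hs (orderOf_eq_one_iff.1 hk)
    obtain ⟨u, hu⟩ := hB.1
    refine Or.inl ⟨pj (D.tv u 1), D.pj_tv_ne hu, fun β => ?_⟩
    have hx : pj (D.tv u 1) ∈ D.A u := (D.mem_A hu.2).2 ⟨1, map_one _, rfl⟩
    refine (pair_isPi (F := B.F) p hpπ hπ (hSL _ ⟨u, hu, rfl⟩ _ (hall β _ ⟨u, hu, rfl⟩))).mono
      (closure_pair_le (Subgroup.mem_sup_left hx) (Subgroup.mem_sup_right (mem_im β _ hx)))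
  · push Not at h
    exact Or.inr fun f _ hf _ hfb _ => absurd hfb (h f hf)

end Pool.Agent.BSpi.Cls
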