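import Pool.Agent.BSpi.Cls.InstU
import Pool.Agent.BSpi.Cls.U3f

set_option autoImplicit false
set_option linter.unusedSimpArgs false
set_option linter.unusedVariables false
set_option linter.unusedSectionVars false

open Matrix

namespace Pool.Agent.BSpi.Cls

variable {π : Set ℕ}

section

variable {K : Type} [Field K] [StarRing K]

lemma exists_cube [Finite K] (hs : ∃ a : K, star a ≠ a) (hc : 4 < Nat.card K) :
    ∃ b : K, b ≠ 0 ∧ star b ^ 3 ≠ b ^ 3 := by
  classical
  have := Fintype.ofFinite K
  by_contra hcon
  push Not at hcon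
  have hcon' : ∀ b : K, star b ^ 3 = b ^ 3 := by
    intro b
    by_cases hb : b = 0
    · rw [hb, star_zero]
    · exact hcon b hb
  obtain ⟨d, hd⟩ := hs
  have hdd : star d - d ≠ 0 := sub_ne_zero.2 hd
  have h1 : ∀ t : K, star t = t → t ≠ 0 → (3 : K) = 0 ∨ t = -(star d + d) := by
    intro t ht ht0
    have e1 := hcon' (d + t)
    have e2 := hcon' d
    rw [star_add, ht] at e1
    have e3 : 3 * (t * (star d - d) * (star d + d + t)) = 0 := by
      linear_combination e1 - e2
    rcases mul_eq_zero.1 e3 with h | h
    · exact Or.inl h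
    · rcases mul_eq_zero.1 h with h | h
      · rcases mul_eq_zero.1 h with h | h
        · exact absurd h ht0
        · exact absurd h hdd
      · exact Or.inr (by linear_combination h)
  have h3 : (3 : K) ≠ 0 := by
    intro h3
    have e2 := hcon' d
    have e3 : (star d - d) ^ 3 = 0 := by
      linear_combination e2 - (star d ^ 2 * d - star d * d ^ 2) * h3
    exact hdd (pow_eq_zero_iff (by norm_num) |>.1 e3)
  have h4 : ∀ t : K, star t = t → t = 0 ∨ t = 1 := by
    intro t ht
    by_cases ht0 : t = 0
    · exact Or.inl ht0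
    · right
      rw [(h1 t ht ht0).resolve_left h3, ← (h1 1 (star_one K) one_ne_zero).resolve_left h3]
  have h5 : ∀ k : K, k ∈ ({0, 1, d, 1 + d} : Finset K) := by
    intro k
    set t := (k - star k) / (d - star d) with ht
    have hdd' : d - star d ≠ 0 := sub_ne_zero.2 (Ne.symm hd)
    have e1 : star t = t := by
      rw [ht, star_div₀, star_sub, star_sub, star_star, star_star, ← neg_sub k, ← neg_sub d,
        neg_div_neg_eq]
    have e2 : star (k - t * d) = k - t * d := by
      rw [star_sub, star_mul', e1]
      have h6 : t * (d - star d) = k - star k := div_mul_cancel₀ _ hdd'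
      linear_combination h6
    have e3 : k = (k - t * d) + t * d := by ring
    rw [Finset.mem_insert, Finset.mem_insert, Finset.mem_insert, Finset.mem_singleton]
    rcases h4 t e1 with h6 | h6 <;> rcases h4 _ e2 with h7 | h7
    · left; rw [e3, h7, h6]; ring
    · right; left; rw [e3, h7, h6]; ring
    · right; right; left; rw [e3, h7, h6]; ring
    · right; right; right; rw [e3, h7, h6]; ring
  have h6 : Fintype.card K ≤ 4 := by
    rw [← Finset.card_univ]
    refine (Finset.card_le_card (fun k _ => h5 k)).trans Finset.card_le_four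
  rw [Nat.card_eq_fintype_card] at hc
  omega

lemma uForm_dim3 [Finite K] (hs : ∃ a : K, star a ≠ a) : (uForm (Fin 3) K hs).Dim3 := by
  refine ⟨?_, ?_⟩
  · obtain ⟨x, hx, -⟩ := exists_perp_fin (ι := Fin 3) hs (k := 0) (by simp) (fun i => i.elim0)
    obtain ⟨y, hy, hyx⟩ := exists_perp_fin hs (k := 1) (by simp) ![x]
    have h1 := hyx 0
    rcases exists_iso_of_perp hs hx hy h1 with h2 | ⟨c, h2⟩
    · exact ⟨_, h2⟩
    · exact ⟨_, h2⟩
  · intro u w hu hw huw
    obtain ⟨n, hn, hna⟩ := exists_perp_fin (ι := Fin 3) hs (k := 2) (by simp) ![u, w]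
    set B := uForm (Fin 3) K hs with hB
    have hnu : B.h n u = 0 := hna 0
    have hnw : B.h n w = 0 := hna 1
    have hwu : B.h w u = -1 := by rw [B.skew u w, huw, map_one]
    have hun := B.zero_symm hnu
    have hwn := B.zero_symm hnw
    -- coordinates
    let T : (Fin 3 → K) →ₗ[K] (Fin 3 → K) :=
      { toFun := fun x => ![B.h x u, B.h x w, B.h x n]
        map_add' := fun x y => by
          rw [B.add_left, B.add_left, B.add_left]
          simp
        map_smul' := fun a x => by
          rw [B.smul_left, B.smul_left, B.smul_left]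
          simp }
    have hT : ∀ x, T x = ![B.h x u, B.h x w, B.h x n] := fun x => rfl
    have hηne : B.h n n ≠ 0 := by
      intro h0
      -- otherwise `n` is in the radical of the span, count dimensions
      have h1 : ∀ x, B.h x u = 0 → B.h x w = 0 → B.h x n = 0 := by
        intro x hxu hxw
        by_contra hxn
        -- four independent vectors
        have hli : LinearIndependent K ![u, w, n, x] := by
          rw [Fintype.linearIndependent_iff]
          intro g hg
          rw [Fin.sum_univ_four] at hg
          have hg' : g 0 • u + g 1 • w + g 2 • n + g 3 • x = 0 := hg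
          have hux := B.zero_symm hxu
          have hwx := B.zero_symm hxw
          have e1 := congrArg (fun y => B.h y u) hg'
          have e2 := congrArg (fun y => B.h y w) hg'
          have e3 := congrArg (fun y => B.h y n) hg'
          have e4 := congrArg (fun y => B.h y x) hg'
          simp only [B.add_left, B.smul_left, B.zero_left, hu.2, hw.2, huw, hwu, hnu, hnw, hun, hwn,
            h0, hxu, hxw, hux, hwx, mul_zero, mul_one, add_zero, zero_add] at e1 e2 e3 e4
          have f1 : g 1 = 0 := by linear_combination -e1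
          have f0 : g 0 = 0 := by linear_combination e2
          have f3 : g 3 = 0 := (mul_eq_zero.1 e3).resolve_right hxn
          rw [f3, zero_mul, add_zero] at e4
          have f2 : g 2 = 0 := (mul_eq_zero.1 e4).resolve_right (B.ne_symm hxn)
          intro i
          fin_cases i
          · exact f0
          · exact f1
          · exact f2
          · exact f3
        have h2 := hli.fintype_card_le_finrank
        rw [Module.finrank_fintype_fun_eq_card, Fintype.card_fin, Fintype.card_fin] at h2
        omega
      apply hn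
      refine B.nondeg n fun y => B.zero_symm ?_
      have h2 := h1 (y + B.h y u • w - B.h y w • u) (by
        rw [B.sub_left, B.add_left, B.smul_left, B.smul_left, hwu, hu.2]; ring) (by
        rw [B.sub_left, B.add_left, B.smul_left, B.smul_left, hw.2, huw]; ring)
      rw [B.sub_left, B.add_left, B.smul_left, B.smul_left, hwn, hun, mul_zero, mul_zero, add_zero,
        sub_zero] at h2
      exact h2
    have hsurj : Function.Surjective T := by
      intro y
      refine ⟨(y 1) • u + (-(y 0)) • w + (y 2 / B.h n n) • n, ?_⟩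
      rw [hT]
      ext i
      simp only [B.add_left, B.smul_left, hu.2, hw.2, huw, hwu, hnu, hnw, hun, hwn, mul_zero, mul_one,
        add_zero, zero_add]
      fin_cases i
      · simp
      · simp
      · simp [hηne]
    have hinj : Function.Injective T := LinearMap.injective_iff_surjective.2 hsurj
    refine ⟨n, ⟨hu, hw, huw, hn, hnu, hnw, fun x => ?_⟩⟩
    refine ⟨B.h x w, B.h x n / B.h n n, -(B.h x u), ?_⟩
    apply hinj
    rw [hT, hT]
    simp only [B.add_left, B.smul_left, hu.2, hw.2, huw, hwu, hnu, hnw, hun, hwn, mul_zero, mul_one,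
        add_zero, zero_add]
    rw [div_mul_cancel₀ _ hηne]
    simp

lemma uRep_ex_det (hs : ∃ a : K, star a ≠ a) (p : ℕ) [hp : Fact p.Prime] [CharP K p]
    {ι : Type} [Fintype ι] [DecidableEq ι] (T : Module.End K (ι → K))
    (hT : ∀ x y, (uForm ι K hs).h (T x) (T y) = (uForm ι K hs).h x y) (hdet : LinearMap.det T = 1) :
    ∃ g, (uRep ι K hs p).ρ g = T := by
  have hU : LinearMap.toMatrix' T ∈ Matrix.unitaryGroup ι K := by
    rw [Matrix.mem_unitaryGroup_iff', Matrix.star_eq_conjTranspose]
    have h1 : ∀ x y, star y ⬝ᵥ (((LinearMap.toMatrix' T)ᴴ * LinearMap.toMatrix' T) *ᵥ x) =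
        star y ⬝ᵥ x := by
      intro x y
      have h2 := hT x y
      rw [uForm_h_eq, ← LinearMap.toMatrix'_mulVec T x, ← LinearMap.toMatrix'_mulVec T y,
        star_mulVec, dotProduct_comm, ← dotProduct_mulVec, mulVec_mulVec, dotProduct_comm x] at h2
      exact h2
    ext i j
    have h2 := h1 (Pi.single j 1) (Pi.single i 1)
    have h3 : star (Pi.single i 1 : ι → K) = Pi.single i 1 := by
      ext k
      rw [Pi.star_apply]
      by_cases hk : k = i
      · subst hk
        simp
      · simp [hk]
    rw [h3, mulVec_single_one, single_one_dotProduct, single_one_dotProduct, Pi.single_apply] at h2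
    rw [Matrix.one_apply]
    exact h2
  refine ⟨⟨LinearMap.toMatrix' T, Matrix.mem_specialUnitaryGroup_iff.2 ⟨hU, ?_⟩⟩, ?_⟩
  · rw [LinearMap.det_toMatrix', hdet]
  · refine LinearMap.ext fun x => ?_
    change Matrix.toLin' (LinearMap.toMatrix' T) x = T x
    rw [Matrix.toLin'_toMatrix']

lemma uRep_tor (hs : ∃ a : K, star a ≠ a) (p : ℕ) [hp : Fact p.Prime] [CharP K p] :
    (uRep (Fin 3) K hs p).Tor := by
  intro u w n F a ha
  set B := uForm (Fin 3) K hs with hB
  have hτa : B.τ a ≠ 0 := (map_ne_zero_iff _ B.τ.injective).2 ha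
  have hη := F.hn
  -- the basis
  have hli : LinearIndependent K ![u, w, n] := by
    rw [Fintype.linearIndependent_iff]
    intro g hg
    rw [Fin.sum_univ_three] at hg
    have hg' : g 0 • u + g 1 • w + g 2 • n = 0 := hg
    have e1 := congrArg (fun y => B.h y u) hg'
    have e2 := congrArg (fun y => B.h y w) hg'
    have e3 := congrArg (fun y => B.h y n) hg'
    simp only [B.add_left, B.smul_left, B.zero_left, F.hu.2, F.hw.2, F.uw, F.wu, F.nu, F.un, F.nw,
      F.wn, mul_zero, mul_one, add_zero, zero_add] at e1 e2 e3
    have f1 : g 1 = 0 := by linear_combination -e1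
    have f0 : g 0 = 0 := by linear_combination e2
    have f2 : g 2 = 0 := (mul_eq_zero.1 e3).resolve_right hη
    intro i
    fin_cases i
    · exact f0
    · exact f1
    · exact f2
  let b := basisOfLinearIndependentOfCardEqFinrank hli (by
    rw [Module.finrank_fintype_fun_eq_card])
  have hb : ∀ i, b i = ![u, w, n] i := fun i => by
    rw [coe_basisOfLinearIndependentOfCardEqFinrank]
  let dg : Fin 3 → K := ![a, (B.τ a)⁻¹, B.τ a / a]
  let T : Module.End K (Fin 3 → K) := Matrix.toLin b b (Matrix.diagonal dg)
  have hTb : ∀ i, T (b i) = dg i • b i := by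
    intro i
    rw [Matrix.toLin_self, Finset.sum_eq_single i]
    · rw [Matrix.diagonal_apply_eq]
    · intro j _ hj
      rw [Matrix.diagonal_apply_ne _ hj, zero_smul]
    · intro h
      exact absurd (Finset.mem_univ _) h
  have hTu : T u = a • u := by
    have h := hTb 0
    rw [hb] at h
    exact h
  have hTw : T w = (B.τ a)⁻¹ • w := by
    have h := hTb 1
    rw [hb] at h
    exact h
  have hTn : T n = (B.τ a / a) • n := by
    have h := hTb 2
    rw [hb] at h
    exact h
  have hdet : LinearMap.det T = 1 := by
    rw [LinearMap.det_toLin, Matrix.det_diagonal, Fin.prod_univ_three]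
    change a * (B.τ a)⁻¹ * (B.τ a / a) = 1
    field_simp
  obtain ⟨g, hg⟩ := uRep_ex_det hs p T (by
    intro x y
    obtain ⟨x1, x2, x3, rfl⟩ := F.span x
    obtain ⟨y1, y2, y3, rfl⟩ := F.span y
    change B.h _ _ = B.h _ _
    simp only [map_add, map_smul, hTu, hTw, hTn]
    simp only [B.add_left, B.add_right, B.smul_left, B.smul_right, F.hu.2, F.hw.2, F.uw, F.wu,
          F.nu, F.un, F.nw, F.wn, mul_zero, mul_one, add_zero, zero_add, map_inv₀, map_div₀, B.tt]
    field_simp) hdet
  exact ⟨g, by rw [hg]; exact hTu, by rw [hg]; exact hTw, by rw [hg]; exact hTn⟩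

end

/-- The simple groups `PSU(3, K)` over finite fields with more than four elements are good at all
odd primes. -/
lemma su3_goodAt {S : Type} [Group S] (hS : IsSimpleGroup S) (hna : ∃ a b : S, a * b ≠ b * a)
    {r : ℕ} (hr : r.Prime) (hr2 : r ≠ 2) (K : Type) [Field K] [Finite K]
    [StarRing K] (hs : ∃ a : K, star a ≠ a) (hc : 4 < Nat.card K)
    (e : S ≃* (Matrix.specialUnitaryGroup (Fin 3) K ⧸
      Subgroup.center (Matrix.specialUnitaryGroup (Fin 3) K))) :
    GoodAt π r S := by
  obtain ⟨p, hp, hcp⟩ : ∃ p : ℕ, Fact p.Prime ∧ CharP K p := by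
    have hne : ringChar K ≠ 0 := by
      intro h0
      have : CharZero K := (CharP.ringChar_zero_iff_CharZero K).1 h0
      exact not_finite K
    have : NeZero (ringChar K) := ⟨hne⟩
    exact ⟨ringChar K, CharP.char_is_prime_of_pos K (ringChar K), inferInstance⟩
  have hinj := conj_injective_congr e (conj_injective_of_simple hS hna)
  have hfin : Finite (Matrix.specialUnitaryGroup (Fin 3) K) :=
    Finite.of_injective (fun g => g.1) Subtype.val_injective
  have hS' : IsSimpleGroup (Pr (Matrix.specialUnitaryGroup (Fin 3) K)) :=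
    (MulEquiv.isSimpleGroup_congr e).1 hS
  exact (form3_goodAt (uRep (Fin 3) K hs p) (uForm_dim3 hs) (uRep_tor hs p) (exists_cube hs hc) hS'
    hinj hr hr2).congr e

end Pool.Agent.BSpi.Cls
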