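import Pool.Agent.BSpi.Cls.Grp

set_option autoImplicit false
set_option linter.unusedSimpArgs false
set_option linter.unusedVariables false
set_option linter.unusedSectionVars false

open Matrix Matrix.SpecialLinearGroup
open scoped MatrixGroups

namespace Pool.Agent.BSpi.Cls

open Pool.Agent.BSpi.PSL

/-- The quotient by the centre. -/
abbrev Pr (G : Type) [Group G] : Type := G ⧸ Subgroup.center G

/-- The projection. -/
def pj {G : Type} [Group G] : G →* Pr G := QuotientGroup.mk' _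

lemma mk_surjective {G : Type} [Group G] : Function.Surjective (pj : G →* Pr G) :=
  QuotientGroup.mk'_surjective _

lemma mk_eq_one {G : Type} [Group G] {g : G} : pj g = 1 ↔ g ∈ Subgroup.center G :=
  QuotientGroup.eq_one_iff g

/-- Root groups of `SL(2, F)` do not generate a `p`-group. -/
lemma IsSL2.opp {S F : Type} [Group S] [Field F] {p : ℕ} [hp : Fact p.Prime] [CharP F p]
    {A B : Subgroup S} (h : IsSL2 F A B) : Opp p A B := by
  obtain ⟨φ, hφ, hA, hB, -⟩ := h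
  intro hP
  have h1 : φ (u 1 * v (-1)) ∈ A ⊔ B := by
    rw [map_mul]
    exact mul_mem (Subgroup.mem_sup_left ((hA _).2 ⟨_, rfl⟩))
      (Subgroup.mem_sup_right ((hB _).2 ⟨_, rfl⟩))
  obtain ⟨k, hk⟩ := hP ⟨_, h1⟩
  have h2 : φ (u 1 * v (-1)) ^ p ^ k = 1 := congrArg Subtype.val hk
  have h3 : (u 1 * v (-1) : SL(2, F)) ^ p ^ k = 1 := by
    apply hφ
    rw [map_pow, h2, map_one]
  have h4 : (u 1 * v (-1) : SL(2, F)) ^ 3 = -1 := by
    rw [pow_succ, pow_two]
    apply sl_ext <;> simp [mul00, mul01, mul10, mul11]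
  have h5 : (-1 : SL(2, F)) ^ p ^ k = 1 := by
    rw [← h4, ← pow_mul, mul_comm, pow_mul, h3, one_pow]
  by_cases hp2 : p = 2
  · subst hp2
    have h6 : (u 1 * v (-1) : SL(2, F)) ^ 3 = 1 := by
      rw [h4]
      have h7 : (2 : F) = 0 := by
        have := CharP.cast_eq_zero F 2
        exact_mod_cast this
      have h8 : (-1 : F) = 1 := by linear_combination -h7
      apply sl_ext
      · rw [neg00, one00, h8]
      · rw [neg01, one01, neg_zero]
      · rw [neg10, one10, neg_zero]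
      · rw [neg11, one11, h8]
    have h7 : orderOf (u 1 * v (-1) : SL(2, F)) ∣ Nat.gcd (2 ^ k) 3 :=
      Nat.dvd_gcd (orderOf_dvd_of_pow_eq_one h3) (orderOf_dvd_of_pow_eq_one h6)
    have h8 : Nat.gcd (2 ^ k) 3 = 1 := by
      apply Nat.Coprime.pow_left
      norm_num
    rw [h8, Nat.dvd_one, orderOf_eq_one_iff] at h7
    have h9 : (u 1 * v (-1) : SL(2, F)) 0 1 = (1 : SL(2, F)) 0 1 := by rw [h7]
    simp at h9
  · have hodd : Odd (p ^ k) := (hp.out.odd_of_ne_two hp2).pow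
    rw [hodd.neg_one_pow] at h5
    have h6 : (-1 : SL(2, F)) 0 0 = (1 : SL(2, F)) 0 0 := by rw [h5]
    rw [neg00, one00] at h6
    have h7 : ((2 : ℕ) : F) = 0 := by
      push_cast
      linear_combination -h6
    rw [CharP.cast_eq_zero_iff F p] at h7
    exact hp2 ((Nat.prime_dvd_prime_iff_eq hp.out Nat.prime_two).1 h7)

variable {K V : Type} [Field K] [AddCommGroup V] [Module K V]
variable {B : SForm K V} {p : ℕ} [hp : Fact p.Prime] [CharP K p] {G : Type} [Group G]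

lemma charP_F (B : SForm K V) (p : ℕ) [CharP K p] : CharP B.F p :=
  RingHom.charP B.F.subtype Subtype.val_injective p

namespace Rep

variable (D : Rep B p G)

include D in
lemma mk_p_inj (hB : ∃ u, B.Iso u) {s s' : G} {k : ℕ} (hs : s ^ p ^ k = 1) (hs' : s' ^ p ^ k = 1)
    (h : pj s = pj s') : s = s' := by
  have h1 : s⁻¹ * s' ∈ Subgroup.center G := QuotientGroup.eq.1 h
  have h2 : s' = s * (s⁻¹ * s') := by group
  have h3 : (s⁻¹ * s') ^ p ^ k = 1 := by
    have h4 : Commute s (s⁻¹ * s') := (Subgroup.mem_center_iff.1 h1) s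
    have h5 := h4.mul_pow (p ^ k)
    rw [← h2, hs, hs', one_mul] at h5
    exact h5.symm
  have h4 := D.center_p hB h1 h3
  exact inv_mul_eq_one.1 h4

include D in
lemma comm_lift (hB : ∃ u, B.Iso u) {g s : G} {k : ℕ} (hs : s ^ p ^ k = 1)
    (h : pj g * pj s = pj s * pj g) : g * s * g⁻¹ = s := by
  refine D.mk_p_inj hB (k := k) ?_ hs ?_
  · rw [conj_pow, hs, mul_one, mul_inv_cancel]
  · rw [map_mul, map_mul, map_inv, h, mul_inv_cancel_right]

/-- The root group attached to an isotropic vector. -/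
noncomputable def A (u : V) : Subgroup (Pr G) :=
  Subgroup.closure {x | ∃ a : K, B.τ a = a ∧ x = pj (D.tv u a)}

lemma mem_A {u : V} (hu : B.h u u = 0) {x : Pr G} :
    x ∈ D.A u ↔ ∃ a : K, B.τ a = a ∧ x = pj (D.tv u a) := by
  constructor
  · intro hx
    induction hx using Subgroup.closure_induction with
    | mem x hx => exact hx
    | one => exact ⟨0, map_zero _, by rw [D.tv_zero hu, map_one]⟩
    | mul x y _ _ ihx ihy =>
      obtain ⟨a, ha, rfl⟩ := ihx
      obtain ⟨b, hb, rfl⟩ := ihy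
      exact ⟨a + b, by rw [map_add, ha, hb], by rw [D.tv_add hu ha hb, map_mul]⟩
    | inv x _ ih =>
      obtain ⟨a, ha, rfl⟩ := ih
      refine ⟨-a, by rw [map_neg, ha], ?_⟩
      rw [← map_inv]
      congr 1
      rw [inv_eq_iff_mul_eq_one, ← D.tv_add hu ha (by rw [map_neg, ha]), add_neg_cancel,
        D.tv_zero hu]
  · intro hx
    exact Subgroup.subset_closure hx

lemma A_smul {u : V} (hu : B.h u u = 0) {c : K} (hc : c ≠ 0) : D.A (c • u) = D.A u := by
  have hcu : B.h (c • u) (c • u) = 0 := by rw [B.smul_left, B.smul_right, hu, mul_zero, mul_zero]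
  have hc' : B.τ c ≠ 0 := (map_ne_zero_iff _ B.τ.injective).2 hc
  ext x
  rw [D.mem_A hcu, D.mem_A hu]
  constructor
  · rintro ⟨a, ha, rfl⟩
    exact ⟨c * B.τ c * a, by rw [map_mul, map_mul, B.tt, ha]; ring, by rw [D.tv_smul hu ha]⟩
  · rintro ⟨a, ha, rfl⟩
    have h1 : B.τ ((c * B.τ c)⁻¹ * a) = (c * B.τ c)⁻¹ * a := by
      rw [map_mul, map_inv₀, map_mul, B.tt, ha, mul_comm (B.τ c)]
    refine ⟨(c * B.τ c)⁻¹ * a, h1, ?_⟩
    rw [D.tv_smul hu h1, mul_inv_cancel_left₀ (mul_ne_zero hc hc')]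

lemma A_conj {u : V} (hu : B.h u u = 0) (g : G) :
    im (MulAut.conj (pj g)) (D.A u) = D.A (D.ρ g u) := by
  have hgu : B.h (D.ρ g u) (D.ρ g u) = 0 := by rw [D.iso, hu]
  ext x
  constructor
  · rintro ⟨y, hy, rfl⟩
    obtain ⟨a, ha, rfl⟩ := (D.mem_A hu).1 hy
    refine (D.mem_A hgu).2 ⟨a, ha, ?_⟩
    rw [← D.tv_conj hu ha]
    rfl
  · intro hx
    obtain ⟨a, ha, rfl⟩ := (D.mem_A hgu).1 hx
    refine ⟨pj (D.tv u a), (D.mem_A hu).2 ⟨a, ha, rfl⟩, ?_⟩
    rw [← D.tv_conj hu ha]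
    rfl

lemma tv_p1 {u : V} (hu : B.h u u = 0) {a : K} (ha : B.τ a = a) : D.tv u a ^ p ^ 1 = 1 := by
  rw [pow_one, D.tv_pow_p hu ha]

lemma A_inj {u w : V} (hu : B.Iso u) (hw : B.Iso w) (h : D.A u = D.A w) : ∃ c : K, u = c • w := by
  have h1 : pj (D.tv u 1) ∈ D.A w := by
    rw [← h]
    exact (D.mem_A hu.2).2 ⟨1, map_one _, rfl⟩
  obtain ⟨b, hb, h2⟩ := (D.mem_A hw.2).1 h1
  have h3 := D.mk_p_inj ⟨u, hu⟩ (D.tv_p1 hu.2 (map_one _)) (D.tv_p1 hw.2 hb) h2
  exact D.tv_inj hu hw.2 (map_one _) hb one_ne_zero h3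

lemma A_pgroup {u : V} (hu : B.h u u = 0) : IsPGroup p (D.A u) := by
  rintro ⟨x, hx⟩
  obtain ⟨a, ha, rfl⟩ := (D.mem_A hu).1 hx
  refine ⟨1, Subtype.ext ?_⟩
  change pj (D.tv u a) ^ p ^ 1 = 1
  rw [← map_pow, D.tv_p1 hu ha, map_one]

lemma smul_ne {g : G} {u : V} (hu : B.Iso u) {c : K} (h : D.ρ g u = c • u) : c ≠ 0 := by
  rintro rfl
  rw [zero_smul] at h
  exact D.ne_zero g hu.1 h

lemma Nm_iff {u : V} (hu : B.Iso u) {g : G} : Nm (D.A u) (pj g) ↔ ∃ c : K, D.ρ g u = c • u := by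
  rw [Nm, D.A_conj hu.2]
  constructor
  · intro h
    exact D.A_inj (D.isoVec g hu) hu h
  · rintro ⟨c, hc⟩
    rw [hc, D.A_smul hu.2 (D.smul_ne hu hc)]

lemma not_opp {u w : V} (hu : B.Iso u) (hw : B.Iso w) (h : B.h u w = 0) :
    ¬ Opp p (D.A u) (D.A w) := by
  rw [Opp, not_not]
  refine IsPGroup.to_sup_of_normal_right' (D.A_pgroup hu.2) (D.A_pgroup hw.2)
    (le_normalizer fun s hs => ?_)
  obtain ⟨a, ha, rfl⟩ := (D.mem_A hu.2).1 hs
  rw [D.Nm_iff hw]
  refine ⟨1, ?_⟩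
  rw [D.tv_apply hu.2 ha, B.zero_symm h, mul_zero, zero_smul, add_zero, one_smul]

end Rep

/-- The action of `SL(2, F)` on a hyperbolic plane. -/
def L2 (B : SForm K V) (u w : V) (M : SL(2, B.F)) : Module.End K V where
  toFun x := x + ((((M 0 0 : B.F) : K) - 1) * (-B.h x w) + ((M 0 1 : B.F) : K) * B.h x u) • u +
    (((M 1 0 : B.F) : K) * (-B.h x w) + (((M 1 1 : B.F) : K) - 1) * B.h x u) • w
  map_add' x y := by
    rw [B.add_left, B.add_left]
    module
  map_smul' c x := by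
    rw [B.smul_left, B.smul_left, RingHom.id_apply]
    module

lemma L2_apply (B : SForm K V) (u w : V) (M : SL(2, B.F)) (x : V) : L2 B u w M x =
    x + ((((M 0 0 : B.F) : K) - 1) * (-B.h x w) + ((M 0 1 : B.F) : K) * B.h x u) • u +
    (((M 1 0 : B.F) : K) * (-B.h x w) + (((M 1 1 : B.F) : K) - 1) * B.h x u) • w := rfl

lemma L2_mul {u w : V} (hu : B.h u u = 0) (hw : B.h w w = 0) (huw : B.h u w = -1)
    (M N : SL(2, B.F)) : L2 B u w (M * N) = L2 B u w M * L2 B u w N := by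
  have hwu : B.h w u = 1 := by rw [B.skew u w, huw, map_neg, map_one, neg_neg]
  ext x
  change L2 B u w (M * N) x = L2 B u w M (L2 B u w N x)
  rw [L2_apply B u w (M * N), L2_apply B u w M, L2_apply B u w N]
  simp only [B.add_left, B.smul_left, hu, hw, huw, hwu, mul00, mul01, mul10, mul11,
    Subfield.coe_add, Subfield.coe_mul]
  module

lemma L2_one (u w : V) : L2 B u w 1 = 1 := by
  ext x
  rw [L2_apply]
  simp

lemma L2_u {u w : V} (a : B.F) : L2 B u w (PSL.u a) = tvL B u a := by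
  ext x
  rw [L2_apply, tvL_apply]
  simp

lemma L2_v {u w : V} (a : B.F) : L2 B u w (PSL.v a) = tvL B w (-a) := by
  ext x
  rw [L2_apply, tvL_apply]
  simp

lemma L2_inj {u w : V} (hu : B.Iso u) (hw : B.Iso w) (huw : B.h u w = -1) {M : SL(2, B.F)}
    (h : L2 B u w M = 1) : M = 1 := by
  have hwu : B.h w u = 1 := by rw [B.skew u w, huw, map_neg, map_one, neg_neg]
  have h1 : L2 B u w M u = u := by rw [h]; rfl
  have h2 : L2 B u w M w = w := by rw [h]; rfl
  rw [L2_apply, hu.2, huw] at h1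
  rw [L2_apply, hw.2, hwu] at h2
  have e1 := congrArg (fun x => B.h x w) h1
  have e2 := congrArg (fun x => B.h x u) h1
  have e3 := congrArg (fun x => B.h x w) h2
  have e4 := congrArg (fun x => B.h x u) h2
  simp only [B.add_left, B.smul_left, hu.2, hw.2, huw, hwu] at e1 e2 e3 e4
  apply sl_ext
  · rw [one00]
    apply Subtype.ext
    rw [Subfield.coe_one]
    linear_combination -e1
  · rw [one01]
    apply Subtype.ext
    rw [Subfield.coe_zero]
    linear_combination -e3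
  · rw [one10]
    apply Subtype.ext
    rw [Subfield.coe_zero]
    linear_combination e2
  · rw [one11]
    apply Subtype.ext
    rw [Subfield.coe_one]
    linear_combination e4

namespace Rep

variable (D : Rep B p G)

lemma ex_L2 {u w : V} (hu : B.h u u = 0) (hw : B.h w w = 0) (huw : B.h u w = -1)
    (M : SL(2, B.F)) : ∃ g, D.ρ g = L2 B u w M := by
  refine gen (fun M => ∃ g, D.ρ g = L2 B u w M) ?_ ?_ ?_ M
  · intro a
    rw [L2_u]
    exact D.ex_tv hu a.2
  · intro a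
    rw [L2_v]
    exact D.ex_tv hw (by rw [map_neg]; exact congrArg _ a.2)
  · rintro M N ⟨g, hg⟩ ⟨g', hg'⟩
    exact ⟨g * g', by rw [map_mul, hg, hg', L2_mul hu hw huw]⟩

/-- The subgroup `SL(2, F)` attached to a hyperbolic pair. -/
noncomputable def phi {u w : V} (hu : B.h u u = 0) (hw : B.h w w = 0) (huw : B.h u w = -1) :
    SL(2, B.F) →* G where
  toFun M := (D.ex_L2 hu hw huw M).choose
  map_one' := D.inj (by rw [(D.ex_L2 hu hw huw 1).choose_spec, L2_one, map_one])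
  map_mul' M N := D.inj (by
    rw [map_mul, (D.ex_L2 hu hw huw _).choose_spec, (D.ex_L2 hu hw huw _).choose_spec,
      (D.ex_L2 hu hw huw _).choose_spec, L2_mul hu hw huw])

lemma phi_rho {u w : V} (hu : B.h u u = 0) (hw : B.h w w = 0) (huw : B.h u w = -1)
    (M : SL(2, B.F)) : D.ρ (D.phi hu hw huw M) = L2 B u w M :=
  (D.ex_L2 hu hw huw M).choose_spec

lemma phi_u {u w : V} (hu : B.h u u = 0) (hw : B.h w w = 0) (huw : B.h u w = -1)
    (a : B.F) : D.phi hu hw huw (PSL.u a) = D.tv u a := by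
  apply D.ext
  intro x
  rw [D.phi_rho, L2_u, D.tv_apply hu a.2]
  rfl

lemma phi_v {u w : V} (hu : B.h u u = 0) (hw : B.h w w = 0) (huw : B.h u w = -1)
    (a : B.F) : D.phi hu hw huw (PSL.v a) = D.tv w (-a) := by
  apply D.ext
  intro x
  rw [D.phi_rho, L2_v, D.tv_apply hw (by rw [map_neg]; exact congrArg _ a.2)]
  rfl

/-- Opposite root groups generate `SL(2, F)`. -/
lemma isSL2 (hB : B.Rk1) {u w : V} (hu : B.Iso u) (hw : B.Iso w) (huw : B.h u w ≠ 0) :
    IsSL2 B.F (D.A u) (D.A w) := by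
  -- scaling
  obtain ⟨w', hw', huw', hA⟩ : ∃ w', B.Iso w' ∧ B.h u w' = -1 ∧ D.A w = D.A w' := by
    have h1 : B.τ (-(B.h u w)⁻¹) ≠ 0 := (map_ne_zero_iff _ B.τ.injective).2
      (neg_ne_zero.2 (inv_ne_zero huw))
    refine ⟨B.τ (-(B.h u w)⁻¹) • w, hw.smul h1, ?_, (D.A_smul hw.2 h1).symm⟩
    rw [B.smul_right, B.tt, neg_mul, inv_mul_cancel₀ huw]
  rw [hA]
  refine ⟨pj.comp (D.phi hu.2 hw'.2 huw'), ?_, ?_, ?_, ?_⟩
  · rw [injective_iff_map_eq_one]
    intro M hM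
    have h1 : D.phi hu.2 hw'.2 huw' M ∈ Subgroup.center G := mk_eq_one.1 hM
    obtain ⟨l, hl⟩ := D.center_scalar hB.1 h1
    obtain ⟨z, hz, hzu, hzw⟩ := hB.2 u w' hu hw' (by
      rw [huw']
      exact neg_ne_zero.2 one_ne_zero)
    have h2 := hl z
    rw [D.phi_rho, L2_apply, hzu, hzw] at h2
    simp only [neg_zero, mul_zero, add_zero, zero_smul] at h2
    have h3 : l = 1 := by
      have h4 : (l - 1) • z = 0 := by rw [sub_smul, one_smul, ← h2, sub_self]
      exact sub_eq_zero.1 ((smul_eq_zero.1 h4).resolve_right hz)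
    apply L2_inj hu hw' huw'
    ext x
    rw [← D.phi_rho hu.2 hw'.2 huw', hl, h3, one_smul]
    rfl
  · intro x
    rw [D.mem_A hu.2]
    constructor
    · rintro ⟨a, ha, rfl⟩
      exact ⟨⟨a, ha⟩, by rw [MonoidHom.comp_apply, D.phi_u]⟩
    · rintro ⟨a, rfl⟩
      exact ⟨a, a.2, by rw [MonoidHom.comp_apply, D.phi_u]⟩
  · intro x
    rw [D.mem_A hw'.2]
    constructor
    · rintro ⟨a, ha, rfl⟩
      refine ⟨⟨-a, by change B.τ (-a) = -a; rw [map_neg, ha]⟩, ?_⟩
      rw [MonoidHom.comp_apply, D.phi_v]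
      simp
    · rintro ⟨a, rfl⟩
      exact ⟨-a, by rw [map_neg]; exact congrArg _ a.2, by rw [MonoidHom.comp_apply, D.phi_v]⟩
  · intro s hs
    obtain ⟨g, rfl⟩ := mk_surjective s
    have h1 : Nm (D.A u) (pj g) := by
      have h2 : ∀ x ∈ D.A u, pj g * x * (pj g)⁻¹ ∈ D.A u := by
        intro x hx
        obtain ⟨a, ha, rfl⟩ := (D.mem_A hu.2).1 hx
        obtain ⟨b, hb⟩ := hs ⟨a, ha⟩
        rw [MonoidHom.comp_apply, D.phi_u, MonoidHom.comp_apply, D.phi_u] at hb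
        exact (D.mem_A hu.2).2 ⟨b, b.2, hb⟩
      have h3 := h2 _ ((D.mem_A hu.2).2 ⟨1, map_one _, rfl⟩)
      rw [← map_inv, ← map_mul, ← map_mul, D.tv_conj hu.2 (map_one _)] at h3
      obtain ⟨b, hb, h4⟩ := (D.mem_A hu.2).1 h3
      have hgu := D.isoVec g hu
      have h5 := D.mk_p_inj hB.1 (D.tv_p1 hgu.2 (map_one _)) (D.tv_p1 hu.2 hb) h4
      exact (D.Nm_iff hu).2 (D.tv_inj hgu hu.2 (map_one _) hb one_ne_zero h5)
    obtain ⟨c, hc⟩ := (D.Nm_iff hu).1 h1
    refine ⟨⟨c * B.τ c, by change B.τ (c * B.τ c) = _; rw [map_mul, B.tt]; ring⟩, fun a => ?_⟩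
    rw [MonoidHom.comp_apply, D.phi_u, MonoidHom.comp_apply, D.phi_u, ← map_inv, ← map_mul,
      ← map_mul, D.tv_conj hu.2 a.2, hc, D.tv_smul hu.2 a.2]
    rfl

lemma opp_iff (hB : B.Rk1) {u w : V} (hu : B.Iso u) (hw : B.Iso w) :
    Opp p (D.A u) (D.A w) ↔ B.h u w ≠ 0 := by
  constructor
  · intro h h0
    exact D.not_opp hu hw h0 h
  · intro h
    have := charP_F B p
    exact (D.isSL2 hB hu hw h).opp

end Rep

end Pool.Agent.BSpi.Cls
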