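import Pool.Agent.BSpi.Cls.Syl

set_option autoImplicit false
set_option linter.unusedSimpArgs false
set_option linter.unusedVariables false
set_option linter.unusedSectionVars false

open Matrix Matrix.SpecialLinearGroup
open scoped MatrixGroups

namespace Pool.Agent.BSpi.Cls

open Pool.Agent.BSpi.PSL

/-- The product with any conjugate does not have order four. -/
def OT {S : Type} [Group S] (x : S) : Prop :=
  ∀ s : S, (x * (s * x * s⁻¹)) ^ 4 = 1 → (x * (s * x * s⁻¹)) ^ 2 = 1

lemma OT.map {S : Type} [Group S] {x : S} (h : OT x) (f : MulAut S) : OT (f x) := by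
  intro s hs
  have h1 : f x * (s * f x * s⁻¹) = f (x * (f⁻¹ s * x * (f⁻¹ s)⁻¹)) := by
    rw [map_mul, map_mul, map_mul, map_inv, MulAut.apply_inv_self]
  rw [h1, ← map_pow] at hs ⊢
  rw [h _ ((MulEquiv.map_eq_one_iff f).1 hs), map_one]

variable {K V : Type} [Field K] [AddCommGroup V] [Module K V]
variable {B : SForm K V} [CharP K 2] {G : Type} [Group G]

/-- Alternating forms. -/
def SForm.Alt (B : SForm K V) : Prop := (∀ a, B.τ a = a) ∧ ∀ x, B.h x x = 0

lemma two_eq (K : Type) [Field K] [CharP K 2] : (2 : K) = 0 := by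
  have := CharP.cast_eq_zero K 2
  exact_mod_cast this

lemma neg_eq' {K : Type} [Field K] [CharP K 2] (a : K) : -a = a := by
  linear_combination (-a) * two_eq K

lemma SForm.Alt.symm (hA : B.Alt) (x y : V) : B.h y x = B.h x y := by
  rw [B.skew, hA.1, neg_eq']

lemma SForm.Alt.iso (hA : B.Alt) {x : V} (hx : x ≠ 0) : B.Iso x := ⟨hx, hA.2 x⟩

lemma unip4 {T : Module.End K V} (hT : (T - 1) ^ 4 = 0) : T ^ 4 = 1 := by
  rcases subsingleton_or_nontrivial V with hs | hn
  · exact Subsingleton.elim _ _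
  · have : CharP (Module.End K V) 2 :=
      charP_of_injective_algebraMap (algebraMap K (Module.End K V)).injective 2
    have := Fact.mk Nat.prime_two
    have h1 : T = (T - 1) + 1 := by rw [sub_add_cancel]
    have h2 := add_pow_char_pow_of_commute 2 2 (Commute.one_right (T - 1))
    have h3 : 2 ^ 2 = 4 := by norm_num
    rw [h3, ← h1, one_pow, hT, zero_add] at h2
    exact h2

namespace Rep

variable (D : Rep B 2 G)

instance fact2 : Fact (Nat.Prime 2) := ⟨Nat.prime_two⟩

lemma ex_sg (hA : B.Alt) {u v : V} (huv : B.h v u = 0) (c : K) : ∃ g, D.ρ g = sgL B u v c := by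
  refine D.ex _ (sgL_iso B (hA.2 u) huv (by rw [hA.1, sub_self, hA.2])) (unip_pow 2 ?_)
  have hvu := B.zero_symm huv
  ext x
  have e1 : ∀ y, (sgL B u v c - 1) y = B.h y u • v + B.h y v • u + (c * B.h y u) • u := by
    intro y
    change sgL B u v c y - y = _
    rw [sgL_apply]
    abel
  change (sgL B u v c - 1) ((sgL B u v c - 1) ((sgL B u v c - 1) x)) = 0
  rw [e1 x, e1, e1]
  simp only [B.add_left, B.smul_left, hA.2, huv, hvu, mul_zero, add_zero, zero_smul, zero_add,
    zero_mul, B.zero_left]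

open Classical in
/-- Siegel transformations. -/
noncomputable def sg (u v : V) (c : K) : G :=
  if h : B.Alt ∧ B.h v u = 0 then (D.ex_sg h.1 h.2 c).choose else 1

lemma sg_apply (hA : B.Alt) {u v : V} (huv : B.h v u = 0) (c : K) (x : V) :
    D.ρ (D.sg u v c) x = x + B.h x u • v + B.h x v • u + (c * B.h x u) • u := by
  rw [sg, dif_pos ⟨hA, huv⟩, (D.ex_sg hA huv c).choose_spec]
  rfl

lemma sg_conj (hA : B.Alt) {u v : V} (huv : B.h v u = 0) (c : K) (g : G) :
    g * D.sg u v c * g⁻¹ = D.sg (D.ρ g u) (D.ρ g v) c := by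
  apply D.ext
  intro x
  rw [D.mul_apply, D.mul_apply, D.sg_apply hA huv, D.sg_apply hA (by rw [D.iso, huv])]
  simp only [map_add, map_smul, D.self_inv_apply, D.iso_inv]

lemma tv_apply' (hA : B.Alt) (u : V) (a : K) (x : V) :
    D.ρ (D.tv u a) x = x + (a * B.h x u) • u := D.tv_apply (hA.2 u) (hA.1 a) x

include D in
/-- The centre is trivial. -/
lemma center_trivial (hA : B.Alt) (hB : ∃ u, B.Iso u) {z : G} (hz : z ∈ Subgroup.center G) :
    z = 1 := by
  obtain ⟨l, hl⟩ := D.center_scalar hB hz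
  obtain ⟨u, hu⟩ := hB
  obtain ⟨w, hw, huw⟩ := SForm.partner hu
  have h1 := D.iso z u w
  rw [hl, hl, B.smul_left, B.smul_right, huw, hA.1] at h1
  have h2 : (l - 1) * (l - 1) = 0 := by
    have := two_eq K
    linear_combination h1 + (1 - l) * this
  have h3 : l = 1 := sub_eq_zero.1 (mul_self_eq_zero.1 h2)
  apply D.ext
  intro x
  rw [hl, h3, one_smul, D.one_apply]

include D in
lemma pj_inj (hA : B.Alt) (hB : ∃ u, B.Iso u) {g g' : G} (h : pj g = pj g') : g = g' := by
  have h1 : g⁻¹ * g' ∈ Subgroup.center G := QuotientGroup.eq.1 h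
  exact inv_mul_eq_one.1 (D.center_trivial hA hB h1)

/-- Transvections have the property `OT`. -/
lemma tv_OT (hA : B.Alt) (hB : B.Rk) {u : V} (hu : u ≠ 0) (a : K) : OT (pj (D.tv u a)) := by
  intro s
  obtain ⟨g, rfl⟩ := mk_surjective s
  rw [← map_inv, ← map_mul, ← map_mul, ← map_mul, ← map_pow, ← map_pow,
    D.tv_conj (hA.2 u) (hA.1 a)]
  intro h4
  have h4' : (D.tv u a * D.tv (D.ρ g u) a) ^ 4 = 1 :=
    D.pj_inj hA hB.1 (by rw [h4, map_one])
  rw [← map_one pj]
  congr 1
  by_cases ha : a = 0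
  · subst ha
    rw [D.tv_zero (hA.2 _), D.tv_zero (hA.2 _), one_mul, one_pow]
  by_cases huw : B.h u (D.ρ g u) = 0
  · have h1 := D.tv_comm (hA.2 u) (hA.2 (D.ρ g u)) huw (hA.1 a) (hA.1 a)
    have h2 : Commute (D.tv u a) (D.tv (D.ρ g u) a) := h1
    rw [h2.mul_pow, D.tv_pow_p (hA.2 _) (hA.1 a), D.tv_pow_p (hA.2 _) (hA.1 a), one_mul]
  · exfalso
    have := charP_F B 2
    set w := D.ρ g u with hw
    have hwI : B.Iso w := hA.iso (D.ne_zero g hu)
    obtain ⟨φ, hφ, h1, h2, -⟩ := D.isSL2 hB.rk1 (hA.iso hu) hwI huw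
    obtain ⟨x, hx⟩ := (h1 _).1 ((D.mem_A (hA.2 u)).2 ⟨a, hA.1 a, rfl⟩)
    obtain ⟨y, hy⟩ := (h2 _).1 ((D.mem_A (hA.2 w)).2 ⟨a, hA.1 a, rfl⟩)
    rw [map_pow, map_mul, hx, hy, ← map_mul, ← map_pow] at h4
    have h5 : (PSL.u x * PSL.v y) ^ 4 = 1 := hφ (by rw [h4, map_one])
    have hne : ∀ z, z ≠ 0 → D.tv z a ≠ 1 := fun z hz => D.tv_ne_one (hA.iso hz) (hA.1 a) ha
    have hx0 : x ≠ 0 := by
      rintro rfl
      rw [u_zero, map_one] at hx
      exact hne u hu (D.pj_inj hA hB.1 (by rw [hx, map_one]))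
    have hy0 : y ≠ 0 := by
      rintro rfl
      rw [v_zero, map_one] at hy
      exact hne w hwI.1 (D.pj_inj hA hB.1 (by rw [hy, map_one]))
    have h6 : ((PSL.u x * PSL.v y) ^ 4) 0 1 = (1 : SL(2, B.F)) 0 1 := by rw [h5]
    have h7 : (PSL.u x * PSL.v y) ^ 4 = (PSL.u x * PSL.v y) * (PSL.u x * PSL.v y) *
        ((PSL.u x * PSL.v y) * (PSL.u x * PSL.v y)) := by
      simp only [pow_succ, pow_zero, one_mul, mul_assoc]
    rw [h7] at h6
    simp only [mul00, mul01, mul10, mul11, u00, u01, u10, u11, v00, v01, v10, v11, one01] at h6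
    have h8 : x * (x * y) * ((x * y) * (x * y)) = 0 := by
      have := two_eq B.F
      linear_combination h6 - (3 * x * (x * y) ^ 2 + 5 * x * (x * y) + 2 * x) * this
    have h9 : x * (x * y) * ((x * y) * (x * y)) ≠ 0 :=
      mul_ne_zero (mul_ne_zero hx0 (mul_ne_zero hx0 hy0))
        (mul_ne_zero (mul_ne_zero hx0 hy0) (mul_ne_zero hx0 hy0))
    exact h9 h8

/-- Partners of two orthogonal vectors. -/
lemma _root_.Pool.Agent.BSpi.Cls.SForm.Alt.two (hA : B.Alt) {u e : V} (hu : u ≠ 0)
    (hue : B.h u e = 0) (hne : ∀ c : K, e ≠ c • u) :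
    ∃ w f : V, B.h u w = 1 ∧ B.h e w = 0 ∧ B.h e f = 1 ∧ B.h u f = 0 ∧ B.h w f = 0 := by
  have he : e ≠ 0 := fun h => hne 0 (by rw [h, zero_smul])
  have hne' : ∀ c : K, u ≠ c • e := by
    intro c hc
    have hc0 : c ≠ 0 := by
      rintro rfl
      rw [zero_smul] at hc
      exact hu hc
    apply hne c⁻¹
    rw [hc, smul_smul, inv_mul_cancel₀ hc0, one_smul]
  obtain ⟨w0, hw1, hw2⟩ : ∃ w, B.h w e = 0 ∧ B.h w u ≠ 0 := by
    by_contra hcon
    push Not at hcon
    obtain ⟨c, hc⟩ := SForm.mem_of_perp he hcon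
    exact hne' c hc
  obtain ⟨f0, hf1, hf2⟩ : ∃ f, B.h f u = 0 ∧ B.h f e ≠ 0 := by
    by_contra hcon
    push Not at hcon
    obtain ⟨c, hc⟩ := SForm.mem_of_perp hu hcon
    exact hne c hc
  obtain ⟨w, e1, e2⟩ : ∃ w, B.h w u = 1 ∧ B.h w e = 0 :=
    ⟨(B.h w0 u)⁻¹ • w0, by rw [B.smul_left, inv_mul_cancel₀ hw2], by rw [B.smul_left, hw1, mul_zero]⟩
  obtain ⟨f1, e3, e4⟩ : ∃ f, B.h f e = 1 ∧ B.h f u = 0 :=
    ⟨(B.h f0 e)⁻¹ • f0, by rw [B.smul_left, inv_mul_cancel₀ hf2], by rw [B.smul_left, hf1, mul_zero]⟩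
  refine ⟨w, f1 + B.h w f1 • u, ?_, ?_, ?_, ?_, ?_⟩
  · rw [hA.symm, e1]
  · rw [hA.symm, e2]
  · rw [B.add_right, B.smul_right, B.zero_symm hue, hA.symm f1 e, e3, mul_zero, add_zero]
  · rw [B.add_right, B.smul_right, hA.2, hA.symm f1 u, e4, mul_zero, add_zero]
  · rw [B.add_right, B.smul_right, hA.1, e1, mul_one]
    have := two_eq K
    linear_combination B.h w f1 * this

/-- The cyclic isometry of a four dimensional space. -/
lemma ex_rot (hA : B.Alt) {u e w f : V} (hue : B.h u e = 0) (h1 : B.h u w = 1) (h2 : B.h e w = 0)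
    (h3 : B.h e f = 1) (h4 : B.h u f = 0) (h5 : B.h w f = 0) :
    ∃ g : G, D.ρ g u = f ∧ D.ρ g e = u := by
  let T : Module.End K V :=
    { toFun := fun x => x + B.h x w • (f + u) + B.h x u • (e + w) + B.h x f • (u + e) +
        B.h x e • (w + f)
      map_add' := fun x y => by
        simp only [B.add_left, add_smul]
        abel
      map_smul' := fun c x => by
        simp only [B.smul_left, RingHom.id_apply, smul_add, smul_smul] }
  have hT : ∀ x, T x = x + B.h x w • (f + u) + B.h x u • (e + w) + B.h x f • (u + e) +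
        B.h x e • (w + f) := fun x => rfl
  have h1' := hA.symm u w
  have h2' := hA.symm e w
  have h3' := hA.symm e f
  have h4' := hA.symm u f
  have h5' := hA.symm w f
  have h6' := hA.symm u e
  rw [h1] at h1'
  rw [h2] at h2'
  rw [h3] at h3'
  rw [h4] at h4'
  rw [h5] at h5'
  rw [hue] at h6'
  have h22 := two_eq K
  have hiso : ∀ x y, B.h (T x) (T y) = B.h x y := by
    intro x y
    rw [hT, hT]
    simp only [B.add_left, B.add_right, B.smul_left, B.smul_right, hA.2, hA.1, h1, h2, h3, h4, h5,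
      hue, h1', h2', h3', h4', h5', h6', hA.symm y u, hA.symm y e, hA.symm y w, hA.symm y f]
    linear_combination (2 * (B.h y w * B.h x u) + 2 * (B.h y u * B.h x w) +
      2 * (B.h y f * B.h x e) + 2 * (B.h y e * B.h x f) + B.h y w * B.h x f + B.h x w * B.h y f + B.h y u * B.h x e +
      B.h x u * B.h y e + B.h y f * B.h x u + B.h x f * B.h y u + B.h y e * B.h x w +
      B.h x e * B.h y w) * h22
  have hvv : ∀ v : V, v + v = 0 := fun v => by rw [← two_smul K v, h22, zero_smul]
  have hTu : T u = f := by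
    rw [hT, h1, hA.2, h4, hue]
    simp only [one_smul, zero_smul, add_zero]
    rw [add_comm f, ← add_assoc, hvv, zero_add]
  have hTf : T f = w := by
    rw [hT, h5', h4', hA.2, h3']
    simp only [one_smul, zero_smul, add_zero]
    rw [add_comm w, ← add_assoc, hvv, zero_add]
  have hTw : T w = e := by
    rw [hT, h1', hA.2, h5, h2']
    simp only [one_smul, zero_smul, add_zero]
    rw [add_comm e, ← add_assoc, hvv, zero_add]
  have hTe : T e = u := by
    rw [hT, h2, h6', h3, hA.2]
    simp only [one_smul, zero_smul, add_zero]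
    rw [add_comm u, ← add_assoc, hvv, zero_add]
  have hTT : ∀ x, T (T x) = x + ((B.h x w + B.h x u) • (u + w) + (B.h x f + B.h x e) • (e + f)) := by
    intro x
    have e1 : B.h (T x) w = B.h x f := by
      have := hiso x f
      rwa [hTf] at this
    have e2 : B.h (T x) u = B.h x e := by
      have := hiso x e
      rwa [hTe] at this
    have e3 : B.h (T x) f = B.h x u := by
      have := hiso x u
      rwa [hTu] at this
    have e4 : B.h (T x) e = B.h x w := by
      have := hiso x w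
      rwa [hTw] at this
    rw [hT (T x), e1, e2, e3, e4, hT x]
    have h7 := hvv (B.h x w • f + B.h x u • e + B.h x f • u + B.h x e • w)
    have h8 : x + B.h x w • (f + u) + B.h x u • (e + w) + B.h x f • (u + e) + B.h x e • (w + f) +
        B.h x f • (f + u) + B.h x e • (e + w) + B.h x u • (u + e) + B.h x w • (w + f) =
        x + ((B.h x w + B.h x u) • (u + w) + (B.h x f + B.h x e) • (e + f)) +
        ((B.h x w • f + B.h x u • e + B.h x f • u + B.h x e • w) +
        (B.h x w • f + B.h x u • e + B.h x f • u + B.h x e • w)) := by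
      module
    rw [h8, h7, add_zero]
  obtain ⟨g, hg⟩ := D.ex T hiso ⟨2, by
    ext x
    change T (T (T (T x))) = x
    have e1 : B.h (T (T x)) w = B.h x u := by
      have := hiso (T x) f
      rw [hTf] at this
      rw [this]
      have := hiso x u
      rwa [hTu] at this
    have e2 : B.h (T (T x)) u = B.h x w := by
      have := hiso (T x) e
      rw [hTe] at this
      rw [this]
      have := hiso x w
      rwa [hTw] at this
    have e3 : B.h (T (T x)) f = B.h x e := by
      have := hiso (T x) u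
      rw [hTu] at this
      rw [this]
      have := hiso x e
      rwa [hTe] at this
    have e4 : B.h (T (T x)) e = B.h x f := by
      have := hiso (T x) w
      rw [hTw] at this
      rw [this]
      have := hiso x f
      rwa [hTf] at this
    rw [hTT (T (T x)), e1, e2, e3, e4, hTT x, add_assoc, add_comm (B.h x u) (B.h x w),
      add_comm (B.h x e) (B.h x f), hvv, add_zero]⟩
  exact ⟨g, by rw [hg, hTu], by rw [hg, hTe]⟩

/-- Mixed elements do not have the property `OT`. -/
lemma not_OT (hA : B.Alt) (hB : ∃ u, B.Iso u) {u e : V} (hu : u ≠ 0) (hue : B.h u e = 0)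
    (hne : ∀ c : K, e ≠ c • u) {c : K} (hc : c ≠ 0) : ¬ OT (pj (D.sg u e c)) := by
  intro hOT
  obtain ⟨w, f, h1, h2, h3, h4, h5⟩ := hA.two hu hue hne
  obtain ⟨g, hgu, hge⟩ := D.ex_rot hA hue h1 h2 h3 h4 h5
  have hA0 := hA.symm
  have h1' := hA.symm u w
  have h2' := hA.symm e w
  have h3' := hA.symm e f
  have h4' := hA.symm u f
  have h5' := hA.symm w f
  have h6' := hA.symm u e
  rw [h1] at h1'
  rw [h2] at h2'
  rw [h3] at h3'
  rw [h4] at h4'
  rw [h5] at h5'
  rw [hue] at h6'
  have h22 := two_eq K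
  have hOTg := hOT (pj g)
  rw [← map_inv, ← map_mul, ← map_mul, ← map_mul, ← map_pow, ← map_pow, D.sg_conj hA h6', hgu, hge]
    at hOTg
  set T := D.sg u e c * D.sg f u c with hT
  have hTx : ∀ x, D.ρ T x = x + (B.h x u • (e + f + (1 + c) • u) +
      B.h x f • ((1 + c) • u + c • f) + B.h x e • u) := by
    intro x
    rw [hT, D.mul_apply, D.sg_apply hA h4, D.sg_apply hA h6']
    simp only [B.add_left, B.smul_left, hA.2, h3', h4', h4, hue]
    module
  set M := D.ρ T - 1 with hM
  have hMx : ∀ x, M x = B.h x u • (e + f + (1 + c) • u) +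
      B.h x f • ((1 + c) • u + c • f) + B.h x e • u := by
    intro x
    change D.ρ T x - x = _
    rw [hTx, add_sub_cancel_left]
  have hvv : ∀ v : V, v + v = 0 := fun v => by rw [← two_smul K v, h22, zero_smul]
  have hMu : M u = 0 := by
    rw [hMx, hA.2, h4, hue, zero_smul, zero_smul, zero_smul, add_zero, add_zero]
  have hMf : M f = u := by
    rw [hMx, h4', hA.2, h3', zero_smul, zero_smul, one_smul, zero_add, zero_add]
  have hMe : M e = (1 + c) • u + c • f := by
    rw [hMx, h6', h3, hA.2, zero_smul, one_smul, zero_smul, zero_add, add_zero]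
  have hpow : T ^ 4 = 1 := by
    apply D.inj
    rw [map_pow, map_one]
    refine unip4 ?_
    rw [← hM]
    ext x
    change M (M (M (M x))) = 0
    rw [hMx x]
    simp only [map_add, map_smul, hMu, hMe, hMf, smul_zero, add_zero, zero_add]
  have h7 := hOTg (by rw [hpow, map_one])
  have h8 : T ^ 2 = 1 := D.pj_inj hA hB (by rw [h7, map_one])
  have h9 : D.ρ (T ^ 2) e = e := by rw [h8, D.one_apply]
  have h10 : ∀ x, D.ρ T x = x + M x := by
    intro x
    change D.ρ T x = x + (D.ρ T x - x)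
    abel
  rw [pow_two, D.mul_apply, h10 e, h10, map_add, hMe, map_add, map_smul, map_smul, hMu, hMf] at h9
  have h11 : e + ((1 + c) • u + c • f) + ((1 + c) • u + c • f + ((1 + c) • (0 : V) + c • u)) =
      e + ((((1 + c) • u + c • f) + ((1 + c) • u + c • f)) + c • u) := by
    rw [smul_zero]
    abel
  rw [h11, hvv, zero_add, add_eq_left, smul_eq_zero] at h9
  rcases h9 with h9 | h9
  · exact hc h9
  · exact hu h9

end Rep

end Pool.Agent.BSpi.Cls
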