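import Pool.Agent.BSpi.Cls.Sp2

set_option autoImplicit false
set_option linter.unusedSimpArgs false
set_option linter.unusedVariables false
set_option linter.unusedSectionVars false

open Matrix Matrix.SpecialLinearGroup
open scoped MatrixGroups

namespace Pool.Agent.BSpi.Cls

open Pool.Agent.BSpi.PSL

variable {K V : Type} [Field K] [AddCommGroup V] [Module K V]
variable {B : SForm K V} [CharP K 2] {G : Type} [Group G]

namespace Rep

variable (D : Rep B 2 G)

lemma vv (v : V) (hK : (2 : K) = 0) : v + v = 0 := by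
  rw [← two_smul K v, hK, zero_smul]

lemma sg_mul (hA : B.Alt) {u v v' : V} (huv : B.h v u = 0) (huv' : B.h v' u = 0)
    (hvv : B.h v v' = 0) (c c' : K) : D.sg u v c * D.sg u v' c' = D.sg u (v + v') (c + c') := by
  have e1 : B.h (v + v') u = 0 := by rw [B.add_left, huv, huv', add_zero]
  have h1 := B.zero_symm huv
  have h2 := B.zero_symm huv'
  have h3 := B.zero_symm hvv
  apply D.ext
  intro x
  rw [D.mul_apply, D.sg_apply hA huv, D.sg_apply hA huv', D.sg_apply hA e1]
  simp only [B.add_left, B.add_right, B.smul_left, hA.2, huv, huv', hvv, h1, h2, h3]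
  module

lemma sg_zero (hA : B.Alt) (u : V) (c : K) : D.sg u 0 c = D.tv u c := by
  apply D.ext
  intro x
  rw [D.sg_apply hA (B.zero_left u), D.tv_apply' hA, B.zero_right, smul_zero, zero_smul, add_zero,
    add_zero]

lemma sg_shift (hA : B.Alt) {u v : V} (huv : B.h v u = 0) (a c : K) :
    D.sg u (v + a • u) c = D.sg u v c := by
  have e1 : B.h (v + a • u) u = 0 := by rw [B.add_left, B.smul_left, huv, hA.2, mul_zero, add_zero]
  apply D.ext
  intro x
  rw [D.sg_apply hA huv, D.sg_apply hA e1, B.add_right, B.smul_right, hA.1]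
  have h1 := vv ((a * B.h x u) • u) (two_eq K)
  have h2 : x + B.h x u • (v + a • u) + (B.h x v + a * B.h x u) • u + (c * B.h x u) • u =
      x + B.h x u • v + B.h x v • u + (c * B.h x u) • u + ((a * B.h x u) • u + (a * B.h x u) • u) := by
    module
  rw [h2, h1, add_zero]

/-- Root groups of the second kind. -/
def IsB (X : Subgroup (Pr G)) : Prop := ∃ u e : V, u ≠ 0 ∧ B.h u e = 0 ∧ (∀ c : K, e ≠ c • u) ∧
  ∀ x, x ∈ X ↔ ∃ a : K, x = pj (D.sg u (a • e) 0)

/-- The unipotent radical of the stabilizer of a line. -/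
def QL (u e : V) : Subgroup G where
  carrier := {g | D.ρ g u = u ∧ D.ρ g e = e ∧ ∀ x, B.h x u = 0 → B.h x e = 0 →
    ∃ a b : K, D.ρ g x = x + (a • u + b • e)}
  mul_mem' := by
    rintro g g' ⟨h1, h2, h3⟩ ⟨h4, h5, h6⟩
    refine ⟨by rw [D.mul_apply, h4, h1], by rw [D.mul_apply, h5, h2], fun x hx hx' => ?_⟩
    obtain ⟨a, b, hab⟩ := h6 x hx hx'
    obtain ⟨c, d, hcd⟩ := h3 x hx hx'
    refine ⟨c + a, d + b, ?_⟩
    rw [D.mul_apply, hab, map_add, map_add, map_smul, map_smul, h1, h2, hcd]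
    module
  one_mem' := ⟨D.one_apply u, D.one_apply e, fun x _ _ => ⟨0, 0, by
    rw [D.one_apply, zero_smul, zero_smul, add_zero, add_zero]⟩⟩
  inv_mem' := by
    rintro g ⟨h1, h2, h3⟩
    have e1 : D.ρ g⁻¹ u = u := by nth_rewrite 1 [← h1]; exact D.inv_self_apply g u
    have e2 : D.ρ g⁻¹ e = e := by nth_rewrite 1 [← h2]; exact D.inv_self_apply g e
    refine ⟨e1, e2, fun x hx hx' => ?_⟩
    obtain ⟨a, b, hab⟩ := h3 (D.ρ g⁻¹ x) (by rw [D.iso_inv, h1, hx]) (by rw [D.iso_inv, h2, hx'])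
    rw [D.self_inv_apply] at hab
    refine ⟨-a, -b, ?_⟩
    have h4 : D.ρ g⁻¹ x = (D.ρ g⁻¹ x + (a • u + b • e)) + ((-a) • u + (-b) • e) := by module
    rw [h4, ← hab]

lemma QL_pow {u e : V} {g : G} (hg : g ∈ D.QL u e) : g ^ 2 ^ 2 = 1 := by
  obtain ⟨h1, h2, h3⟩ := hg
  apply D.inj
  rw [map_pow, map_one]
  refine unip_pow2 (p := 2) ?_
  ext x
  have e1 : B.h (D.ρ g x - x) u = 0 := by
    have := D.iso g x u
    rw [h1] at this
    rw [B.sub_left, this, sub_self]
  have e1' : B.h (D.ρ g x - x) e = 0 := by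
    have := D.iso g x e
    rw [h2] at this
    rw [B.sub_left, this, sub_self]
  obtain ⟨a, b, hab⟩ := h3 _ e1 e1'
  change (D.ρ g - 1) ((D.ρ g - 1) ((D.ρ g - 1) x)) = 0
  have e2 : (D.ρ g - 1) x = D.ρ g x - x := rfl
  have e3 : (D.ρ g - 1) (D.ρ g x - x) = a • u + b • e := by
    change D.ρ g (D.ρ g x - x) - (D.ρ g x - x) = a • u + b • e
    rw [hab, add_sub_cancel_left]
  rw [e2, e3, map_add, map_smul, map_smul]
  change a • (D.ρ g u - u) + b • (D.ρ g e - e) = 0
  rw [h1, h2, sub_self, sub_self, smul_zero, smul_zero, add_zero]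

lemma QL_conj {u e : V} {g q : G} {c : K} (hgu : D.ρ g u = u) (hge : D.ρ g e = e + c • u)
    (hq : q ∈ D.QL u e) : g * q * g⁻¹ ∈ D.QL u e := by
  obtain ⟨h1, h2, h3⟩ := hq
  have e1 : D.ρ g⁻¹ u = u := by nth_rewrite 1 [← hgu]; exact D.inv_self_apply g u
  have e2 : D.ρ g⁻¹ e = e - c • u := by
    have h4 := D.inv_self_apply g e
    rw [hge, map_add, map_smul, e1] at h4
    exact eq_sub_of_add_eq h4
  refine ⟨?_, ?_, fun x hx hx' => ?_⟩
  · rw [D.mul_apply, D.mul_apply, e1, h1, hgu]
  · rw [D.mul_apply, D.mul_apply, e2, map_sub, map_smul, h1, h2, map_sub, map_smul, hgu, hge,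
      add_sub_cancel_right]
  · obtain ⟨a, b, hab⟩ := h3 (D.ρ g⁻¹ x) (by rw [D.iso_inv, hgu, hx])
      (by rw [D.iso_inv, hge, B.add_right, B.smul_right, hx, hx', mul_zero, add_zero])
    refine ⟨a + b * c, b, ?_⟩
    rw [D.mul_apply, D.mul_apply, hab, map_add, map_add, D.self_inv_apply, map_smul, map_smul, hgu,
      hge]
    module

lemma dual_mem (hA : B.Alt) {u e w f : V} (h1 : B.h u w = 1) (h2 : B.h e w = 0)
    (h3 : B.h e f = 1) (h4 : B.h u f = 0) (hue : B.h u e = 0) {v : V}
    (hv : ∀ y, B.h y u = 0 → B.h y e = 0 → B.h y v = 0) : ∃ a b : K, v = a • u + b • e := by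
  refine ⟨B.h w v, B.h f v, B.eq_of_right fun z => ?_⟩
  have h1' := hA.symm u w
  have h2' := hA.symm e w
  have h3' := hA.symm e f
  have h4' := hA.symm u f
  rw [h1] at h1'
  rw [h2] at h2'
  rw [h3] at h3'
  rw [h4] at h4'
  have h5 := hv (z - B.h z u • w - B.h z e • f) (by
    rw [B.sub_left, B.sub_left, B.smul_left, B.smul_left, h1', h4']
    ring) (by
    rw [B.sub_left, B.sub_left, B.smul_left, B.smul_left, h2', h3']
    ring)
  rw [B.sub_left, B.sub_left, B.smul_left, B.smul_left] at h5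
  rw [B.add_right, B.smul_right, B.smul_right, hA.1, hA.1]
  linear_combination h5

/-- Centres of Sylow subgroups. -/
lemma ZU_form [Finite G] [Finite V] (hA : B.Alt) (hB : B.Rk) {U : Subgroup (Pr G)}
    (hU : MaxP 2 U) : ∃ u e : V, u ≠ 0 ∧ B.h u e = 0 ∧ (∀ c : K, e ≠ c • u) ∧ D.A u ≤ ZU U ∧
      ∀ x ∈ ZU U, ∃ a c : K, x = pj (D.sg u (a • e) c) := by
  obtain ⟨H, hH, hHU⟩ := sylow_onto Nat.prime_two (pj : G →* Pr G) mk_surjective U hU.1
  obtain ⟨u, hu, hfix⟩ : ∃ u, B.Iso u ∧ ∀ g ∈ H, D.ρ g u = u := by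
    let _ : MulAction H {x : V // B.h x x = 0} :=
      { smul := fun g x => ⟨D.ρ g.1 x.1, by rw [D.iso]; exact x.2⟩
        one_smul := fun x => Subtype.ext (D.one_apply x.1)
        mul_smul := fun g g' x => Subtype.ext (D.mul_apply g.1 g'.1 x.1) }
    have h0 : (⟨0, B.zero_left 0⟩ : {x : V // B.h x x = 0}) ∈
        MulAction.fixedPoints H {x : V // B.h x x = 0} := fun g => Subtype.ext (map_zero _)
    obtain ⟨w, hw, hw0⟩ := hH.exists_fixed_point_of_prime_dvd_card_of_fixed_point _
      (count_all (p := 2) hB.1) h0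
    refine ⟨w.1, ⟨fun h => hw0 (Subtype.ext h.symm), w.2⟩, fun g hg => ?_⟩
    exact congrArg Subtype.val (hw ⟨g, hg⟩)
  -- the quotient `u^⊥ / u`
  let W : Submodule K V :=
    { carrier := {x | B.h x u = 0}
      add_mem' := fun {a b} ha hb => by
        change B.h (a + b) u = 0
        rw [B.add_left, show B.h a u = 0 from ha, show B.h b u = 0 from hb, add_zero]
      zero_mem' := B.zero_left u
      smul_mem' := fun c x hx => by
        change B.h (c • x) u = 0
        rw [B.smul_left, show B.h x u = 0 from hx, mul_zero] }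
  let U1 : Submodule K W :=
    { carrier := {x | ∃ c : K, (x : V) = c • u}
      add_mem' := by
        rintro a b ⟨c, hc⟩ ⟨d, hd⟩
        exact ⟨c + d, by rw [Submodule.coe_add, hc, hd, add_smul]⟩
      zero_mem' := ⟨0, by rw [Submodule.coe_zero, zero_smul]⟩
      smul_mem' := by
        rintro c x ⟨d, hd⟩
        exact ⟨c * d, by rw [Submodule.coe_smul, hd, smul_smul]⟩ }
  have hWg : ∀ g ∈ H, ∀ x ∈ W, D.ρ g x ∈ W := by
    intro g hg x hx
    change B.h (D.ρ g x) u = 0
    have := D.iso g x u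
    rw [hfix g hg] at this
    rw [this]
    exact hx
  let act : ∀ g ∈ H, (W ⧸ U1) →ₗ[K] (W ⧸ U1) := fun g hg =>
    U1.mapQ U1 ((D.ρ g).restrict (hWg g hg)) (by
      rintro x ⟨c, hc⟩
      refine ⟨c, ?_⟩
      change D.ρ g x = c • u
      rw [hc, map_smul, hfix g hg])
  have hact : ∀ (g : G) (hg : g ∈ H) (x : W), act g hg (Submodule.Quotient.mk x) =
      Submodule.Quotient.mk ⟨D.ρ g x, hWg g hg x x.2⟩ := fun g hg x => rfl
  obtain ⟨e, hue, hne, hHe⟩ : ∃ e : V, B.h u e = 0 ∧ (∀ c : K, e ≠ c • u) ∧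
      ∀ g ∈ H, ∃ c : K, D.ρ g e = e + c • u := by
    let _ : MulAction H (W ⧸ U1) :=
      { smul := fun g x => act g.1 g.2 x
        one_smul := fun x => by
          induction x using Submodule.Quotient.induction_on with
          | _ x =>
            change act 1 (one_mem H) (Submodule.Quotient.mk x) = _
            rw [hact _ (one_mem H)]
            congr 1
            exact Subtype.ext (D.one_apply _)
        mul_smul := fun g g' x => by
          induction x using Submodule.Quotient.induction_on with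
          | _ x =>
            change act (g.1 * g'.1) (mul_mem g.2 g'.2) (Submodule.Quotient.mk x) =
              act g.1 g.2 (act g'.1 g'.2 (Submodule.Quotient.mk x))
            rw [hact _ (mul_mem g.2 g'.2), hact _ g'.2, hact _ g.2]
            congr 1
            exact Subtype.ext (D.mul_apply _ _ _) }
    have h0 : (0 : W ⧸ U1) ∈ MulAction.fixedPoints H (W ⧸ U1) := fun g => map_zero _
    have hcard : 2 ∣ Nat.card (W ⧸ U1) := by
      obtain ⟨w, hw, huw⟩ := SForm.partner hu
      obtain ⟨z, hz, hzu, hzw⟩ := hB.2 u w hu hw (by rw [huw]; exact one_ne_zero)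
      have h1 : (Submodule.Quotient.mk ⟨z, hzu⟩ : W ⧸ U1) ≠ 0 := by
        intro h2
        rw [Submodule.Quotient.mk_eq_zero] at h2
        obtain ⟨c, hc⟩ := h2
        change z = c • u at hc
        rw [hc, B.smul_left, huw, mul_one] at hzw
        rw [hzw, zero_smul] at hc
        exact hz.1 hc
      have h2 : addOrderOf (Submodule.Quotient.mk ⟨z, hzu⟩ : W ⧸ U1) = 2 := by
        refine addOrderOf_eq_prime ?_ h1
        have h3 : (2 : ℕ) • (Submodule.Quotient.mk ⟨z, hzu⟩ : W ⧸ U1) =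
            (2 : K) • (Submodule.Quotient.mk ⟨z, hzu⟩ : W ⧸ U1) := by
          rw [two_smul, two_smul]
        rw [h3, two_eq K, zero_smul]
      rw [← h2]
      exact addOrderOf_dvd_natCard _
    have : Finite W := inferInstance
    have : Finite (W ⧸ U1) := Finite.of_surjective _ (Submodule.Quotient.mk_surjective U1)
    obtain ⟨y, hy, hy0⟩ := hH.exists_fixed_point_of_prime_dvd_card_of_fixed_point _ hcard h0
    obtain ⟨x, rfl⟩ := Submodule.Quotient.mk_surjective U1 y
    refine ⟨x, B.zero_symm x.2, ?_, ?_⟩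
    · intro c hc
      apply hy0
      symm
      rw [Submodule.Quotient.mk_eq_zero]
      exact ⟨c, hc⟩
    · intro g hg
      have h1 : act g hg (Submodule.Quotient.mk x) = Submodule.Quotient.mk x := hy ⟨g, hg⟩
      rw [hact g hg x, Submodule.Quotient.eq] at h1
      obtain ⟨c, hc⟩ := h1
      refine ⟨c, ?_⟩
      rw [← hc]
      change D.ρ g x = x + (D.ρ g x - x)
      abel
  have hUN : ∀ s ∈ U, Nm (D.A u) s := by
    intro s hs
    rw [← hHU] at hs
    obtain ⟨g, hg, rfl⟩ := hs
    exact (D.Nm_iff hu).2 ⟨1, by rw [hfix g hg, one_smul]⟩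
  have hQU : D.Q u ≤ U := hU.absorb (D.Q_pgroup u) (fun s hs => D.Nm_Q hu (hUN s hs))
  have hQLU : (D.QL u e).map pj ≤ U := by
    have key : ∀ g ∈ H, ∀ q ∈ D.QL u e, g * q * g⁻¹ ∈ D.QL u e := by
      intro g hg q hq
      obtain ⟨c, hc⟩ := hHe g hg
      exact D.QL_conj (hfix g hg) hc hq
    refine hU.absorb ?_ ?_
    · rintro ⟨_, g, hg, rfl⟩
      refine ⟨2, Subtype.ext ?_⟩
      change pj g ^ 2 ^ 2 = 1
      rw [← map_pow, D.QL_pow hg, map_one]
    · intro s hs
      rw [← hHU] at hs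
      obtain ⟨g, hg, rfl⟩ := hs
      ext x
      constructor
      · rintro ⟨_, ⟨q, hq, rfl⟩, rfl⟩
        exact ⟨_, key g hg q hq, by rw [map_mul, map_mul, map_inv]; rfl⟩
      · rintro ⟨q, hq, rfl⟩
        refine ⟨pj (g⁻¹ * q * g⁻¹⁻¹), ⟨_, key g⁻¹ (inv_mem hg) q hq, rfl⟩, ?_⟩
        change pj g * pj (g⁻¹ * q * g⁻¹⁻¹) * (pj g)⁻¹ = pj q
        rw [← map_inv, ← map_mul, ← map_mul]
        congr 1
        group
  refine ⟨u, e, hu.1, hue, hne, ?_, ?_⟩
  · intro x hx
    refine mem_ZU.2 ⟨hQU (D.A_le_Q hu hx), fun y hy => ?_⟩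
    obtain ⟨a, ha, rfl⟩ := (D.mem_A hu.2).1 hx
    rw [← hHU] at hy
    obtain ⟨g, hg, rfl⟩ := hy
    rw [← map_mul, ← map_mul]
    congr 1
    have h1 := D.tv_conj hu.2 ha g
    rw [hfix g hg] at h1
    exact mul_inv_eq_iff_eq_mul.1 h1
  · intro x hx
    obtain ⟨hxU, hxc⟩ := mem_ZU.1 hx
    rw [← hHU] at hxU
    obtain ⟨g, hg, rfl⟩ := hxU
    have hgu := hfix g hg
    have hcomm : ∀ q : G, pj q ∈ U → g * q * g⁻¹ = q := by
      intro q hq
      have h1 : pj (g * q) = pj (q * g) := by
        rw [map_mul, map_mul]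
        exact (hxc _ hq).symm
      exact mul_inv_eq_iff_eq_mul.2 (D.pj_inj hA hB.1 h1)
    obtain ⟨w, f, h1, h2, h3, h4, h5⟩ := hA.two hu.1 hue hne
    have h1' := hA.symm u w
    have h2' := hA.symm e w
    have h3' := hA.symm e f
    have h4' := hA.symm u f
    have h6' := hA.symm u e
    rw [h1] at h1'
    rw [h2] at h2'
    rw [h3] at h3'
    rw [h4] at h4'
    rw [hue] at h6'
    have hgwu : B.h (D.ρ g w) u = 1 := by
      have := D.iso g w u
      rw [hgu, h1'] at this
      exact this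
    have hgv : ∀ v, B.h v u = 0 → D.ρ g v = v + (B.h w v + B.h (D.ρ g w) v) • u := by
      intro v hv
      have hq : D.sg u v 0 ∈ D.QG u := by
        refine ⟨?_, fun x hx => ⟨B.h x v, ?_⟩⟩
        · rw [D.sg_apply hA hv, hA.2, B.zero_symm hv]
          simp
        · rw [D.sg_apply hA hv, hx]
          simp
      have h7 := hcomm _ (hQU ⟨_, hq, rfl⟩)
      rw [D.sg_conj hA hv, hgu] at h7
      have h8 : D.ρ (D.sg u (D.ρ g v) 0) (D.ρ g w) = D.ρ (D.sg u v 0) (D.ρ g w) := by rw [h7]
      have hgvu : B.h (D.ρ g v) u = 0 := by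
        have := D.iso g v u
        rw [hgu, hv] at this
        exact this
      rw [D.sg_apply hA hgvu, D.sg_apply hA hv, hgwu, D.iso] at h8
      simp only [one_smul, zero_mul, zero_smul, add_zero] at h8
      rw [add_assoc, add_assoc] at h8
      have h9 := add_left_cancel h8
      have h10 := vv (B.h w v • u) (two_eq K)
      have h11 : D.ρ g v = (D.ρ g v + B.h w v • u) + B.h w v • u := by
        rw [add_assoc, h10, add_zero]
      rw [h11, h9, add_smul]
      abel
    set v0 := D.ρ g w - w with hv0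
    have hgw : D.ρ g w = w + v0 := by rw [hv0]; abel
    have hv0u : B.h v0 u = 0 := by rw [hv0, B.sub_left, hgwu, h1', sub_self]
    have hgv' : ∀ v, B.h v u = 0 → D.ρ g v = v + B.h v v0 • u := by
      intro v hv
      rw [hgv v hv, hgw, B.add_left, hA.symm v v0]
      congr 2
      have := two_eq K
      linear_combination B.h w v * this
    -- the vector is orthogonal to `e`
    have hev : B.h e v0 = 0 := by
      have hq : D.tv e 1 ∈ D.QL u e := by
        refine ⟨?_, ?_, fun x _ hx => ⟨0, 0, ?_⟩⟩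
        · rw [D.tv_apply' hA, hue]
          simp
        · rw [D.tv_apply' hA, hA.2]
          simp
        · rw [D.tv_apply' hA, hx]
          simp
      have h7 := hcomm _ (hQLU ⟨_, hq, rfl⟩)
      rw [D.tv_conj (hA.2 e) (hA.1 1)] at h7
      have he0 : e ≠ 0 := fun h => hne 0 (by rw [h, zero_smul])
      obtain ⟨c, hc⟩ := D.tv_inj (hA.iso (D.ne_zero g he0)) (hA.2 e) (hA.1 1) (hA.1 1)
        one_ne_zero h7
      rw [hgv' e h6'] at hc
      by_contra hne0
      have h8 : B.h e v0 • u = (c - 1) • e := by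
        rw [sub_smul, one_smul, ← hc]
        abel
      by_cases hc1 : c - 1 = 0
      · rw [hc1, zero_smul, smul_eq_zero] at h8
        rcases h8 with h8 | h8
        · exact hne0 h8
        · exact hu.1 h8
      · apply hne ((c - 1)⁻¹ * B.h e v0)
        rw [← smul_smul, h8, smul_smul, inv_mul_cancel₀ hc1, one_smul]
    have hyv : ∀ y, B.h y u = 0 → B.h y e = 0 → B.h y v0 = 0 := by
      intro y hyu hye
      have hye' := B.zero_symm hye
      have hq : D.sg e y 0 ∈ D.QL u e := by
        refine ⟨?_, ?_, fun x _ hx => ⟨0, B.h x y, ?_⟩⟩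
        · rw [D.sg_apply hA hye, hue, B.zero_symm hyu]
          simp
        · rw [D.sg_apply hA hye, hA.2, hye']
          simp
        · rw [D.sg_apply hA hye, hx]
          simp
      have h7 := hcomm _ (hQLU ⟨_, hq, rfl⟩)
      rw [D.sg_conj hA hye, hgv' e h6', hev, zero_smul, add_zero, hgv' y hyu] at h7
      have h8 : D.ρ (D.sg e (y + B.h y v0 • u) 0) f = D.ρ (D.sg e y 0) f := by rw [h7]
      rw [D.sg_apply hA (by rw [B.add_left, B.smul_left, hye, hue, mul_zero, add_zero]),
        D.sg_apply hA hye, h3', B.add_right, B.smul_right, h4'] at h8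
      simp only [one_smul, zero_mul, zero_smul, add_zero, mul_zero] at h8
      have h9 : f + (y + B.h y v0 • u) = f + y := add_right_cancel h8
      have h10 := add_left_cancel h9
      rw [add_eq_left, smul_eq_zero] at h10
      exact h10.resolve_right hu.1
    obtain ⟨a, b, hab⟩ := dual_mem hA h1 h2 h3 h4 hue hyv
    refine ⟨b, B.h w v0, ?_⟩
    congr 1
    have hbe : B.h (b • e) u = 0 := by rw [B.smul_left, h6', mul_zero]
    have h7 : D.sg u (b • e) (B.h w v0) = D.sg u v0 (B.h w v0) := by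
      rw [← D.sg_shift hA hbe a]
      congr 1
      rw [hab]
      abel
    rw [h7]
    apply D.ext
    intro y
    rw [D.sg_apply hA hv0u]
    -- decompose `y`
    have e1 : B.h (y + B.h y u • w) u = 0 := by
      rw [B.add_left, B.smul_left, h1', mul_one]
      have := two_eq K
      linear_combination B.h y u * this
    have e2 := hgv' _ e1
    rw [map_add, map_smul, hgw, B.add_left, B.smul_left] at e2
    have e3 := vv (B.h y u • w) (two_eq K)
    have e4 := vv (B.h y u • v0) (two_eq K)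
    have e5 : D.ρ g y = (D.ρ g y + B.h y u • (w + v0)) + B.h y u • w + B.h y u • v0 := by
      rw [smul_add]
      have : D.ρ g y + (B.h y u • w + B.h y u • v0) + B.h y u • w + B.h y u • v0 =
          D.ρ g y + (B.h y u • w + B.h y u • w) + (B.h y u • v0 + B.h y u • v0) := by abel
      rw [this, e3, e4, add_zero, add_zero]
    rw [e5, e2, add_smul]
    have e6 : y + B.h y u • w + (B.h y v0 • u + (B.h y u * B.h w v0) • u) + B.h y u • w +
        B.h y u • v0 = y + (B.h y u • w + B.h y u • w) + B.h y u • v0 + B.h y v0 • u +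
        (B.h w v0 * B.h y u) • u := by
      module
    rw [e6, e3, add_zero]

end Rep

end Pool.Agent.BSpi.Cls
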