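import Pool.Agent.BSpi.Cls.Move
import Pool.Agent.BSpi.PSL.Sylow

set_option autoImplicit false
set_option linter.unusedSimpArgs false
set_option linter.unusedVariables false
set_option linter.unusedSectionVars false

open Matrix Matrix.SpecialLinearGroup
open scoped MatrixGroups

namespace Pool.Agent.BSpi.Cls

open Pool.Agent.BSpi.PSL

/-- Maximal `p`-subgroups. -/
def MaxP {S : Type} [Group S] (p : ℕ) (U : Subgroup S) : Prop :=
  IsPGroup p U ∧ ∀ Q : Subgroup S, IsPGroup p Q → U ≤ Q → Q = U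

/-- The centre of a subgroup. -/
def ZU {S : Type} [Group S] (U : Subgroup S) : Subgroup S := U ⊓ Subgroup.centralizer (U : Set S)

lemma mem_ZU {S : Type} [Group S] {U : Subgroup S} {x : S} :
    x ∈ ZU U ↔ x ∈ U ∧ ∀ y ∈ U, y * x = x * y := by
  rw [ZU, Subgroup.mem_inf, Subgroup.mem_centralizer_iff]
  rfl

lemma ZU_im {S : Type} [Group S] (U : Subgroup S) (f : MulAut S) : im f (ZU U) = ZU (im f U) := by
  ext x
  rw [mem_ZU]
  constructor
  · rintro ⟨y, hy, rfl⟩
    have h := (mem_ZU.1 hy)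
    refine ⟨⟨y, h.1, rfl⟩, ?_⟩
    rintro _ ⟨z, hz, rfl⟩
    change f z * f y = f y * f z
    rw [← map_mul, h.2 z hz, map_mul]
  · rintro ⟨⟨y, hy, rfl⟩, h⟩
    refine ⟨y, mem_ZU.2 ⟨hy, fun z hz => ?_⟩, rfl⟩
    apply f.injective
    have h1 := h (f z) ⟨z, hz, rfl⟩
    rw [map_mul, map_mul]
    exact h1

lemma MaxP.im {S : Type} [Group S] {p : ℕ} {U : Subgroup S} (h : MaxP p U) (f : MulAut S) :
    MaxP p (im f U) := by
  refine ⟨h.1.map _, fun Q hQ hle => ?_⟩
  have h1 : Cls.im f⁻¹ Q = U := by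
    refine h.2 _ (hQ.map _) ?_
    intro x hx
    refine ⟨f x, hle ⟨x, hx, rfl⟩, ?_⟩
    exact MulAut.inv_apply_self _ f x
  rw [← h1, ← im_mul, mul_inv_cancel, im_one]

lemma exists_maxP {S : Type} [Group S] [Finite S] (p : ℕ) : ∃ U : Subgroup S, MaxP p U := by
  obtain ⟨P⟩ : Nonempty (Sylow p S) := inferInstance
  exact ⟨P, P.isPGroup', fun Q hQ h => P.is_maximal' hQ h⟩

lemma MaxP.absorb {S : Type} [Group S] {p : ℕ} {U Q : Subgroup S} (h : MaxP p U)
    (hQ : IsPGroup p Q) (hn : ∀ s ∈ U, Nm Q s) : Q ≤ U := by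
  have h1 : IsPGroup p (U ⊔ Q : Subgroup S) :=
    IsPGroup.to_sup_of_normal_right' h.1 hQ (le_normalizer hn)
  have h2 := h.2 _ h1 le_sup_left
  rw [← h2]
  exact le_sup_right

variable {K V : Type} [Field K] [AddCommGroup V] [Module K V]
variable {B : SForm K V} {p : ℕ} [hp : Fact p.Prime] [CharP K p] {G : Type} [Group G]

namespace Rep

variable (D : Rep B p G)

lemma A_le_Q {u : V} (hu : B.Iso u) : D.A u ≤ D.Q u := by
  intro x hx
  obtain ⟨a, ha, rfl⟩ := (D.mem_A hu.2).1 hx
  refine ⟨D.tv u a, ⟨?_, fun x hx => ⟨0, ?_⟩⟩, rfl⟩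
  · rw [D.tv_apply hu.2 ha, hu.2, mul_zero, zero_smul, add_zero]
  · rw [D.tv_apply hu.2 ha, hx, mul_zero, zero_smul]

/-- Centres of Sylow subgroups are root groups. -/
lemma center_form [Finite G] [Finite V] (hB : B.Rk1) (hτ : (∃ l, B.τ l ≠ l) ∨ (2 : K) ≠ 0)
    {U : Subgroup (Pr G)} (hU : MaxP p U) : ∃ X ∈ D.R, ZU U = X := by
  obtain ⟨H, hH, hHU⟩ := sylow_onto hp.out (pj : G →* Pr G) mk_surjective U hU.1
  -- a fixed isotropic vector
  obtain ⟨u, hu, hfix⟩ : ∃ u, B.Iso u ∧ ∀ g ∈ H, D.ρ g u = u := by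
    let _ : MulAction H {x : V // B.h x x = 0} :=
      { smul := fun g x => ⟨D.ρ g.1 x.1, by rw [D.iso]; exact x.2⟩
        one_smul := fun x => Subtype.ext (D.one_apply x.1)
        mul_smul := fun g g' x => Subtype.ext (D.mul_apply g.1 g'.1 x.1) }
    have h0 : (⟨0, B.zero_left 0⟩ : {x : V // B.h x x = 0}) ∈
        MulAction.fixedPoints H {x : V // B.h x x = 0} := fun g => Subtype.ext (map_zero _)
    obtain ⟨w, hw, hw0⟩ := hH.exists_fixed_point_of_prime_dvd_card_of_fixed_point _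
      (count_all (p := p) hB.1) h0
    refine ⟨w.1, ⟨fun h => hw0 (Subtype.ext h.symm), w.2⟩, fun g hg => ?_⟩
    exact congrArg Subtype.val (hw ⟨g, hg⟩)
  have hUN : ∀ s ∈ U, Nm (D.A u) s := by
    intro s hs
    rw [← hHU] at hs
    obtain ⟨g, hg, rfl⟩ := hs
    exact (D.Nm_iff hu).2 ⟨1, by rw [hfix g hg, one_smul]⟩
  have hQU : D.Q u ≤ U := hU.absorb (D.Q_pgroup u) (fun s hs => D.Nm_Q hu (hUN s hs))
  refine ⟨D.A u, ⟨u, hu, rfl⟩, le_antisymm ?_ ?_⟩
  · intro x hx
    obtain ⟨hxU, hxc⟩ := mem_ZU.1 hx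
    rw [← hHU] at hxU
    obtain ⟨g, hg, rfl⟩ := hxU
    have hgu := hfix g hg
    obtain ⟨w, hw, huw⟩ := SForm.partner hu
    have hwu : B.h w u = -1 := by rw [B.skew u w, huw, map_one]
    have hgwu : B.h (D.ρ g w) u = -1 := by
      have h1 := D.iso g w u
      rw [hgu, hwu] at h1
      exact h1
    -- the element lies in `Q`
    have hgv : ∀ v, B.h v u = 0 →
        D.ρ g v = v + (B.h w v - B.h (D.ρ g w) v) • u := by
      intro v hv
      have huv := B.zero_symm hv
      obtain ⟨b, hb⟩ := B.tr v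
      obtain ⟨q, hq⟩ := D.ex (sgL B u v b) (sgL_iso B hu.2 hv hb.symm) (unip_pow p (by
        ext x
        have e1 : ∀ y, (sgL B u v b - 1) y = B.h y u • v + B.h y v • u + (b * B.h y u) • u := by
          intro y
          change sgL B u v b y - y = _
          rw [sgL_apply]
          abel
        change (sgL B u v b - 1) ((sgL B u v b - 1) ((sgL B u v b - 1) x)) = 0
        rw [e1 x, e1, e1]
        simp only [B.add_left, B.smul_left, hu.2, hv, huv, mul_zero, add_zero, zero_smul, zero_add,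
          zero_mul]))
      have hqQ : q ∈ D.QG u := by
        refine ⟨?_, fun x hx => ⟨B.h x v, ?_⟩⟩
        · rw [hq, sgL_apply, hu.2, huv]
          simp
        · rw [hq, sgL_apply, hx]
          simp
      have h1 : pj g * pj q = pj q * pj g := (hxc _ (hQU ⟨q, hqQ, rfl⟩)).symm
      have h2 := D.comm_lift hB.1 (D.QG_pow hqQ) h1
      have h3 : g * q = q * g := mul_inv_eq_iff_eq_mul.1 h2
      have h4 : D.ρ (g * q) w = D.ρ (q * g) w := by rw [h3]
      rw [D.mul_apply, D.mul_apply, hq, sgL_apply, sgL_apply, hwu, hgwu] at h4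
      simp only [map_add, map_smul, hgu] at h4
      have h5 : D.ρ g v = v + B.h w v • u - B.h (D.ρ g w) v • u := by
        have h6 := h4
        simp only [neg_one_smul, mul_neg, mul_one, neg_smul, one_smul] at h6
        have h7 : -(D.ρ g v) + B.h w v • u = -v + B.h (D.ρ g w) v • u := by
          have h8 := add_right_cancel h6
          rw [add_assoc, add_assoc] at h8
          exact add_left_cancel h8
        have h9 : D.ρ g v = -(-(D.ρ g v) + B.h w v • u) + B.h w v • u := by abel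
        rw [h9, h7]
        abel
      rw [h5, sub_smul]
      abel
    set d := D.ρ g w - w with hd
    have hdu : B.h d u = 0 := by rw [hd, B.sub_left, hgwu, hwu, sub_self]
    have hdv : ∀ v, B.h v u = 0 → B.h d v = 0 := by
      have h1 : ∀ v, B.h v u = 0 → B.h d v + B.τ (B.h d v) = 0 := by
        intro v hv
        have h2 := D.iso g w v
        rw [hgv v hv, B.add_right, B.smul_right, hgwu] at h2
        have h3 : B.h w v - B.h (D.ρ g w) v = - B.h d v := by
          rw [hd, B.sub_left]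
          ring
        rw [h3, map_neg] at h2
        have h4 : B.h d v = B.h (D.ρ g w) v - B.h w v := by rw [hd, B.sub_left]
        rw [h4] at h2 ⊢
        linear_combination h2
      intro v hv
      rcases hτ with ⟨l, hl⟩ | h2
      · have e1 := h1 v hv
        have e2 := h1 (l • v) (by rw [B.smul_left, hv, mul_zero])
        rw [B.smul_right, map_mul, B.tt] at e2
        have e3 : (B.τ l - l) * B.h d v = 0 := by linear_combination e2 - l * e1
        exact (mul_eq_zero.1 e3).resolve_left (sub_ne_zero.2 hl)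
      · by_cases hl : ∃ l, B.τ l ≠ l
        · obtain ⟨l, hl⟩ := hl
          have e1 := h1 v hv
          have e2 := h1 (l • v) (by rw [B.smul_left, hv, mul_zero])
          rw [B.smul_right, map_mul, B.tt] at e2
          have e3 : (B.τ l - l) * B.h d v = 0 := by linear_combination e2 - l * e1
          exact (mul_eq_zero.1 e3).resolve_left (sub_ne_zero.2 hl)
        · push Not at hl
          have e1 := h1 v hv
          rw [hl] at e1
          have e3 : 2 * B.h d v = 0 := by linear_combination e1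
          exact (mul_eq_zero.1 e3).resolve_left h2
    obtain ⟨e, he⟩ := SForm.mem_of_perp hu.1 (fun y hy => B.zero_symm (hdv y hy))
    have hgw : D.ρ g w = w + e • u := by rw [← he, hd]; abel
    have hτe : B.τ e = e := by
      have h1 := (D.isoVec g hw).2
      rw [hgw, B.add_left, B.add_right, B.add_right, B.smul_left, B.smul_left, B.smul_right,
        B.smul_right, hu.2, hw.2, hwu, huw] at h1
      linear_combination -h1
    refine (D.mem_A hu.2).2 ⟨-e, by rw [map_neg, hτe], ?_⟩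
    congr 1
    apply D.ext
    intro y
    rw [D.tv_apply hu.2 (by rw [map_neg, hτe])]
    have h1 : B.h (y + B.h y u • w) u = 0 := by
      rw [B.add_left, B.smul_left, hwu]
      ring
    have h2 := hgv _ h1
    have h3 : B.h w (y + B.h y u • w) - B.h (D.ρ g w) (y + B.h y u • w) = 0 := by
      have h4 := hdv _ h1
      rw [hd, B.sub_left] at h4
      linear_combination -h4
    rw [h3, zero_smul, add_zero, map_add, map_smul, hgw, smul_add, ← add_assoc] at h2
    have h5 : D.ρ g y = y + B.h y u • w - B.h y u • e • u - B.h y u • w := by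
      rw [← h2]
      abel
    rw [h5, smul_smul, neg_mul, neg_smul, mul_comm e]
    abel
  · intro x hx
    refine mem_ZU.2 ⟨hQU (D.A_le_Q hu hx), fun y hy => ?_⟩
    obtain ⟨a, ha, rfl⟩ := (D.mem_A hu.2).1 hx
    rw [← hHU] at hy
    obtain ⟨g, hg, rfl⟩ := hy
    rw [← map_mul, ← map_mul]
    congr 1
    have h1 := D.tv_conj hu.2 ha g
    rw [hfix g hg] at h1
    exact mul_inv_eq_iff_eq_mul.1 h1

lemma transitive {u w : V} (hu : B.Iso u) (hw : B.Iso w) :
    ∃ g : G, im (MulAut.conj (pj g)) (D.A u) = D.A w := by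
  obtain ⟨y, hy, h1, h2⟩ := SForm.common hu hw
  obtain ⟨c, hc, hcI, hc1⟩ := scale_one (B := B) hu (B.ne_symm h1)
  obtain ⟨c', hc', hcI', hc1'⟩ := scale_one (B := B) hw (B.ne_symm h2)
  obtain ⟨g, -, hgw⟩ := D.exists_siegel hy hcI hcI' hc1 hc1'
  exact ⟨g, by rw [← D.A_smul hu.2 hc, D.A_conj hcI.2, hgw, D.A_smul hw.2 hc']⟩

/-- All automorphisms preserve the set of root groups. -/
lemma pres_all [Finite G] [Finite V] (hB : B.Rk1) (hτ : (∃ l, B.τ l ≠ l) ∨ (2 : K) ≠ 0)
    (f : MulAut (Pr G)) : Pres D.R f := by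
  rintro _ ⟨w, hw, rfl⟩
  obtain ⟨U, hU⟩ := exists_maxP (S := Pr G) p
  obtain ⟨X, ⟨u, hu, rfl⟩, hX⟩ := D.center_form hB hτ hU
  obtain ⟨g, hg⟩ := D.transitive hu hw
  rw [← hg, ← hX, ZU_im, ZU_im]
  obtain ⟨Y, hY, hYe⟩ := D.center_form hB hτ ((hU.im (MulAut.conj (pj g))).im f)
  rw [hYe]
  exact hY

end Rep

end Pool.Agent.BSpi.Cls
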