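import Pool.Agent.BSpi.Cls.Core

set_option autoImplicit false
set_option linter.unusedSimpArgs false
set_option linter.unusedVariables false

open Matrix Matrix.SpecialLinearGroup
open scoped MatrixGroups

namespace Pool.Agent.BSpi.Cls

open Pool.Agent.BSpi.PSL

variable {F : Type} [Field F]

lemma mem_of_pow_card [Fintype F] {E : Type} [Field E] (ι : F →+* E) {x : E}
    (hx : x ^ Fintype.card F = x) : ∃ a : F, ι a = x := by
  classical
  have h1 : (∏ a : F, (Polynomial.X - Polynomial.C a)) =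
      Polynomial.X ^ Fintype.card F - (Polynomial.X : Polynomial F) := by
    have h2 : (Polynomial.X ^ Fintype.card F - (Polynomial.X : Polynomial F)).Monic :=
      Polynomial.monic_X_pow_sub (by
        rw [Polynomial.degree_X]
        exact_mod_cast Fintype.one_lt_card)
    have h3 := Polynomial.prod_multiset_X_sub_C_of_monic_of_roots_card_eq h2 (by
      rw [FiniteField.roots_X_pow_card_sub_X, FiniteField.X_pow_card_sub_X_natDegree_eq _
        Fintype.one_lt_card]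
      exact Finset.card_univ)
    rw [FiniteField.roots_X_pow_card_sub_X] at h3
    exact h3
  have h4 := congrArg (Polynomial.eval₂ ι x) h1
  rw [Polynomial.eval₂_finsetProd, Polynomial.eval₂_sub, Polynomial.eval₂_X_pow,
    Polynomial.eval₂_X, hx, sub_self, Finset.prod_eq_zero_iff] at h4
  obtain ⟨a, -, ha⟩ := h4
  rw [Polynomial.eval₂_sub, Polynomial.eval₂_X, Polynomial.eval₂_C] at ha
  exact ⟨a, (sub_eq_zero.1 ha).symm⟩

/-- The order of an eigenvalue divides the order of the matrix. -/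
lemma order_eigen {E : Type} [Field E] (ι : F →+* E) {M : SL(2, F)} {l : E} (hl : l ≠ 0)
    (h : ι (M 0 0 + M 1 1) = l + l⁻¹) : orderOf l ∣ orderOf M := by
  set Z : Matrix (Fin 2) (Fin 2) E := M.1.map ι with hZ
  have hdet : (Z - l • (1 : Matrix (Fin 2) (Fin 2) E)).det = 0 := by
    rw [det_fin_two]
    simp only [Matrix.sub_apply, Matrix.smul_apply, Matrix.one_apply_eq, ne_eq, zero_ne_one,
      one_ne_zero, not_false_eq_true, Matrix.one_apply_ne, smul_eq_mul, mul_one, mul_zero, sub_zero,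
      hZ, Matrix.map_apply]
    have hd := congrArg ι (det_eq M)
    rw [map_sub, map_mul, map_mul, map_one] at hd
    rw [map_add] at h
    have h3 : l * l⁻¹ = 1 := mul_inv_cancel₀ hl
    change (ι (M 0 0) - l) * (ι (M 1 1) - l) - ι (M 0 1) * ι (M 1 0) = 0
    linear_combination hd - l * h - h3
  obtain ⟨w, hw, hw2⟩ := Matrix.exists_mulVec_eq_zero_iff.2 hdet
  have hw3 : Z *ᵥ w = l • w := by
    rw [sub_mulVec, smul_mulVec, one_mulVec, sub_eq_zero] at hw2
    exact hw2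
  have hpow : ∀ k : ℕ, (Z ^ k) *ᵥ w = l ^ k • w := by
    intro k
    induction k with
    | zero => rw [pow_zero, pow_zero, one_mulVec, one_smul]
    | succ k ih => rw [pow_succ, ← mulVec_mulVec, hw3, mulVec_smul, ih, smul_smul, pow_succ']
  refine orderOf_dvd_of_pow_eq_one ?_
  have h4 := hpow (orderOf M)
  have h5 : Z ^ orderOf M = 1 := by
    have h6 : Z ^ orderOf M = (M.1 ^ orderOf M).map ι :=
      ((ι.mapMatrix (m := Fin 2)).map_pow M.1 _).symm
    rw [h6, ← coe_pow, pow_orderOf_eq_one, coe_one]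
    exact (ι.mapMatrix (m := Fin 2)).map_one
  rw [h5, one_mulVec] at h4
  have h7 : (l ^ orderOf M - 1) • w = 0 := by rw [sub_smul, one_smul, ← h4, sub_self]
  exact sub_eq_zero.1 ((smul_eq_zero.1 h7).resolve_right hw)

/-- For every prime divisor of `q ^ 2 - 1` there is a suitable trace. -/
lemma exists_trace_aux [Finite F] {E : Type} [Field E] [IsAlgClosed E] (ι : F →+* E)
    {κ : F} (hκ : κ ≠ 0) {ℓ : ℕ} (hℓ : ℓ.Prime)
    (hd : ℓ ∣ Nat.card F - 1 ∨ ℓ ∣ Nat.card F + 1) :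
    ∃ y : F, y ≠ 0 ∧ ∀ M : SL(2, F), M 0 0 + M 1 1 = 2 + κ * (y * y) → ℓ ∣ orderOf M := by
  have := Fintype.ofFinite F
  obtain ⟨p, hcp, n, hp, hq⟩ := FiniteField.card' F
  have := Fact.mk hp
  rw [Nat.card_eq_fintype_card] at hd
  set q := Fintype.card F with hqd
  have hq1 : 1 < q := Fintype.one_lt_card
  have hpq : p ∣ q := by
    rw [hq]
    exact dvd_pow_self p n.2.ne'
  have hℓp : ℓ ≠ p := by
    rintro rfl
    have h1 : ℓ ∣ 1 := by
      rcases hd with h | h
      · have h2 := Nat.dvd_sub hpq h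
        have h3 : q - (q - 1) = 1 := by omega
        rwa [h3] at h2
      · exact (Nat.dvd_add_right hpq).1 h
    exact hℓ.one_lt.ne' (Nat.dvd_one.1 h1)
  have hι : Function.Injective ι := ι.injective
  have : CharP E p := charP_of_injective_ringHom hι p
  have hfrob : ∀ x y : E, (x - y) ^ q = x ^ q - y ^ q := by
    intro x y
    rw [hq]
    exact sub_pow_char_pow x y (n : ℕ)
  obtain ⟨k, hk⟩ := IsAlgClosed.exists_pow_nat_eq (ι κ) (n := 2) (by norm_num)
  have hk0 : k ≠ 0 := by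
    rintro rfl
    rw [zero_pow (by norm_num)] at hk
    exact hκ (hι (by rw [← hk, map_zero]))
  obtain ⟨ε, hε, hkε⟩ : ∃ ε : E, (ε = 1 ∨ ε = -1) ∧ k ^ q = ε * k := by
    have h1 : (k ^ q) ^ 2 = k ^ 2 := by
      rw [← pow_mul, mul_comm, pow_mul, hk, ← map_pow, FiniteField.pow_card]
    rcases sq_eq_sq_iff_eq_or_eq_neg.1 h1 with h2 | h2
    · exact ⟨1, Or.inl rfl, by rw [h2, one_mul]⟩
    · exact ⟨-1, Or.inr rfl, by rw [h2, neg_one_mul]⟩
  have hεε : ε * ε = 1 := by
    rcases hε with rfl | rfl <;> ring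
  have hε0 : ε ≠ 0 := left_ne_zero_of_mul_eq_one hεε
  -- enough to find a suitable element of the closure
  suffices h : ∃ μ : E, μ ≠ 0 ∧ (μ ^ (q - 1) = ε ∨ μ ^ (q + 1) = -ε) ∧ ℓ ∣ orderOf (μ * μ) by
    obtain ⟨μ, hμ0, hμ, hμℓ⟩ := h
    have h1 : (μ - μ⁻¹) ^ q = ε * (μ - μ⁻¹) := by
      rw [hfrob, inv_pow]
      rcases hμ with h2 | h2
      · have h3 : μ ^ q = ε * μ := by
          rw [← h2, ← pow_succ]
          congr 1
          omega
        rw [h3]
        rw [mul_inv, inv_eq_of_mul_eq_one_left hεε]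
        ring
      · have h3 : μ ^ q = -ε * μ⁻¹ := by
          rw [← h2, pow_succ, mul_assoc, mul_inv_cancel₀ hμ0, mul_one]
        rw [h3]
        rw [mul_inv, inv_inv, inv_neg, inv_eq_of_mul_eq_one_left hεε]
        ring
    have h4 : ((μ - μ⁻¹) / k) ^ q = (μ - μ⁻¹) / k := by
      rw [div_pow, h1, hkε, mul_div_mul_left _ _ hε0]
    obtain ⟨y, hy⟩ := mem_of_pow_card ι h4
    have hμ1 : μ * μ ≠ 1 := by
      intro h5
      rw [h5, orderOf_one] at hμℓ
      exact hℓ.one_lt.ne' (Nat.dvd_one.1 hμℓ)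
    have htr : ι (2 + κ * (y * y)) = μ * μ + (μ * μ)⁻¹ := by
      rw [map_add, map_ofNat, map_mul, map_mul, ← hk, hy]
      field_simp
      ring
    refine ⟨y, ?_, fun M hM => ?_⟩
    · rintro rfl
      rw [map_zero] at hy
      have h6 : μ - μ⁻¹ = 0 := (div_eq_zero_iff.1 hy.symm).resolve_right hk0
      apply hμ1
      have h7 : μ = μ⁻¹ := sub_eq_zero.1 h6
      nth_rewrite 2 [h7]
      exact mul_inv_cancel₀ hμ0
    · exact hμℓ.trans (order_eigen ι (mul_ne_zero hμ0 hμ0) (by rw [hM, htr]))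
  by_cases hℓ2 : ℓ = 2
  · -- the prime two
    have hp2 : (2 : E) ≠ 0 := by
      intro h2
      have h3 : ((2 : ℕ) : E) = 0 := by exact_mod_cast h2
      rw [CharP.cast_eq_zero_iff E p] at h3
      exact hℓp (by rw [hℓ2]; exact ((Nat.prime_dvd_prime_iff_eq hp Nat.prime_two).1 h3).symm)
    have hqo : Even (q - 1) ∧ Even (q + 1) := by
      rw [hℓ2] at hd
      rcases hd with h | h <;> constructor <;> rw [even_iff_two_dvd] <;> omega
    have key : ∀ N : ℕ, 0 < N → Even N → ∃ μ : E, μ ≠ 0 ∧ μ ^ N = -1 ∧ ℓ ∣ orderOf (μ * μ) := by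
      intro N hN hNe
      obtain ⟨μ, hμ⟩ := IsAlgClosed.exists_pow_nat_eq (-1 : E) hN
      have hμ0 : μ ≠ 0 := by
        rintro rfl
        rw [zero_pow hN.ne'] at hμ
        exact one_ne_zero (neg_eq_zero.1 hμ.symm)
      refine ⟨μ, hμ0, hμ, ?_⟩
      rw [hℓ2]
      by_contra hodd
      obtain ⟨j, hj⟩ := hNe
      have h1 : (μ * μ) ^ j = -1 := by rw [← hμ, ← pow_two, ← pow_mul, hj]; congr 1; ring
      have h2 : Odd (orderOf (μ * μ)) := by
        rw [← Nat.not_even_iff_odd, even_iff_two_dvd]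
        exact hodd
      have h3 : ((-1 : E)) ^ orderOf (μ * μ) = 1 := by
        rw [← h1, ← pow_mul, mul_comm j, pow_mul, pow_orderOf_eq_one, one_pow]
      rw [h2.neg_one_pow] at h3
      apply hp2
      linear_combination -h3
    rcases hε with rfl | rfl
    · obtain ⟨μ, h0, h1, h2⟩ := key (q + 1) (by omega) hqo.2
      exact ⟨μ, h0, Or.inr h1, h2⟩
    · obtain ⟨μ, h0, h1, h2⟩ := key (q - 1) (by omega) hqo.1
      exact ⟨μ, h0, Or.inl h1, h2⟩
  · have hℓE : ((ℓ : ℕ) : E) ≠ 0 := by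
      intro h3
      rw [CharP.cast_eq_zero_iff E p] at h3
      exact hℓp ((Nat.prime_dvd_prime_iff_eq hp hℓ).1 h3).symm
    have : NeZero ((ℓ : ℕ) : E) := ⟨hℓE⟩
    obtain ⟨ζ, hζ⟩ : ∃ ζ : E, IsPrimitiveRoot ζ ℓ := by
      exact HasEnoughRootsOfUnity.exists_primitiveRoot E ℓ
    have hζ0 : ζ ≠ 0 := hζ.ne_zero hℓ.ne_zero
    have key : ∀ (N : ℕ) (η : E), 0 < N → η ≠ 0 → ℓ ∣ N →
        ∃ μ : E, μ ≠ 0 ∧ μ ^ N = η ∧ ℓ ∣ orderOf (μ * μ) := by
      intro N η hN hη hℓN
      obtain ⟨ν, hν⟩ := IsAlgClosed.exists_pow_nat_eq η hN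
      have hν0 : ν ≠ 0 := by
        rintro rfl
        rw [zero_pow hN.ne'] at hν
        exact hη hν.symm
      by_cases h1 : ℓ ∣ orderOf (ν * ν)
      · exact ⟨ν, hν0, hν, h1⟩
      · refine ⟨ζ * ν, mul_ne_zero hζ0 hν0, ?_, ?_⟩
        · rw [mul_pow, hν, (hζ.pow_eq_one_iff_dvd N).2 hℓN, one_mul]
        · set M0 := orderOf (ν * ν) with hM0
          set n' := orderOf (ζ * ν * (ζ * ν)) with hn'
          have h2 : (ζ * ζ) ^ (n' * M0) = 1 := by
            have h3 : (ζ * ν * (ζ * ν)) ^ (n' * M0) = 1 := by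
              rw [pow_mul, hn', pow_orderOf_eq_one, one_pow]
            have h4 : (ν * ν) ^ (n' * M0) = 1 := by
              rw [mul_comm n', pow_mul, hM0, pow_orderOf_eq_one, one_pow]
            have h5 : ζ * ν * (ζ * ν) = (ζ * ζ) * (ν * ν) := by ring
            rw [h5, mul_pow, h4, mul_one] at h3
            exact h3
          rw [← pow_two, ← pow_mul, hζ.pow_eq_one_iff_dvd] at h2
          rcases hℓ.dvd_mul.1 h2 with h3 | h3
          · exact absurd ((Nat.prime_dvd_prime_iff_eq hℓ Nat.prime_two).1 h3) hℓ2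
          · rcases hℓ.dvd_mul.1 h3 with h4 | h4
            · exact h4
            · exact absurd h4 h1
    rcases hd with hd | hd
    · obtain ⟨μ, h0, h1, h2⟩ := key (q - 1) ε (by omega) hε0 hd
      exact ⟨μ, h0, Or.inl h1, h2⟩
    · obtain ⟨μ, h0, h1, h2⟩ := key (q + 1) (-ε) (by omega) (neg_ne_zero.2 hε0) hd
      exact ⟨μ, h0, Or.inr h1, h2⟩

lemma exists_trace [Finite F] {κ : F} (hκ : κ ≠ 0) {ℓ : ℕ} (hℓ : ℓ.Prime)
    (hd : ℓ ∣ Nat.card F - 1 ∨ ℓ ∣ Nat.card F + 1) :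
    ∃ y : F, y ≠ 0 ∧ ∀ M : SL(2, F), M 0 0 + M 1 1 = 2 + κ * (y * y) → ℓ ∣ orderOf M :=
  exists_trace_aux (algebraMap F (AlgebraicClosure F)) hκ hℓ hd

end Pool.Agent.BSpi.Cls
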