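import Pool.Agent.BSpi.Cls.Syl
import Pool.Agent.BSpi.Cls.Move

set_option autoImplicit false
set_option linter.unusedSimpArgs false
set_option linter.unusedVariables false
set_option linter.unusedSectionVars false

open Matrix Matrix.SpecialLinearGroup
open scoped MatrixGroups

namespace Pool.Agent.BSpi.Cls

open Pool.Agent.BSpi.PSL

variable {K V : Type} [Field K] [AddCommGroup V] [Module K V]

/-- Hyperbolic frames in dimension three. -/
structure Fr (B : SForm K V) (u w n : V) : Prop where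
  hu : B.Iso u
  hw : B.Iso w
  uw : B.h u w = 1
  n0 : n ≠ 0
  nu : B.h n u = 0
  nw : B.h n w = 0
  span : ∀ x, ∃ a b c : K, x = a • u + b • n + c • w

/-- The form has dimension three and positive rank. -/
def SForm.Dim3 (B : SForm K V) : Prop := (∃ u, B.Iso u) ∧
  ∀ u w, B.Iso u → B.Iso w → B.h u w = 1 → ∃ n, Fr B u w n

namespace Fr

variable {B : SForm K V} {u w n : V} (F : Fr B u w n)

include F

lemma wu : B.h w u = -1 := by rw [B.skew u w, F.uw, map_one]

lemma un : B.h u n = 0 := B.zero_symm F.nu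

lemma wn : B.h w n = 0 := B.zero_symm F.nw

lemma h1 (a b c : K) : B.h (a • u + b • n + c • w) u = -c := by
  simp only [B.add_left, B.smul_left, F.hu.2, F.nu, F.wu]
  ring

lemma h2 (a b c : K) : B.h (a • u + b • n + c • w) n = b * B.h n n := by
  simp only [B.add_left, B.smul_left, F.un, F.wn]
  ring

lemma h3 (a b c : K) : B.h (a • u + b • n + c • w) w = a := by
  simp only [B.add_left, B.smul_left, F.uw, F.nw, F.hw.2]
  ring

lemma hn : B.h n n ≠ 0 := by
  intro h
  apply F.n0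
  refine B.nondeg n fun y => B.zero_symm ?_
  obtain ⟨a, b, c, rfl⟩ := F.span y
  rw [F.h2, h, mul_zero]

lemma hnτ : B.τ (B.h n n) = - B.h n n := by
  have h := B.skew n n
  rw [h, neg_neg, ← h]

lemma eq (x : V) : x = B.h x w • u + (B.h x n / B.h n n) • n + (-(B.h x u)) • w := by
  obtain ⟨a, b, c, hx⟩ := F.span x
  have e1 := F.h1 a b c
  have e2 := F.h2 a b c
  have e3 := F.h3 a b c
  rw [← hx] at e1 e2 e3
  rw [e1, e2, e3, neg_neg, mul_div_assoc, div_self F.hn, mul_one]
  exact hx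

lemma perp_u {x : V} (h : B.h x u = 0) : x = B.h x w • u + (B.h x n / B.h n n) • n := by
  have := F.eq x
  rw [h, neg_zero, zero_smul, add_zero] at this
  exact this

lemma perp_uw {x : V} (h : B.h x u = 0) (h' : B.h x w = 0) : x = (B.h x n / B.h n n) • n := by
  have := F.perp_u h
  rw [h', zero_smul, zero_add] at this
  exact this

/-- Isotropic vectors in `u^⊥`. -/
lemma iso_perp {x : V} (hx : B.h x x = 0) (h : B.h x u = 0) : ∃ c : K, x = c • u := by
  have h1 := F.perp_u h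
  set a := B.h x w
  set b := B.h x n / B.h n n
  refine ⟨a, ?_⟩
  have h2 : B.h x x = b * B.τ b * B.h n n := by
    rw [h1]
    simp only [B.add_left, B.smul_left, B.add_right, B.smul_right, F.hu.2, F.nu, F.un]
    ring
  rw [hx] at h2
  have h3 : b = 0 := by
    rcases mul_eq_zero.1 h2.symm with h4 | h4
    · rcases mul_eq_zero.1 h4 with h5 | h5
      · exact h5
      · exact (map_eq_zero_iff _ B.τ.injective).1 h5
    · exact absurd h4 F.hn
  rw [h1, h3, zero_smul, add_zero]

lemma h_eq (x y : V) : B.h x y = -(B.h x w * B.τ (B.h y u)) + B.h x u * B.τ (B.h y w) +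
    (B.h x n * B.τ (B.h y n / B.h n n)) := by
  have h1 := F.eq y
  have h2 : B.h x y = B.h x (B.h y w • u + (B.h y n / B.h n n) • n + (-(B.h y u)) • w) := by
    rw [← h1]
  rw [h2]
  simp only [B.add_right, B.smul_right, map_neg]
  ring

end Fr

lemma SForm.Dim3.rk1 {B : SForm K V} (hB : B.Dim3) : B.Rk1 := by
  refine ⟨hB.1, fun u w hu hw huw => ?_⟩
  have h1 : B.τ (B.h u w)⁻¹ ≠ 0 := (map_ne_zero_iff _ B.τ.injective).2 (inv_ne_zero huw)
  obtain ⟨n, F⟩ := hB.2 u (B.τ (B.h u w)⁻¹ • w) hu (hw.smul h1) (by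
    rw [B.smul_right, B.tt, inv_mul_cancel₀ huw])
  refine ⟨n, F.n0, F.nu, ?_⟩
  have h2 := F.nw
  rw [B.smul_right, B.tt] at h2
  exact (mul_eq_zero.1 h2).resolve_left (inv_ne_zero huw)

variable {B : SForm K V} {p : ℕ} [hp : Fact p.Prime] [CharP K p] {G : Type} [Group G]

namespace Rep

variable (D : Rep B p G)

include hp in
lemma ex_sx {u v : V} (hu : B.h u u = 0) (hv : B.h v u = 0) {c : K} (hc : c - B.τ c = B.h v v) :
    ∃ g, D.ρ g = sgL B u v c := by
  have huv := B.zero_symm hv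
  refine D.ex _ (sgL_iso B hu hv hc) (unip_pow p ?_)
  ext x
  have e1 : ∀ y, (sgL B u v c - 1) y = B.h y u • v + B.h y v • u + (c * B.h y u) • u := by
    intro y
    change sgL B u v c y - y = _
    rw [sgL_apply]
    abel
  change (sgL B u v c - 1) ((sgL B u v c - 1) ((sgL B u v c - 1) x)) = 0
  rw [e1 x, e1, e1]
  simp only [B.add_left, B.smul_left, hu, hv, huv, mul_zero, add_zero, zero_smul, zero_add,
    zero_mul]

open Classical in
/-- Siegel elements. -/
noncomputable def sx (u v : V) (c : K) : G :=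
  if h : B.h u u = 0 ∧ B.h v u = 0 ∧ c - B.τ c = B.h v v then
    (D.ex_sx h.1 h.2.1 h.2.2).choose else 1

lemma sx_apply {u v : V} (hu : B.h u u = 0) (hv : B.h v u = 0) {c : K}
    (hc : c - B.τ c = B.h v v) (x : V) :
    D.ρ (D.sx u v c) x = x + B.h x u • v + B.h x v • u + (c * B.h x u) • u := by
  rw [sx, dif_pos ⟨hu, hv, hc⟩, (D.ex_sx hu hv hc).choose_spec]
  rfl

lemma sx_mem {u v : V} (hu : B.h u u = 0) (hv : B.h v u = 0) {c : K}
    (hc : c - B.τ c = B.h v v) : D.sx u v c ∈ D.QG u := by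
  refine ⟨?_, fun x hx => ⟨B.h x v, ?_⟩⟩
  · rw [D.sx_apply hu hv hc, hu, B.zero_symm hv]
    simp
  · rw [D.sx_apply hu hv hc, hx]
    simp

lemma sx_mul {u v v' : V} (hu : B.h u u = 0) (hv : B.h v u = 0) (hv' : B.h v' u = 0) {c c' : K}
    (hc : c - B.τ c = B.h v v) (hc' : c' - B.τ c' = B.h v' v') :
    D.sx u v c * D.sx u v' c' = D.sx u (v + v') (c + c' + B.h v' v) := by
  apply D.ext
  intro x
  rw [D.mul_apply, D.sx_apply hu hv' hc', D.sx_apply hu hv hc, D.sx_apply hu (by
    rw [B.add_left, hv, hv', add_zero]) (by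
      rw [map_add, map_add, B.add_left, B.add_right, B.add_right, ← hc, ← hc', B.skew v' v]
      ring)]
  simp only [B.add_left, B.smul_left, B.add_right, hu, hv', B.zero_symm hv, smul_add, mul_zero,
    add_zero]
  module

lemma sx_zero {u : V} (hu : B.h u u = 0) {c : K} (hc : B.τ c = c) : D.sx u 0 c = D.tv u c := by
  apply D.ext
  intro x
  rw [D.sx_apply hu (B.zero_left u) (by rw [hc, sub_self, B.zero_left]), D.tv_apply hu hc,
    B.zero_right]
  simp

lemma sx_conj {u v : V} (hu : B.h u u = 0) (hv : B.h v u = 0) {c : K}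
    (hc : c - B.τ c = B.h v v) (g : G) :
    g * D.sx u v c * g⁻¹ = D.sx (D.ρ g u) (D.ρ g v) c := by
  apply D.ext
  intro x
  rw [D.mul_apply, D.mul_apply, D.sx_apply hu hv hc, D.sx_apply (by rw [D.iso, hu])
    (by rw [D.iso, hv]) (by rw [D.iso, hc]), map_add, map_add, map_add, map_smul, map_smul, map_smul,
    D.self_inv_apply, D.iso_inv, D.iso_inv]

lemma sx_scale {u v : V} (hu : B.h u u = 0) (hv : B.h v u = 0) {c : K}
    (hc : c - B.τ c = B.h v v) (b : K) :
    D.sx (b • u) v c = D.sx u (B.τ b • v) (B.τ b * b * c) := by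
  apply D.ext
  intro x
  rw [D.sx_apply (by rw [B.smul_left, B.smul_right, hu, mul_zero, mul_zero])
    (by rw [B.smul_right, hv, mul_zero]) hc, D.sx_apply hu (by rw [B.smul_left, hv, mul_zero]) (by
      rw [map_mul, map_mul, B.tt, B.smul_left, B.smul_right, B.tt, ← hc]; ring), B.smul_right,
    B.smul_right, B.tt]
  module

lemma sx_pow {u v : V} (hu : B.h u u = 0) (hv : B.h v u = 0) {c : K}
    (hc : c - B.τ c = B.h v v) : D.sx u v c ^ p ^ 2 = 1 := D.QG_pow (D.sx_mem hu hv hc)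

/-- Admissible parameters. -/
lemma adm {n : V} (l : K) {c : K} : c - B.τ c = B.h (l • n) (l • n) ↔
    c - B.τ c = l * B.τ l * B.h n n := by
  rw [B.smul_left, B.smul_right, mul_assoc]

variable {u w n : V}

lemma lnu (F : Fr B u w n) (l : K) : B.h (l • n) u = 0 := by rw [B.smul_left, F.nu, mul_zero]

lemma sx_w (F : Fr B u w n) {l c : K} (hc : c - B.τ c = B.h (l • n) (l • n)) :
    D.ρ (D.sx u (l • n) c) w = w - l • n - c • u := by
  rw [D.sx_apply F.hu.2 (lnu F l) hc, F.wu, B.smul_right, F.wn]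
  module

lemma sx_inj (F : Fr B u w n) {l l' c c' : K} (hc : c - B.τ c = B.h (l • n) (l • n))
    (hc' : c' - B.τ c' = B.h (l' • n) (l' • n))
    (h : pj (D.sx u (l • n) c) = pj (D.sx u (l' • n) c')) : l = l' ∧ c = c' := by
  have h1 := D.mk_p_inj ⟨u, F.hu⟩ (D.sx_pow F.hu.2 (lnu F l) hc) (D.sx_pow F.hu.2 (lnu F l') hc') h
  have h2 : D.ρ (D.sx u (l • n) c) w = D.ρ (D.sx u (l' • n) c') w := by rw [h1]
  rw [D.sx_w F hc, D.sx_w F hc'] at h2
  have h3 := congrArg (fun x => B.h x n) h2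
  have h4 := congrArg (fun x => B.h x w) h2
  simp only [B.sub_left, B.smul_left, F.wn, F.un, F.uw, F.nw, F.hw.2, mul_zero, mul_one, zero_sub,
    sub_zero, neg_inj] at h3 h4
  exact ⟨mul_right_cancel₀ F.hn h3, h4⟩

lemma QG_form (F : Fr B u w n) {g : G} (hg : g ∈ D.QG u) : ∃ l c : K,
    c - B.τ c = B.h (l • n) (l • n) ∧ g = D.sx u (l • n) c := by
  obtain ⟨h1, h2⟩ := hg
  set l := -(B.h (D.ρ g w) n / B.h n n) with hl
  set c := -(B.h (D.ρ g w) w) with hc
  have hgwu : B.h (D.ρ g w) u = -1 := by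
    have := D.iso g w u
    rw [h1, F.wu] at this
    exact this
  have hgw : D.ρ g w = w - l • n - c • u := by
    have h3 := F.eq (D.ρ g w)
    rw [hgwu, neg_neg, one_smul] at h3
    rw [h3, hl, hc, neg_smul, neg_smul]
    abel
  have hadm : c - B.τ c = B.h (l • n) (l • n) := by
    have h3 := (D.isoVec g F.hw).2
    rw [hgw] at h3
    simp only [B.sub_left, B.sub_right, B.smul_left, B.smul_right, F.hu.2, F.hw.2, F.uw, F.wu, F.nu,
      F.un, F.nw, F.wn, mul_zero, mul_one, sub_zero, zero_sub] at h3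
    rw [B.smul_left, B.smul_right]
    linear_combination -h3
  refine ⟨l, c, hadm, ?_⟩
  -- uniqueness
  have hq := D.sx_mem F.hu.2 (lnu F l) hadm
  apply D.ext
  intro x
  obtain ⟨a, b, e, rfl⟩ := F.span x
  have key : ∀ q ∈ D.QG u, D.ρ q w = w - l • n - c • u → D.ρ q n = n + (B.τ l * B.h n n) • u := by
    rintro q ⟨h3, h4⟩ h5
    obtain ⟨d, hd⟩ := h4 n F.nu
    have h6 := D.iso q w n
    rw [h5, hd, F.wn] at h6
    simp only [B.sub_left, B.add_right, B.smul_left, B.smul_right, F.hu.2, F.hw.2, F.uw, F.wu, F.nu,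
      F.un, F.nw, F.wn, mul_zero, mul_one, sub_zero, zero_sub, add_zero, zero_add] at h6
    have h7 : B.τ d = -(l * B.h n n) := by linear_combination -h6
    have h8 : d = B.τ l * B.h n n := by
      rw [← B.tt d, h7, map_neg, map_mul, F.hnτ]
      ring
    rw [hd, h8]
  have h5 := key g ⟨h1, h2⟩ hgw
  have h6 := key _ hq (D.sx_w F hadm)
  rw [map_add, map_add, map_add, map_add, map_smul, map_smul, map_smul, map_smul, map_smul, map_smul,
    h1, hq.1, h5, h6, hgw, D.sx_w F hadm]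

lemma Q_form (F : Fr B u w n) {s : Pr G} (hs : s ∈ D.Q u) : ∃ l c : K,
    c - B.τ c = B.h (l • n) (l • n) ∧ s = pj (D.sx u (l • n) c) := by
  obtain ⟨g, hg, rfl⟩ := hs
  obtain ⟨l, c, hc, rfl⟩ := D.QG_form F hg
  exact ⟨l, c, hc, rfl⟩

/-- The group `Q` contains all elements of `p`-power order normalizing the root group. -/
lemma mem_Q_of_p [Finite G] (F : Fr B u w n) {s : Pr G} (hs : Nm (D.A u) s) {k : ℕ}
    (hk : s ^ p ^ k = 1) : s ∈ D.Q u := by
  have hP : IsPGroup p (Subgroup.zpowers s) := by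
    rintro ⟨_, j, rfl⟩
    refine ⟨k, Subtype.ext ?_⟩
    change (s ^ j) ^ p ^ k = 1
    rw [← zpow_natCast, ← _root_.zpow_mul, mul_comm, _root_.zpow_mul, zpow_natCast, hk,
      _root_.one_zpow]
  obtain ⟨H, hH, hHs⟩ := sylow_onto hp.out (pj : G →* Pr G) mk_surjective _ hP
  obtain ⟨g, hg, hgs⟩ : s ∈ H.map pj := by rw [hHs]; exact Subgroup.mem_zpowers s
  obtain ⟨j, hj⟩ := hH ⟨g, hg⟩
  have hj' : g ^ p ^ j = 1 := congrArg Subtype.val hj
  rw [← hgs] at hs ⊢
  obtain ⟨c, hc⟩ := (D.Nm_iff F.hu).1 hs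
  -- roots of unity of `p`-power order
  have hroot : ∀ (a : K), a ^ p ^ j = 1 → a = 1 := by
    intro a ha
    have h6 : (a - 1) ^ p ^ j = 0 := by
      rw [sub_pow_char_pow, ha, one_pow, sub_self]
    exact sub_eq_zero.1 (pow_eq_zero_iff (pow_ne_zero j hp.out.ne_zero) |>.1 h6)
  have hit : ∀ (x : V) (a : K), (∀ k : ℕ, ∃ y : K, D.ρ (g ^ k) x = a ^ k • x + y • u) → x ≠ 0 →
      (∀ b : K, x ≠ b • u) → a = 1 := by
    intro x a h hx hxu
    obtain ⟨y, hy⟩ := h (p ^ j)
    rw [hj', D.one_apply] at hy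
    by_contra hne
    have h1 : a ^ p ^ j ≠ 1 := fun h => hne (hroot a h)
    have h2 : (1 - a ^ p ^ j) • x = y • u := by
      rw [sub_smul, one_smul]
      nth_rewrite 1 [hy]
      abel
    apply hxu ((1 - a ^ p ^ j)⁻¹ * y)
    rw [← smul_smul, ← h2, smul_smul, inv_mul_cancel₀ (sub_ne_zero.2 (Ne.symm h1)), one_smul]
  have hc1 : c = 1 := by
    have h1 : ∀ k : ℕ, D.ρ (g ^ k) u = c ^ k • u := by
      intro k
      induction k with
      | zero => rw [pow_zero, pow_zero, D.one_apply, one_smul]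
      | succ k ih => rw [pow_succ, D.mul_apply, hc, map_smul, ih, smul_smul, pow_succ']
    have h2 := h1 (p ^ j)
    rw [hj', D.one_apply] at h2
    have h3 : (1 - c ^ p ^ j) • u = 0 := by rw [sub_smul, one_smul, ← h2, sub_self]
    exact hroot c (sub_eq_zero.1 ((smul_eq_zero.1 h3).resolve_right F.hu.1)).symm
  subst hc1
  rw [one_smul] at hc
  -- the action on `n`
  have hgn : ∃ a b : K, D.ρ g n = a • n + b • u := by
    have h1 : B.h (D.ρ g n) u = 0 := by
      have := D.iso g n u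
      rw [hc, F.nu] at this
      exact this
    exact ⟨_, _, by rw [add_comm]; exact F.perp_u h1⟩
  obtain ⟨a, b, hab⟩ := hgn
  have ha : a = 1 := by
    refine hit n a ?_ F.n0 ?_
    · intro k
      induction k with
      | zero => exact ⟨0, by rw [pow_zero, pow_zero, D.one_apply, one_smul, zero_smul, add_zero]⟩
      | succ k ih =>
        obtain ⟨y, hy⟩ := ih
        refine ⟨a ^ k * b + y, ?_⟩
        rw [pow_succ', D.mul_apply, hy, map_add, map_smul, map_smul, hc, hab]
        module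
    · intro b h
      have h1 := F.hn
      rw [h, B.smul_left, B.smul_right, F.hu.2, mul_zero, mul_zero] at h1
      exact h1 rfl
  refine ⟨g, ⟨hc, fun x hx => ?_⟩, rfl⟩
  have h1 := F.perp_u hx
  set e := B.h x w
  set f := B.h x n / B.h n n
  refine ⟨f * b, ?_⟩
  rw [h1, map_add, map_smul, map_smul, hc, hab, ha]
  module

end Rep

end Pool.Agent.BSpi.Cls
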