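import Pool.Agent.BSpi.Cls.U3a

set_option autoImplicit false
set_option linter.unusedSimpArgs false
set_option linter.unusedVariables false
set_option linter.unusedSectionVars false

open Matrix Matrix.SpecialLinearGroup
open scoped MatrixGroups

namespace Pool.Agent.BSpi.Cls

open Pool.Agent.BSpi.PSL

/-- Automorphisms of finite fields commute. -/
lemma aut_comm {K : Type} [Field K] [Finite K] (σ τ : K ≃+* K) (x : K) : σ (τ x) = τ (σ x) := by
  by_cases hx : x = 0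
  · rw [hx, map_zero, map_zero, map_zero]
  · obtain ⟨m, hm⟩ := MonoidHom.map_cyclic (Units.map (σ : K →* K))
    have h1 : ∀ y : Kˣ, σ (y : K) = ((y ^ m : Kˣ) : K) := fun y => congrArg Units.val (hm y)
    have h2 := h1 (Units.map (τ : K →* K) (Units.mk0 x hx))
    have h3 := h1 (Units.mk0 x hx)
    change σ (τ x) = _ at h2
    change σ x = _ at h3
    rw [h2, h3, ← map_zpow]
    rfl

/-- Additive maps compatible with enough multiplications are semilinear. -/
lemma ext_hom {K : Type} [Field K] [Finite K] (τ : K ≃+* K) (tt : ∀ a, τ (τ a) = a) (g : K → K)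
    (hadd : ∀ a b, g (a + b) = g a + g b) (hg : ∀ a, g a = 0 → a = 0)
    (hF : ∀ t : K, τ t = t → t ≠ 0 → ∃ k' : K, ∀ l, g (t * l) = k' * g l) {ψ : K} (hψ : τ ψ ≠ ψ)
    (hψg : ∃ k' : K, ∀ l, g (ψ * l) = k' * g l) :
    ∃ ρ : K ≃+* K, ∀ k l, g (k * l) = ρ k * g l := by
  have h0 : g 0 = 0 := by
    have h := hadd 0 0
    rw [add_zero] at h
    exact left_eq_add.1 h
  have hF' : ∀ t : K, τ t = t → ∃ k' : K, ∀ l, g (t * l) = k' * g l := by
    intro t ht
    by_cases h : t = 0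
    · exact ⟨0, fun l => by rw [h, zero_mul, h0, zero_mul]⟩
    · exact hF t ht h
  have hall : ∀ k : K, ∃ k' : K, ∀ l, g (k * l) = k' * g l := by
    intro k
    have h1 : ψ - τ ψ ≠ 0 := sub_ne_zero.2 (Ne.symm hψ)
    set t := (k - τ k) / (ψ - τ ψ) with ht
    have h2 : τ t = t := by
      rw [ht, map_div₀, map_sub, map_sub, tt, tt, ← neg_sub k, ← neg_sub ψ, neg_div_neg_eq]
    have h3 : τ (k - t * ψ) = k - t * ψ := by
      rw [map_sub, map_mul, h2]
      have h4 : t * (ψ - τ ψ) = k - τ k := div_mul_cancel₀ _ h1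
      linear_combination h4
    obtain ⟨a, ha⟩ := hF' t h2
    obtain ⟨b, hb⟩ := hF' _ h3
    obtain ⟨c, hc⟩ := hψg
    refine ⟨b + a * c, fun l => ?_⟩
    have h4 : k * l = (k - t * ψ) * l + t * (ψ * l) := by ring
    rw [h4, hadd, hb, ha, hc]
    ring
  choose ρ hρ using hall
  have h1 : g 1 ≠ 0 := fun h => one_ne_zero (hg 1 h)
  have hρ1 : ∀ k, ρ k * g 1 = g k := fun k => by rw [← hρ, mul_one]
  let R : K →+* K :=
    { toFun := ρ
      map_one' := mul_right_cancel₀ h1 (by rw [hρ1, one_mul])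
      map_mul' := fun a b => mul_right_cancel₀ h1 (by rw [hρ1, mul_assoc, hρ1, ← hρ])
      map_zero' := mul_right_cancel₀ h1 (by rw [hρ1, zero_mul, h0])
      map_add' := fun a b => mul_right_cancel₀ h1 (by rw [hρ1, add_mul, hρ1, hρ1, hadd]) }
  refine ⟨RingEquiv.ofBijective R (Finite.injective_iff_bijective.1 R.injective), fun k l => ?_⟩
  exact hρ k l

variable {K V : Type} [Field K] [AddCommGroup V] [Module K V]
variable {B : SForm K V} {p : ℕ} [hp : Fact p.Prime] [CharP K p] {G : Type} [Group G]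

namespace Rep

variable (D : Rep B p G)

/-- The group contains enough diagonal elements. -/
def Tor : Prop := ∀ u w n, Fr B u w n → ∀ a : K, a ≠ 0 → ∃ g : G, D.ρ g u = a • u ∧
  D.ρ g w = (B.τ a)⁻¹ • w ∧ D.ρ g n = (B.τ a / a) • n

variable {D} {u w n : V} (F : Fr B u w n) {f : MulAut (Pr G)} (hfu : im f (D.A u) = D.A u)
  (hfw : im f (D.A w) = D.A w)

include F hfu

lemma f_Q [Finite G] {s : Pr G} (hs : s ∈ D.Q u) : f s ∈ D.Q u := by
  have h1 := (D.Q_le hs F.hu).im f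
  rw [hfu] at h1
  refine D.mem_Q_of_p F h1 (k := 2) ?_
  obtain ⟨g, hg, rfl⟩ := hs
  rw [← map_pow, ← map_pow, D.QG_pow hg, map_one, map_one]

lemma f_A {t : K} (ht : B.τ t = t) : ∃ t', B.τ t' = t' ∧ f (pj (D.tv u t)) = pj (D.tv u t') := by
  have h1 : f (pj (D.tv u t)) ∈ D.A u := by
    rw [← hfu]
    exact mem_im f _ ((D.mem_A F.hu.2).2 ⟨t, ht, rfl⟩)
  exact (D.mem_A F.hu.2).1 h1

lemma sx_add_tv {l c t : K} (hc : c - B.τ c = B.h (l • n) (l • n)) (ht : B.τ t = t) :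
    D.sx u (l • n) (c + t) = D.sx u (l • n) c * D.tv u t := by
  rw [← D.sx_zero F.hu.2 ht, D.sx_mul F.hu.2 (lnu F l) (B.zero_left u) hc (by
    rw [ht, sub_self, B.zero_left]), add_zero, B.zero_left, add_zero]

lemma exists_g [Finite G] : ∃ g : K → K, ∀ l c : K, c - B.τ c = B.h (l • n) (l • n) →
    ∃ c', c' - B.τ c' = B.h (g l • n) (g l • n) ∧
      f (pj (D.sx u (l • n) c)) = pj (D.sx u (g l • n) c') := by
  have h1 : ∀ l : K, ∃ l' : K, ∀ c : K, c - B.τ c = B.h (l • n) (l • n) →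
      ∃ c', c' - B.τ c' = B.h (l' • n) (l' • n) ∧
        f (pj (D.sx u (l • n) c)) = pj (D.sx u (l' • n) c') := by
    intro l
    obtain ⟨c0, hc0⟩ := B.tr (l • n)
    obtain ⟨l', c0', hc0', h0⟩ := D.Q_form F (f_Q F hfu
      (⟨_, D.sx_mem F.hu.2 (lnu F l) hc0.symm, rfl⟩ : pj (D.sx u (l • n) c0) ∈ D.Q u))
    refine ⟨l', fun c hc => ?_⟩
    have ht : B.τ (c - c0) = c - c0 := by
      rw [map_sub]
      linear_combination -hc - hc0
    obtain ⟨t', ht', h2⟩ := f_A F hfu ht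
    refine ⟨c0' + t', ?_, ?_⟩
    · rw [map_add, ht', ← hc0']
      ring
    · have h3 : c = c0 + (c - c0) := by ring
      rw [h3, sx_add_tv F hfu hc0.symm ht, map_mul, map_mul, h0, h2, sx_add_tv F hfu hc0' ht',
        map_mul]
  choose g hg using h1
  exact ⟨g, hg⟩

variable {g : K → K} (hg : ∀ l c : K, c - B.τ c = B.h (l • n) (l • n) →
    ∃ c', c' - B.τ c' = B.h (g l • n) (g l • n) ∧
      f (pj (D.sx u (l • n) c)) = pj (D.sx u (g l • n) c'))

lemma sx_mul' {l l' c c' : K} (hc : c - B.τ c = B.h (l • n) (l • n))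
    (hc' : c' - B.τ c' = B.h (l' • n) (l' • n)) :
    D.sx u (l • n) c * D.sx u (l' • n) c' =
      D.sx u ((l + l') • n) (c + c' + l' * B.τ l * B.h n n) := by
  rw [D.sx_mul F.hu.2 (lnu F l) (lnu F l') hc hc', add_smul, B.smul_left, B.smul_right, mul_assoc]

lemma adm_add {l l' c c' : K} (hc : c - B.τ c = B.h (l • n) (l • n))
    (hc' : c' - B.τ c' = B.h (l' • n) (l' • n)) :
    (c + c' + l' * B.τ l * B.h n n) - B.τ (c + c' + l' * B.τ l * B.h n n) =
      B.h ((l + l') • n) ((l + l') • n) := by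
  rw [adm] at hc hc' ⊢
  simp only [map_add, map_mul, B.tt, F.hnτ]
  linear_combination hc + hc'

include hg

lemma g_add (a b : K) : g (a + b) = g a + g b := by
  obtain ⟨c, hc⟩ := B.tr (a • n)
  obtain ⟨d, hd⟩ := B.tr (b • n)
  obtain ⟨c', hc', h1⟩ := hg a c hc.symm
  obtain ⟨d', hd', h2⟩ := hg b d hd.symm
  obtain ⟨e', he', h3⟩ := hg (a + b) _ (adm_add F hfu hc.symm hd.symm)
  rw [← sx_mul' F hfu hc.symm hd.symm, map_mul, map_mul, h1, h2, ← map_mul,
    sx_mul' F hfu hc' hd'] at h3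
  exact (D.sx_inj F (adm_add F hfu hc' hd') he' h3).1.symm

lemma g_zero {a : K} (h : g a = 0) : a = 0 := by
  obtain ⟨c, hc⟩ := B.tr (a • n)
  obtain ⟨c', hc', h1⟩ := hg a c hc.symm
  rw [h, zero_smul] at h1 hc'
  rw [B.zero_left, sub_eq_zero] at hc'
  rw [D.sx_zero F.hu.2 hc'.symm] at h1
  have h2 : pj (D.tv u c') ∈ im f (D.A u) := by
    rw [hfu]
    exact (D.mem_A F.hu.2).2 ⟨c', hc'.symm, rfl⟩
  obtain ⟨y, hy, h3⟩ := h2
  obtain ⟨t, ht, rfl⟩ := (D.mem_A F.hu.2).1 hy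
  have h4 : f (pj (D.tv u t)) = f (pj (D.sx u (a • n) c)) := by rw [h1]; exact h3
  have h5 := f.injective h4
  rw [← D.sx_zero F.hu.2 ht, ← zero_smul K n] at h5
  exact (D.sx_inj F (by rw [zero_smul, B.zero_left, ht, sub_self]) hc.symm h5).1.symm

include hfw in
/-- Images of diagonal elements. -/
lemma f_tor (hT : D.Tor) {a : K} (ha : a ≠ 0) : ∃ b k' : K, k' * B.τ k' = B.τ b * b ∧
    (∀ t : K, B.τ t = t → ∀ t', B.τ t' = t' → f (pj (D.tv u t)) = pj (D.tv u t') →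
      f (pj (D.tv u (B.τ a * a * t))) = pj (D.tv u (B.τ b * b * t'))) ∧
    ∀ l c c' : K, c - B.τ c = B.h (l • n) (l • n) → c' - B.τ c' = B.h (g l • n) (g l • n) →
      f (pj (D.sx u (l • n) c)) = pj (D.sx u (g l • n) c') →
      f (pj (D.sx u ((B.τ a * (B.τ a / a) * l) • n) (B.τ a * a * c))) =
        pj (D.sx u ((k' * g l) • n) (B.τ b * b * c')) := by
  obtain ⟨s, hsu, hsw, hsn⟩ := hT u w n F a ha
  have hτa : B.τ a ≠ 0 := (map_ne_zero_iff _ B.τ.injective).2 ha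
  obtain ⟨h, hh⟩ := mk_surjective (f (pj s))
  have h1 : Nm (D.A u) (pj h) := by
    rw [hh]
    have := ((D.Nm_iff F.hu).2 ⟨a, hsu⟩).im f
    rwa [hfu] at this
  have h2 : Nm (D.A w) (pj h) := by
    rw [hh]
    have := ((D.Nm_iff F.hw).2 ⟨_, hsw⟩).im f
    rwa [hfw] at this
  obtain ⟨b, hb⟩ := (D.Nm_iff F.hu).1 h1
  obtain ⟨b', hb'⟩ := (D.Nm_iff F.hw).1 h2
  have hb0 := D.smul_ne F.hu hb
  have hb0' := D.smul_ne F.hw hb'
  obtain ⟨b'', hb''⟩ : ∃ b'' : K, D.ρ h n = b'' • n := by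
    refine ⟨_, F.perp_uw (x := D.ρ h n) ?_ ?_⟩
    · have h3 := D.iso h n u
      rw [hb, B.smul_right, F.nu] at h3
      exact (mul_eq_zero.1 h3).resolve_left ((map_ne_zero_iff _ B.τ.injective).2 hb0)
    · have h3 := D.iso h n w
      rw [hb', B.smul_right, F.nw] at h3
      exact (mul_eq_zero.1 h3).resolve_left ((map_ne_zero_iff _ B.τ.injective).2 hb0')
  have hN : b'' * B.τ b'' = 1 := by
    have h3 := D.iso h n n
    rw [hb'', B.smul_left, B.smul_right, ← mul_assoc] at h3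
    exact mul_right_cancel₀ F.hn (by rw [h3, one_mul])
  refine ⟨b, B.τ b * b'', ?_, ?_, ?_⟩
  · rw [map_mul, B.tt]
    linear_combination (B.τ b * b) * hN
  · intro t ht t' ht' hf
    have e1 : s * D.tv u t * s⁻¹ = D.tv u (B.τ a * a * t) := by
      rw [D.tv_conj F.hu.2 ht, hsu, D.tv_smul F.hu.2 ht, mul_comm a]
    have e2 : h * D.tv u t' * h⁻¹ = D.tv u (B.τ b * b * t') := by
      rw [D.tv_conj F.hu.2 ht', hb, D.tv_smul F.hu.2 ht', mul_comm b]
    rw [← e1, ← e2, map_mul, map_mul, map_inv, map_mul, map_mul, map_inv, map_mul, map_mul, map_inv,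
      hf, hh]
  · intro l c c' hc hc' hf
    have e1 : s * D.sx u (l • n) c * s⁻¹ =
        D.sx u ((B.τ a * (B.τ a / a) * l) • n) (B.τ a * a * c) := by
      rw [D.sx_conj F.hu.2 (lnu F l) hc, hsu, map_smul, hsn, D.sx_scale F.hu.2 (by
        rw [smul_smul]; exact lnu F _) (by rw [← hsn, ← map_smul, D.iso]; exact hc), smul_smul,
        smul_smul]
      congr 2
      ring
    have e2 : h * D.sx u (g l • n) c' * h⁻¹ =
        D.sx u ((B.τ b * b'' * g l) • n) (B.τ b * b * c') := by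
      rw [D.sx_conj F.hu.2 (lnu F _) hc', hb, map_smul, hb'', D.sx_scale F.hu.2 (by
        rw [smul_smul]; exact lnu F _) (by rw [← hb'', ← map_smul, D.iso]; exact hc'), smul_smul,
        smul_smul]
      congr 2
      ring
    rw [← e1, ← e2, map_mul, map_mul, map_inv, map_mul, map_mul, map_inv, map_mul, map_mul, map_inv,
      hf, hh]

end Rep

end Pool.Agent.BSpi.Cls
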