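import Pool.Agent.BSpi.Cls.U3b

set_option autoImplicit false
set_option linter.unusedSimpArgs false
set_option linter.unusedVariables false
set_option linter.unusedSectionVars false

open Matrix Matrix.SpecialLinearGroup
open scoped MatrixGroups

namespace Pool.Agent.BSpi.Cls

open Pool.Agent.BSpi.PSL

variable {K V : Type} [Field K] [AddCommGroup V] [Module K V]
variable {B : SForm K V} {p : ℕ} [hp : Fact p.Prime] [CharP K p] {G : Type} [Group G]

namespace Rep

variable {D : Rep B p G} {u w n : V} (F : Fr B u w n) {f : MulAut (Pr G)}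
  (hfu : im f (D.A u) = D.A u) (hfw : im f (D.A w) = D.A w)

include F in
lemma tv_inj' {a b : K} (ha : B.τ a = a) (hb : B.τ b = b)
    (h : pj (D.tv u a) = pj (D.tv u b)) : a = b := by
  rw [← D.sx_zero F.hu.2 ha, ← D.sx_zero F.hu.2 hb, ← zero_smul K n] at h
  exact (D.sx_inj F (by rw [zero_smul, B.zero_left, ha, sub_self])
    (by rw [zero_smul, B.zero_left, hb, sub_self]) h).2

include F hfu

lemma g_eq {g : K → K} (hg : ∀ l c : K, c - B.τ c = B.h (l • n) (l • n) →
    ∃ c', c' - B.τ c' = B.h (g l • n) (g l • n) ∧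
      f (pj (D.sx u (l • n) c)) = pj (D.sx u (g l • n) c')) {l m c c' : K}
    (hc : c - B.τ c = B.h (l • n) (l • n)) (hc' : c' - B.τ c' = B.h (m • n) (m • n))
    (h : f (pj (D.sx u (l • n) c)) = pj (D.sx u (m • n) c')) : g l = m := by
  obtain ⟨c'', hc'', h1⟩ := hg l c hc
  rw [h] at h1
  exact (D.sx_inj F hc' hc'' h1).1.symm

include hfw

/-- The action of automorphisms on the unipotent group. -/
theorem main_formula [Finite K] [Finite G] (hT : D.Tor) (hK : ∃ b : K, b ≠ 0 ∧ B.τ b ^ 3 ≠ b ^ 3) :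
    ∃ (ρ : K ≃+* K) (e ν : K), e ≠ 0 ∧ ν ≠ 0 ∧ B.τ ν = ν ∧
      ν * ρ (B.h n n) = e * B.τ e * B.h n n ∧
      ∀ l c, c - B.τ c = B.h (l • n) (l • n) →
        ν * ρ c - B.τ (ν * ρ c) = B.h ((ρ l * e) • n) ((ρ l * e) • n) ∧
        f (pj (D.sx u (l • n) c)) = pj (D.sx u ((ρ l * e) • n) (ν * ρ c)) := by
  obtain ⟨g, hg⟩ := exists_g F hfu (f := f)
  obtain ⟨b0, hb0, hb3⟩ := hK
  have hτb0 : B.τ b0 ≠ 0 := (map_ne_zero_iff _ B.τ.injective).2 hb0
  have hη := F.hn
  set η := B.h n n with hηd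
  have hητ : B.τ η = -η := F.hnτ
  -- torus
  have htor : ∀ a : K, a ≠ 0 → ∃ b k' : K, k' * B.τ k' = B.τ b * b ∧
      (∀ t : K, B.τ t = t → ∀ t', B.τ t' = t' → f (pj (D.tv u t)) = pj (D.tv u t') →
        f (pj (D.tv u (B.τ a * a * t))) = pj (D.tv u (B.τ b * b * t'))) ∧
      (∀ l, g (B.τ a * (B.τ a / a) * l) = k' * g l) ∧
      ∀ l c c' : K, c - B.τ c = B.h (l • n) (l • n) → c' - B.τ c' = B.h (g l • n) (g l • n) →
        f (pj (D.sx u (l • n) c)) = pj (D.sx u (g l • n) c') →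
        f (pj (D.sx u ((B.τ a * (B.τ a / a) * l) • n) (B.τ a * a * c))) =
          pj (D.sx u ((k' * g l) • n) (B.τ b * b * c')) := by
    intro a ha
    obtain ⟨b, k', hk', h1, h2⟩ := f_tor F hfu hfw hg hT ha
    refine ⟨b, k', hk', h1, fun l => ?_, h2⟩
    obtain ⟨c, hc⟩ := B.tr (l • n)
    obtain ⟨c', hc', h3⟩ := hg l c hc.symm
    have hτa : B.τ a ≠ 0 := (map_ne_zero_iff _ B.τ.injective).2 ha
    refine g_eq F hfu hg ?_ ?_ (h2 l c c' hc.symm hc' h3)
    · have hc2 := hc.symm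
      rw [adm] at hc2 ⊢
      simp only [map_mul, map_div₀, B.tt]
      field_simp
      linear_combination hc2
    · rw [adm] at hc' ⊢
      simp only [map_mul, B.tt]
      linear_combination (B.τ b * b) * hc' - (g l * B.τ (g l) * B.h n n) * hk'
  have hψ : B.τ (B.τ b0 * (B.τ b0 / b0)) ≠ B.τ b0 * (B.τ b0 / b0) := by
    intro h
    apply hb3
    rw [map_mul, map_div₀, B.tt] at h
    field_simp at h
    linear_combination -h
  obtain ⟨ρ, hρ⟩ := ext_hom B.τ B.tt g (g_add F hfu hg) (fun a ha => g_zero F hfu hg ha)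
    (fun t ht ht0 => by
      obtain ⟨b, k', -, -, h3, -⟩ := htor t ht0
      refine ⟨k', fun l => ?_⟩
      have h4 := h3 l
      rw [ht, div_self ht0, mul_one] at h4
      exact h4) hψ (by
      obtain ⟨b, k', -, -, h3, -⟩ := htor b0 hb0
      exact ⟨k', h3⟩)
  set e := g 1 with he
  have hge : ∀ l, g l = ρ l * e := fun l => by rw [he, ← hρ, mul_one]
  have he0 : e ≠ 0 := fun h => one_ne_zero (g_zero F hfu hg h)
  have hρη : ρ η ≠ 0 := (map_ne_zero_iff _ ρ.injective).2 hη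
  have hτe : B.τ e ≠ 0 := (map_ne_zero_iff _ B.τ.injective).2 he0
  set ν := e * B.τ e * η / ρ η with hν
  have hνη : ν * ρ η = e * B.τ e * η := div_mul_cancel₀ _ hρη
  have hν0 : ν ≠ 0 := div_ne_zero (mul_ne_zero (mul_ne_zero he0 hτe) hη) hρη
  have hτρη : B.τ (ρ η) = - ρ η := by rw [aut_comm, hητ, map_neg]
  have hτν : B.τ ν = ν := by
    rw [hν, map_div₀, map_mul, map_mul, B.tt, hητ, hτρη, mul_neg, neg_div_neg_eq, mul_comm e]
  -- the action on transvections
  have hA : ∀ t, B.τ t = t → f (pj (D.tv u t)) = pj (D.tv u (ν * ρ t)) := by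
    have key : ∀ k : K, f (pj (D.tv u (η * (k - B.τ k)))) =
        pj (D.tv u (ν * ρ (η * (k - B.τ k)))) := by
      intro k
      obtain ⟨c, hc⟩ := B.tr ((1 : K) • n)
      obtain ⟨d, hd⟩ := B.tr (k • n)
      obtain ⟨c', hc', h1⟩ := hg 1 c hc.symm
      obtain ⟨d', hd', h2⟩ := hg k d hd.symm
      have t1 : B.τ (η * (k - B.τ k)) = η * (k - B.τ k) := by
        rw [map_mul, map_sub, B.tt, hητ]; ring
      have t2 : B.τ (ν * ρ (η * (k - B.τ k))) = ν * ρ (η * (k - B.τ k)) := by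
        rw [map_mul, hτν, aut_comm, t1]
      have e1 : D.sx u ((1 : K) • n) c * D.sx u (k • n) d =
          D.sx u (k • n) d * D.sx u ((1 : K) • n) c * D.tv u (η * (k - B.τ k)) := by
        rw [sx_mul' F hfu hc.symm hd.symm, sx_mul' F hfu hd.symm hc.symm,
          ← sx_add_tv F hfu (adm_add F hfu hd.symm hc.symm) t1, add_comm k]
        congr 1
        rw [map_one]
        ring
      have e2 : D.sx u (g 1 • n) c' * D.sx u (g k • n) d' =
          D.sx u (g k • n) d' * D.sx u (g 1 • n) c' * D.tv u (ν * ρ (η * (k - B.τ k))) := by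
        rw [sx_mul' F hfu hc' hd', sx_mul' F hfu hd' hc',
          ← sx_add_tv F hfu (adm_add F hfu hd' hc') t2, add_comm (g k)]
        congr 1
        rw [hge 1, hge k, map_one, one_mul, map_mul ρ, map_mul B.τ, ← mul_assoc ν, hνη, map_sub,
          aut_comm B.τ ρ]
        ring
      have e3 := congrArg (fun s => f (pj s)) e1
      simp only [map_mul] at e3
      rw [h1, h2, ← map_mul, e2, map_mul, map_mul] at e3
      exact (mul_left_cancel e3).symm
    intro t ht
    have hb1 : B.τ b0 ≠ b0 := fun h => hb3 (by rw [h])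
    have hb2 : b0 - B.τ b0 ≠ 0 := sub_ne_zero.2 (Ne.symm hb1)
    have hb4 : B.τ b0 - b0 ≠ 0 := sub_ne_zero.2 hb1
    have h1 : η * (t / η * b0 / (b0 - B.τ b0) - B.τ (t / η * b0 / (b0 - B.τ b0))) = t := by
      simp only [map_div₀, map_mul, map_sub, B.tt, ht, hητ]
      have h2 : B.τ b0 - b0 = -(b0 - B.τ b0) := by ring
      rw [h2]
      field_simp
    have h2 := key (t / η * b0 / (b0 - B.τ b0))
    rw [h1] at h2
    exact h2
  -- an element of norm one
  obtain ⟨a, ha0, haN, ha3⟩ : ∃ a : K, a ≠ 0 ∧ B.τ a * a = 1 ∧ a ^ 3 ≠ 1 := by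
    refine ⟨B.τ b0 / b0, div_ne_zero hτb0 hb0, ?_, ?_⟩
    · rw [map_div₀, B.tt]
      field_simp
    · rw [div_pow]
      intro h
      exact hb3 ((div_eq_one_iff_eq (pow_ne_zero 3 hb0)).1 h)
  obtain ⟨b, k', hk', htA, htg, htf⟩ := htor a ha0
  have hbN : B.τ b * b = 1 := by
    have h1 := htA 1 (map_one _) _ (by rw [map_one, mul_one]; exact hτν) (hA 1 (map_one _))
    rw [haN, one_mul, hA 1 (map_one _), map_one, mul_one] at h1
    have h2 := tv_inj' F hτν (by rw [map_mul, map_mul, B.tt, hτν]; ring) h1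
    exact (mul_right_cancel₀ hν0 (by rw [← h2, one_mul])).symm
  have hτa : B.τ a = a⁻¹ := eq_inv_of_mul_eq_one_left haN
  set ψ := B.τ a * (B.τ a / a) with hψd
  have hψ1 : ψ - 1 ≠ 0 := by
    rw [hψd, hτa, sub_ne_zero]
    intro h
    apply ha3
    field_simp at h
    rw [pow_succ, pow_two]
    linear_combination -h
  refine ⟨ρ, e, ν, he0, hν0, hτν, hνη, fun m cm hcm => ?_⟩
  obtain ⟨cm', hcm', hfm⟩ := hg m cm hcm
  suffices hcc : cm' = ν * ρ cm by
    rw [← hcc, ← hge]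
    exact ⟨hcm', hfm⟩
  set l := m / (ψ - 1) with hl
  have hml : m + l = ψ * l := by
    rw [hl]
    field_simp
    ring
  obtain ⟨c, hc⟩ := B.tr (l • n)
  obtain ⟨c', hc', hfl⟩ := hg l c hc.symm
  have h1 := htf l c c' hc.symm hc' hfl
  rw [haN, hbN, one_mul, one_mul, ← htg] at h1
  have hadm := adm_add F hfu hcm hc.symm
  have hadmψ : c - B.τ c = B.h ((ψ * l) • n) ((ψ * l) • n) := by
    have h2 := hc.symm
    rw [adm] at h2 ⊢
    have h3 : ψ * B.τ ψ = 1 := by
      rw [hψd, map_mul, map_div₀, B.tt]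
      have hτa0 : B.τ a ≠ 0 := by rw [hτa]; exact inv_ne_zero ha0
      field_simp
      exact haN
    rw [map_mul]
    linear_combination h2 - (l * B.τ l * B.h n n) * h3
  have ht : B.τ (cm + l * B.τ m * η) = cm + l * B.τ m * η := by
    rw [hml] at hadm
    rw [← hadmψ] at hadm
    rw [map_add, map_add] at hadm
    rw [map_add]
    linear_combination -hadm
  have hprod : D.sx u (m • n) cm * D.sx u (l • n) c =
      D.sx u ((ψ * l) • n) c * D.tv u (cm + l * B.τ m * η) := by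
    rw [sx_mul' F hfu hcm hc.symm, ← sx_add_tv F hfu hadmψ ht, hml]
    congr 1
    ring
  have h2 := congrArg (fun s => f (pj s)) hprod
  simp only [map_mul] at h2
  have hc'ψ : c' - B.τ c' = B.h (g (ψ * l) • n) (g (ψ * l) • n) := by
    rw [htg]
    rw [adm] at hc' ⊢
    rw [map_mul]
    linear_combination hc' - (g l * B.τ (g l) * B.h n n) * (hk'.trans hbN)
  have ht' : B.τ (ν * ρ (cm + l * B.τ m * η)) = ν * ρ (cm + l * B.τ m * η) := by
    rw [map_mul, hτν, aut_comm, ht]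
  have hadm2 : (c' + ν * ρ (cm + l * B.τ m * η)) - B.τ (c' + ν * ρ (cm + l * B.τ m * η)) =
      B.h (g (ψ * l) • n) (g (ψ * l) • n) := by
    rw [map_add B.τ, ht', ← hc'ψ]
    ring
  rw [hfm, hfl, h1, hA _ ht, ← map_mul, ← map_mul, sx_mul' F hfu hcm' hc',
    ← sx_add_tv F hfu hc'ψ ht', ← g_add F hfu hg, hml] at h2
  have h3 := (D.sx_inj F (by
    have := adm_add F hfu hcm' hc'
    rw [← g_add F hfu hg, hml] at this
    exact this) hadm2 h2).2
  rw [hge l, hge m, map_mul B.τ, map_add ρ, map_mul ρ, map_mul ρ, ← aut_comm B.τ ρ] at h3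
  linear_combination h3 + (ρ l * B.τ (ρ m)) * hνη

end Rep

end Pool.Agent.BSpi.Cls
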