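import Pool.Agent.BSpi.Cls.U3c

set_option autoImplicit false
set_option linter.unusedSimpArgs false
set_option linter.unusedVariables false
set_option linter.unusedSectionVars false

open Matrix Matrix.SpecialLinearGroup
open scoped MatrixGroups

namespace Pool.Agent.BSpi.Cls

open Pool.Agent.BSpi.PSL

variable {K V : Type} [Field K] [AddCommGroup V] [Module K V]
variable {B : SForm K V} {p : ℕ} [hp : Fact p.Prime] [CharP K p] {G : Type} [Group G]

namespace Rep

/-- Semilinear similitudes inducing an automorphism. -/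
structure Semi (D : Rep B p G) (f : MulAut (Pr G)) where
  ρ : K ≃+* K
  T : V → V
  κ : K
  κ0 : κ ≠ 0
  κτ : B.τ κ = κ
  add : ∀ x y, T (x + y) = T x + T y
  smul : ∀ (a : K) x, T (a • x) = ρ a • T x
  iso : ∀ x y, B.h (T x) (T y) = κ * ρ (B.h x y)
  act : ∀ y, B.Iso y → im f (D.A y) = D.A (T y)

variable {D : Rep B p G} {u w n : V}

lemma semi_of_fix (F : Fr B u w n) {f : MulAut (Pr G)} (hfu : im f (D.A u) = D.A u)
    (hfw : im f (D.A w) = D.A w) [Finite K] [Finite G] (hT : D.Tor)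
    (hK : ∃ b : K, b ≠ 0 ∧ B.τ b ^ 3 ≠ b ^ 3) : Nonempty (Semi D f) := by
  obtain ⟨ρ, e, ν, he0, hν0, hτν, hνη, hf⟩ := main_formula F hfu hfw hT hK
  have hη := F.hn
  have hκν : ν⁻¹ * ν = 1 := inv_mul_cancel₀ hν0
  set κ := ν⁻¹ with hκ
  have hκτ : B.τ κ = κ := by rw [hκ, map_inv₀, hτν]
  let T : V → V := fun x => ρ (B.h x w) • u + (κ * e * ρ (B.h x n / B.h n n)) • n +
    (κ * ρ (-(B.h x u))) • w
  have hTx : ∀ x, T x = ρ (B.h x w) • u + (κ * e * ρ (B.h x n / B.h n n)) • n +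
    (κ * ρ (-(B.h x u))) • w := fun x => rfl
  have hadd : ∀ x y, T (x + y) = T x + T y := by
    intro x y
    rw [hTx, hTx, hTx, B.add_left, B.add_left, B.add_left, neg_add, add_div, map_add, map_add, map_add]
    module
  have hsmul : ∀ (a : K) x, T (a • x) = ρ a • T x := by
    intro a x
    rw [hTx, hTx, B.smul_left, B.smul_left, B.smul_left, mul_div_assoc, ← mul_neg, map_mul, map_mul,
      map_mul]
    module
  have hTu : T u = u := by
    rw [hTx, F.uw, F.un, F.hu.2, zero_div, neg_zero, map_zero, map_one]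
    simp
  have hiso : ∀ x y, B.h (T x) (T y) = κ * ρ (B.h x y) := by
    intro x y
    rw [F.h_eq x y, hTx, hTx]
    simp only [B.add_left, B.add_right, B.smul_left, B.smul_right, F.hu.2, F.hw.2, F.uw, F.wu, F.nu,
      F.un, F.nw, F.wn, mul_zero, mul_one, add_zero, zero_add, map_mul, map_add, map_neg, map_div₀,
      hκτ, aut_comm B.τ ρ]
    have h1 : ρ (B.h n n) ≠ 0 := (map_ne_zero_iff _ ρ.injective).2 hη
    have h2 : ρ (B.τ (B.h n n)) ≠ 0 := (map_ne_zero_iff _ ρ.injective).2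
      ((map_ne_zero_iff _ B.τ.injective).2 hη)
    have h3 : κ * (e * B.τ e * B.h n n) = ρ (B.h n n) := by
      rw [← hνη, ← mul_assoc, hκν, one_mul]
    have h4 : κ * e * (ρ (B.h x n) / ρ (B.h n n)) * (κ * B.τ e * (ρ (B.τ (B.h y n)) /
        ρ (B.τ (B.h n n))) * B.h n n) = κ * (ρ (B.h x n) * (ρ (B.τ (B.h y n)) /
        ρ (B.τ (B.h n n)))) := by
      have h5 : κ * e * (ρ (B.h x n) / ρ (B.h n n)) * (κ * B.τ e * (ρ (B.τ (B.h y n)) /
        ρ (B.τ (B.h n n))) * B.h n n) = κ * (κ * (e * B.τ e * B.h n n)) *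
          (ρ (B.h x n) / ρ (B.h n n)) * (ρ (B.τ (B.h y n)) / ρ (B.τ (B.h n n))) := by ring
      rw [h5, h3]
      field_simp
    linear_combination h4
  refine ⟨⟨ρ, T, κ, inv_ne_zero hν0, hκτ, hadd, hsmul, hiso, ?_⟩⟩
  · intro y hy
    by_cases h : B.h y u = 0
    · obtain ⟨c, rfl⟩ := F.iso_perp hy.2 h
      have hc : c ≠ 0 := by
        rintro rfl
        exact hy.1 (zero_smul _ _)
      rw [hsmul, hTu, D.A_smul F.hu.2 hc, D.A_smul F.hu.2 ((map_ne_zero_iff _ ρ.injective).2 hc), hfu]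
    · set a := -(B.h y u)⁻¹ with ha
      have ha0 : a ≠ 0 := neg_ne_zero.2 (inv_ne_zero h)
      have hy' : B.Iso (a • y) := hy.smul ha0
      have hyu : B.h (a • y) u = -1 := by rw [B.smul_left, ha, neg_mul, inv_mul_cancel₀ h]
      have hAy : D.A (a • y) = D.A y := D.A_smul hy.2 ha0
      have hTy : D.A (T (a • y)) = D.A (T y) := by
        have hTyI : B.h (T y) (T y) = 0 := by rw [hiso, hy.2, map_zero, mul_zero]
        rw [hsmul, D.A_smul hTyI ((map_ne_zero_iff _ ρ.injective).2 ha0)]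
      rw [← hAy, ← hTy]
      set z := a • y with hz
      have hzeq := F.eq z
      rw [hyu, neg_neg, one_smul] at hzeq
      set l := -(B.h z n / B.h n n) with hl
      set c := -(B.h z w) with hc
      have hadm : c - B.τ c = B.h (l • n) (l • n) := by
        have h1 := hy'.2
        rw [hzeq] at h1
        simp only [B.add_left, B.add_right, B.smul_left, B.smul_right, F.hu.2, F.hw.2, F.uw, F.wu,
            F.nu, F.un, F.nw, F.wn, mul_zero, mul_one, add_zero, zero_add] at h1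
        rw [B.smul_left, B.smul_right, hc, hl, map_neg, map_neg]
        linear_combination -h1
      obtain ⟨hadm', hfx⟩ := hf l c hadm
      have e1 : D.ρ (D.sx u (l • n) c) w = z := by
        rw [D.sx_w F hadm, hl, hc, neg_smul, neg_smul]
        refine Eq.trans ?_ hzeq.symm
        abel
      have e2 : T z = κ • D.ρ (D.sx u ((ρ l * e) • n) (ν * ρ c)) w := by
        rw [D.sx_w F hadm', hTx, hyu, neg_neg, map_one, mul_one, hl, hc, map_neg, map_neg]
        have h3 : κ • ((ν * -ρ (B.h z w)) • u) = (-(ρ (B.h z w))) • u := by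
          rw [smul_smul, ← mul_assoc, hκν, one_mul]
        rw [smul_sub, smul_sub, h3]
        module
      rw [e2, D.A_smul (by rw [D.iso]; exact F.hw.2) (inv_ne_zero hν0), ← D.A_conj F.hw.2, ← hfx, ← e1,
        ← D.A_conj F.hw.2, im_conj, hfw]

/-- All automorphisms are induced by semilinear similitudes. -/
theorem exists_semi [Finite K] [Finite V] [Finite G] (hB : B.Dim3) (hT : D.Tor)
    (hK : ∃ b : K, b ≠ 0 ∧ B.τ b ^ 3 ≠ b ^ 3) (f : MulAut (Pr G)) : Nonempty (Semi D f) := by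
  obtain ⟨u, hu⟩ := hB.1
  obtain ⟨w, hw, huw⟩ := SForm.partner hu
  obtain ⟨n, F⟩ := hB.2 u w hu hw huw
  have hτ : (∃ l, B.τ l ≠ l) ∨ (2 : K) ≠ 0 := by
    obtain ⟨b, -, hb⟩ := hK
    exact Or.inl ⟨b, fun h => hb (by rw [h])⟩
  obtain ⟨u1, hu1, hfu⟩ := D.pres_all hB.rk1 hτ f _ ⟨u, hu, rfl⟩
  obtain ⟨w1, hw1, hfw⟩ := D.pres_all hB.rk1 hτ f _ ⟨w, hw, rfl⟩
  obtain ⟨s, hs⟩ := D.transitive hu1 hu
  have hAw : im (MulAut.conj (pj s)) (im f (D.A w)) = D.A (D.ρ s w1) := by
    rw [hfw, D.A_conj hw1.2]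
  have hw2 := D.isoVec s hw1
  set w2 := D.ρ s w1 with hw2d
  have hne : B.h u w2 ≠ 0 := by
    intro h0
    obtain ⟨c, hc⟩ := F.iso_perp hw2.2 (B.zero_symm h0)
    have hc0 : c ≠ 0 := by
      rintro rfl
      exact hw2.1 (by rw [hc, zero_smul])
    have h1 : im (MulAut.conj (pj s)) (im f (D.A w)) = im (MulAut.conj (pj s)) (im f (D.A u)) := by
      rw [hAw, hc, D.A_smul hu.2 hc0, hfu, hs]
    have h2 := im_injective f (im_injective _ h1)
    obtain ⟨d, hd⟩ := D.A_inj hw hu h2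
    rw [hd, B.smul_right, hu.2, mul_zero] at huw
    exact zero_ne_one huw
  obtain ⟨c, hc, hcI, hc1⟩ := scale_one (B := B) hw2 hne
  obtain ⟨q, hq, hqw⟩ := D.exists_siegel hu hcI (w' := -w) (by
    have := hw.smul (a := (-1 : K)) (neg_ne_zero.2 one_ne_zero)
    rwa [neg_one_smul] at this) hc1 (by rw [B.neg_left, F.wu, neg_neg])
  set t := pj (q * s) with ht
  have hg : ∀ A : Subgroup (Pr G), im (MulAut.conj t * f) A =
      im (MulAut.conj (pj q)) (im (MulAut.conj (pj s)) (im f A)) := by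
    intro A
    rw [ht, map_mul, map_mul, im_mul, im_mul]
  have hgu : im (MulAut.conj t * f) (D.A u) = D.A u := by
    rw [hg, hfu, hs]
    exact D.Q_le ⟨q, hq, rfl⟩ hu
  have hgw : im (MulAut.conj t * f) (D.A w) = D.A w := by
    rw [hg, hAw, ← D.A_smul hw2.2 hc, D.A_conj hcI.2, hqw, ← neg_one_smul K w,
      D.A_smul hw.2 (neg_ne_zero.2 one_ne_zero)]
  obtain ⟨⟨ρ, T, κ, h1, h2, h3, h4, h5, h6⟩⟩ := semi_of_fix F hgu hgw hT hK
  refine ⟨⟨ρ, fun x => D.ρ (q * s)⁻¹ (T x), κ, h1, h2, fun x y => by rw [h3, map_add],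
    fun a x => by rw [h4, map_smul], fun x y => by rw [D.iso, h5], fun y hy => ?_⟩⟩
  have hTy : B.h (T y) (T y) = 0 := by rw [h5, hy.2, map_zero, mul_zero]
  rw [← D.A_conj hTy, ← h6 y hy, ← im_mul, map_inv, map_inv, ← ht, inv_mul_cancel_left]

variable {f : MulAut (Pr G)} (M : Semi D f)

namespace Semi

include M

lemma zero : M.T 0 = 0 := by
  have h := M.add 0 0
  rw [add_zero] at h
  exact left_eq_add.1 h

lemma ne_zero {x : V} (hx : x ≠ 0) : M.T x ≠ 0 := by
  intro h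
  apply hx
  refine B.nondeg x fun y => ?_
  have h1 := M.iso x y
  rw [h, B.zero_left] at h1
  exact (map_eq_zero_iff _ M.ρ.injective).1 ((mul_eq_zero.1 h1.symm).resolve_left M.κ0)

lemma sub (x y : V) : M.T (x - y) = M.T x - M.T y := by
  have h := M.add (x - y) y
  rw [sub_add_cancel] at h
  rw [h, add_sub_cancel_right]

lemma injective : Function.Injective M.T := by
  intro x y h
  by_contra hne
  apply M.ne_zero (sub_ne_zero.2 hne)
  rw [M.sub, h, sub_self]

lemma surjective [Finite V] : Function.Surjective M.T :=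
  Finite.injective_iff_surjective.1 M.injective

lemma isoVec {x : V} (hx : B.Iso x) : B.Iso (M.T x) :=
  ⟨M.ne_zero hx.1, by rw [M.iso, hx.2, map_zero, mul_zero]⟩

lemma iso_of {x : V} (hx : B.Iso (M.T x)) : B.Iso x := by
  refine ⟨fun h => hx.1 (by rw [h, M.zero]), ?_⟩
  have h1 := hx.2
  rw [M.iso] at h1
  exact (map_eq_zero_iff _ M.ρ.injective).1 ((mul_eq_zero.1 h1).resolve_left M.κ0)

/-- The images of elements. -/
lemma apply [Finite V] (hB : B.Rk1) {g g' : G} (h : ∀ x, M.T (D.ρ g x) = D.ρ g' (M.T x)) :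
    f (pj g) = pj g' := by
  obtain ⟨z, hz⟩ := mk_surjective ((pj g')⁻¹ * f (pj g))
  have h1 : ∀ u, B.Iso u → ∃ l : K, D.ρ z u = l • u := by
    intro y hy
    obtain ⟨x, rfl⟩ := M.surjective y
    have hx := M.iso_of hy
    rw [← D.Nm_iff hy, hz, Nm, map_mul, im_mul, ← M.act x hx, ← im_conj, D.A_conj hx.2,
      M.act _ (D.isoVec g hx), h, ← D.A_conj hy.2, ← im_mul, ← map_mul, inv_mul_cancel, map_one,
      im_one, M.act x hx]
  obtain ⟨l, hl⟩ := D.scalar_of_fix hB.1 h1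
  have h2 := mk_eq_one.2 (D.center_of_scalar hl)
  rw [hz] at h2
  exact (inv_mul_eq_one.1 h2).symm

end Semi

end Rep

end Pool.Agent.BSpi.Cls
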