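import Pool.Agent.BSpi.Cls.U3d
import Pool.Agent.BSpi.PSL.H90

set_option autoImplicit false
set_option linter.unusedSimpArgs false
set_option linter.unusedVariables false
set_option linter.unusedSectionVars false

open Matrix Matrix.SpecialLinearGroup
open scoped MatrixGroups

namespace Pool.Agent.BSpi.Cls

open Pool.Agent.BSpi.PSL

variable {K V : Type} [Field K] [AddCommGroup V] [Module K V]
variable {B : SForm K V} {p : ℕ} [hp : Fact p.Prime] [CharP K p] {G : Type} [Group G]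

/-- Norms are surjective onto the fixed field. -/
lemma SForm.norm_surj [Finite K] (B : SForm K V) (hK : ∃ b : K, b ≠ 0 ∧ B.τ b ^ 3 ≠ b ^ 3) {x : K}
    (hx0 : x ≠ 0) (hx : B.τ x = x) : ∃ y : K, y ≠ 0 ∧ y * B.τ y = x := by
  obtain ⟨b, -, hb⟩ := hK
  obtain ⟨y, hy, h⟩ := nm_surj (σ := B.τ) (r := 2) Nat.prime_two
    (by
      ext x
      rw [pow_two]
      exact B.tt x)
    (fun h => hb (by rw [h]; rfl)) hx0 hx
  refine ⟨y, hy, ?_⟩
  rw [nm, Finset.prod_range_succ, Finset.prod_range_succ, Finset.prod_range_zero, one_mul,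
    pow_zero, pow_one] at h
  exact h

/-- A third element of the fixed field. -/
lemma SForm.exists_third (B : SForm K V) (hK : ∃ b : K, b ≠ 0 ∧ B.τ b ^ 3 ≠ b ^ 3) :
    ∃ t : K, B.τ t = t ∧ t ≠ 0 ∧ t ≠ 1 := by
  obtain ⟨b, hb0, hb⟩ := hK
  by_contra hcon
  push Not at hcon
  have h1 : (-1 : K) = 1 := hcon (-1) (by rw [map_neg, map_one]) (neg_ne_zero.2 one_ne_zero)
  have hτb : B.τ b ≠ 0 := (map_ne_zero_iff _ B.τ.injective).2 hb0
  have h2 : b * B.τ b = 1 := hcon _ (by rw [map_mul, B.tt, mul_comm]) (mul_ne_zero hb0 hτb)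
  by_cases h3 : b + B.τ b = 0
  · apply hb
    have h4 : B.τ b = b := by linear_combination h3 + b * h1
    rw [h4]
  · have h4 := hcon _ (by rw [map_add, B.tt, add_comm]) h3
    apply hb
    have h5 : b ^ 3 = -1 := by
      have h6 : B.τ b = 1 - b := by linear_combination h4
      rw [h6] at h2
      linear_combination (-(b + 1)) * h2
    rw [← map_pow, h5, map_neg, map_one]

namespace Rep

variable {D : Rep B p G} {u w n : V}

namespace Semi

variable {f : MulAut (Pr G)} (M : Semi D f)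

/-- Scaling. -/
def scale {μ : K} (hμ : μ ≠ 0) : Semi D f where
  ρ := M.ρ
  T := fun x => μ • M.T x
  κ := μ * B.τ μ * M.κ
  κ0 := mul_ne_zero (mul_ne_zero hμ ((map_ne_zero_iff _ B.τ.injective).2 hμ)) M.κ0
  κτ := by rw [map_mul, map_mul, B.tt, M.κτ, mul_comm μ]
  add := fun x y => by rw [M.add, smul_add]
  smul := fun a x => by rw [M.smul, smul_comm]
  iso := fun x y => by rw [B.smul_left, B.smul_right, M.iso]; ring
  act := fun y hy => by
    have hTy : B.h (M.T y) (M.T y) = 0 := by rw [M.iso, hy.2, map_zero, mul_zero]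
    rw [M.act y hy, D.A_smul hTy hμ]

lemma iter_smul (k : ℕ) (a : K) (x : V) : M.T^[k] (a • x) = (M.ρ ^ k) a • M.T^[k] x := by
  induction k with
  | zero => rfl
  | succ k ih =>
    rw [Function.iterate_succ_apply', ih, M.smul, Function.iterate_succ_apply', pow_succ']
    rfl

lemma iter_add (k : ℕ) (x y : V) : M.T^[k] (x + y) = M.T^[k] x + M.T^[k] y := by
  induction k with
  | zero => rfl
  | succ k ih => rw [Function.iterate_succ_apply', ih, M.add, Function.iterate_succ_apply',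
      Function.iterate_succ_apply']

lemma iter_iso (k : ℕ) : ∃ κ : K, κ ≠ 0 ∧ ∀ x y, B.h (M.T^[k] x) (M.T^[k] y) =
    κ * (M.ρ ^ k) (B.h x y) := by
  induction k with
  | zero => exact ⟨1, one_ne_zero, fun x y => by rw [one_mul]; rfl⟩
  | succ k ih =>
    obtain ⟨κ, hκ, h⟩ := ih
    refine ⟨M.κ * M.ρ κ, mul_ne_zero M.κ0 ((map_ne_zero_iff _ M.ρ.injective).2 hκ), fun x y => ?_⟩
    rw [Function.iterate_succ_apply', Function.iterate_succ_apply', M.iso, h, map_mul, pow_succ',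
      ← mul_assoc]
    rfl

lemma iter_isoVec (k : ℕ) {x : V} (hx : B.Iso x) : B.Iso (M.T^[k] x) := by
  induction k with
  | zero => exact hx
  | succ k ih => rw [Function.iterate_succ_apply']; exact M.isoVec ih

lemma iter_act (k : ℕ) {y : V} (hy : B.Iso y) : im (f ^ k) (D.A y) = D.A (M.T^[k] y) := by
  induction k with
  | zero => rw [pow_zero, im_one]; rfl
  | succ k ih => rw [pow_succ', im_mul, ih, M.act _ (M.iter_isoVec k hy), Function.iterate_succ_apply']

/-- Semilinear similitudes fixing all points are scalars. -/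
lemma scalar_of_fix [Finite K] (hB : B.Dim3) (hK : ∃ b : K, b ≠ 0 ∧ B.τ b ^ 3 ≠ b ^ 3) {k : ℕ}
    (hfix : ∀ y, B.Iso y → ∃ c : K, M.T^[k] y = c • y) :
    M.ρ ^ k = 1 ∧ ∃ a : K, ∀ x, M.T^[k] x = a • x := by
  obtain ⟨u, hu⟩ := hB.1
  obtain ⟨w, hw, huw⟩ := SForm.partner hu
  obtain ⟨n, F⟩ := hB.2 u w hu hw huw
  obtain ⟨κ, hκ, hiso⟩ := M.iter_iso k
  obtain ⟨a, ha⟩ := hfix u hu
  obtain ⟨b, hb⟩ := hfix w hw
  have ha0 : a ≠ 0 := by
    rintro rfl
    exact (M.iter_isoVec k hu).1 (by rw [ha, zero_smul])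
  have hb0 : b ≠ 0 := by
    rintro rfl
    exact (M.iter_isoVec k hw).1 (by rw [hb, zero_smul])
  set σ := M.ρ ^ k with hσ
  set T := M.T^[k] with hT
  have hTn : ∃ d : K, T n = d • n := by
    refine ⟨_, F.perp_uw ?_ ?_⟩
    · have h1 := hiso n u
      rw [ha, F.nu, map_zero, mul_zero, B.smul_right] at h1
      exact (mul_eq_zero.1 h1).resolve_left ((map_ne_zero_iff _ B.τ.injective).2 ha0)
    · have h1 := hiso n w
      rw [hb, F.nw, map_zero, mul_zero, B.smul_right] at h1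
      exact (mul_eq_zero.1 h1).resolve_left ((map_ne_zero_iff _ B.τ.injective).2 hb0)
  obtain ⟨d, hd⟩ := hTn
  -- general isotropic vectors
  have key : ∀ l c : K, c - B.τ c = l * B.τ l * B.h n n → σ c * a = c * b ∧ σ l * d = l * b := by
    intro l c hc
    have hI : B.Iso (w - l • n - c • u) := by
      refine ⟨fun h0 => ?_, ?_⟩
      · have h1 := congrArg (fun x => B.h x u) h0
        simp only [B.sub_left, B.smul_left, F.nu, F.wu, F.hu.2, B.zero_left, mul_zero, sub_zero] at h1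
        exact neg_ne_zero.2 one_ne_zero h1
      · simp only [B.sub_left, B.sub_right, B.smul_left, B.smul_right, F.hu.2, F.hw.2, F.uw, F.wu,
          F.nu, F.un, F.nw, F.wn, mul_zero, mul_one, sub_zero, zero_sub]
        linear_combination -hc
    obtain ⟨e, he⟩ := hfix _ hI
    have h1 : T (w - l • n - c • u) = b • w - (σ l * d) • n - (σ c * a) • u := by
      have h2 : w - l • n - c • u = w + ((-l) • n + (-c) • u) := by module
      rw [h2, hT, M.iter_add, M.iter_add, M.iter_smul, M.iter_smul, ← hT, ha, hb, hd, ← hσ, map_neg,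
        map_neg]
      module
    rw [h1] at he
    have e1 := congrArg (fun x => B.h x u) he
    have e2 := congrArg (fun x => B.h x w) he
    have e3 := congrArg (fun x => B.h x n) he
    simp only [B.sub_left, B.smul_left, F.hu.2, F.hw.2, F.uw, F.wu,
          F.nu, F.un, F.nw, F.wn, mul_zero, mul_one, sub_zero, zero_sub] at e1 e2 e3
    have f1 : b = e := by linear_combination -e1
    subst f1
    refine ⟨by linear_combination -e2, ?_⟩
    have h3 := F.hn
    have h4 : (σ l * d - l * b) * B.h n n = 0 := by linear_combination -e3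
    exact sub_eq_zero.1 ((mul_eq_zero.1 h4).resolve_right h3)
  have hab : a = b := by
    have h1 := (key 0 1 (by rw [map_one]; ring)).1
    rw [map_one, one_mul, one_mul] at h1
    exact h1
  subst hab
  have hσ1 : ∀ c, σ c = c := by
    intro c
    by_cases hc : B.τ c = c
    · have h1 := (key 0 c (by rw [hc]; ring)).1
      exact mul_right_cancel₀ ha0 h1
    · have h1 : B.τ ((c - B.τ c) / B.h n n) = (c - B.τ c) / B.h n n := by
        rw [map_div₀, map_sub, B.tt, F.hnτ, ← neg_sub c, neg_div_neg_eq]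
      obtain ⟨l, hl, hlN⟩ := B.norm_surj hK (div_ne_zero (sub_ne_zero.2 (Ne.symm hc)) F.hn) h1
      have h2 := (key l c (by rw [hlN, div_mul_cancel₀ _ F.hn])).1
      exact mul_right_cancel₀ ha0 h2
  have hda : d = a := by
    obtain ⟨c, hc⟩ := B.tr ((1 : K) • n)
    have h1 := (key 1 c (by rw [← hc, B.smul_left, B.smul_right, mul_assoc])).2
    rw [map_one, one_mul, one_mul] at h1
    exact h1
  subst hda
  refine ⟨RingEquiv.ext hσ1, d, fun x => ?_⟩
  obtain ⟨x1, x2, x3, rfl⟩ := F.span x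
  rw [hT, M.iter_add, M.iter_add, M.iter_smul, M.iter_smul, M.iter_smul, ← hT, ha, hb, hd, ← hσ, hσ1,
    hσ1, hσ1]
  module

lemma scale_iter {μ : K} (hμ : μ ≠ 0) (k : ℕ) (x : V) :
    (M.scale hμ).T^[k] x = nm M.ρ μ k • M.T^[k] x := by
  induction k with
  | zero => simp [nm]
  | succ k ih =>
    rw [Function.iterate_succ_apply', ih, nm_succ', Function.iterate_succ_apply']
    change μ • M.T _ = _
    rw [M.smul, smul_smul, mul_comm μ]

/-- The functional attached to a vector. -/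
def _root_.Pool.Agent.BSpi.Cls.SForm.fn (B : SForm K V) (z : V) : V →ₗ[K] K where
  toFun x := B.h x z
  map_add' x y := B.add_left x y z
  map_smul' a x := B.smul_left a x z

/-- Nonlinear automorphisms of odd prime order fix points. -/
lemma exists_fixed [Finite K] (hB : B.Dim3) (hK : ∃ b : K, b ≠ 0 ∧ B.τ b ^ 3 ≠ b ^ 3) {r : ℕ}
    (hr : r.Prime) (hr2 : r ≠ 2) (hf : f ^ r = 1) (hρ : M.ρ ≠ 1) :
    ∃ y, B.Iso y ∧ im f (D.A y) = D.A y := by
  obtain ⟨h1, a, ha⟩ := M.scalar_of_fix hB hK (k := r) (fun y hy => by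
    have h2 := M.iter_act r hy
    rw [hf, im_one] at h2
    obtain ⟨c, hc⟩ := D.A_inj (M.iter_isoVec r hy) hy h2.symm
    exact ⟨c, hc⟩)
  obtain ⟨u, hu⟩ := hB.1
  have ha0 : a ≠ 0 := by
    rintro rfl
    exact (M.iter_isoVec r hu).1 (by rw [ha, zero_smul])
  have hρa : M.ρ a = a := by
    have h2 : M.T (M.T^[r] u) = M.T^[r] (M.T u) := by
      rw [← Function.iterate_succ_apply' M.T r u, Function.iterate_succ_apply]
    rw [ha, ha, M.smul] at h2
    have h3 : (M.ρ a - a) • M.T u = 0 := by rw [sub_smul, h2, sub_self]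
    exact sub_eq_zero.1 ((smul_eq_zero.1 h3).resolve_right (M.isoVec hu).1)
  obtain ⟨μ, hμ, hμN⟩ := nm_surj hr h1 hρ (inv_ne_zero ha0) (by rw [map_inv₀, hρa])
  have hTr : ∀ x, (M.scale hμ).T^[r] x = x := by
    intro x
    rw [M.scale_iter, hμN, ha, smul_smul, inv_mul_cancel₀ ha0, one_smul]
  set N := M.scale hμ with hN
  have hNρ : N.ρ = M.ρ := rfl
  let T : V →+ V := { toFun := N.T, map_zero' := N.zero, map_add' := N.add }
  have hfx : ∀ z : V, z ≠ 0 → ∃ y, N.T y = y ∧ B.h y z ≠ 0 := by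
    intro z hz
    by_contra hcon
    push Not at hcon
    apply hz
    refine B.nondeg z fun y => B.zero_symm ?_
    exact fixed_span hr h1 hρ T (fun c x => N.smul c x) hTr (B.fn z) (fun x hx => hcon x hx) y
  suffices h : ∃ y, B.Iso y ∧ N.T y = y by
    obtain ⟨y, hy, hNy⟩ := h
    exact ⟨y, hy, by rw [N.act y hy, hNy]⟩
  have hρκ : ∀ x y, N.T x = x → N.T y = y → B.h x y = N.κ * N.ρ (B.h x y) := by
    intro x y hx hy
    have h2 := N.iso x y
    rwa [hx, hy] at h2
  have hdiv : ∀ x y x' y', N.T x = x → N.T y = y → N.T x' = x' → N.T y' = y' → B.h x' y' ≠ 0 →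
      N.ρ (B.h x y / B.h x' y') = B.h x y / B.h x' y' := by
    intro x y x' y' hx hy hx' hy' h0
    have h2 := hρκ x y hx hy
    have h3 := hρκ x' y' hx' hy'
    have h4 : N.ρ (B.h x' y') ≠ 0 := (map_ne_zero_iff _ N.ρ.injective).2 h0
    rw [map_div₀, div_eq_div_iff h4 h0]
    have h5 := N.κ0
    have h6 : N.κ * (N.ρ (B.h x y) * B.h x' y' - B.h x y * N.ρ (B.h x' y')) = 0 := by
      linear_combination (-(B.h x' y')) * h2 + B.h x y * h3
    exact sub_eq_zero.1 ((mul_eq_zero.1 h6).resolve_left h5)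
  obtain ⟨y1, hy1, hy1u⟩ := hfx u hu.1
  by_cases h11 : B.h y1 y1 = 0
  · refine ⟨y1, ⟨?_, h11⟩, hy1⟩
    rintro rfl
    exact hy1u (B.zero_left u)
  obtain ⟨w, hw, huw⟩ := SForm.partner hu
  set z := B.τ (B.h y1 w) • u - B.τ (B.h y1 u) • w with hz
  have hy1z : B.h y1 z = 0 := by
    rw [hz, B.sub_right, B.smul_right, B.smul_right, B.tt, B.tt]
    ring
  have hz0 : z ≠ 0 := by
    intro h0
    have h2 : B.h u z = 0 := by rw [h0, B.zero_right]
    rw [hz, B.sub_right, B.smul_right, B.smul_right, B.tt, B.tt, hu.2, huw] at h2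
    apply hy1u
    linear_combination -h2
  obtain ⟨y2, hy2, hy2z⟩ := hfx z hz0
  set y3 := y2 - (B.h y2 y1 / B.h y1 y1) • y1 with hy3
  have hT3 : N.T y3 = y3 := by
    rw [hy3, N.sub, N.smul, hy1, hy2, hdiv y2 y1 y1 y1 hy2 hy1 hy1 hy1 h11]
  have h31 : B.h y3 y1 = 0 := by
    rw [hy3, B.sub_left, B.smul_left, div_mul_cancel₀ _ h11, sub_self]
  have h30 : y3 ≠ 0 := by
    intro h0
    have h2 : B.h y3 z = 0 := by rw [h0, B.zero_left]
    rw [hy3, B.sub_left, B.smul_left, hy1z, mul_zero, sub_zero] at h2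
    exact hy2z h2
  by_cases h33 : B.h y3 y3 = 0
  · exact ⟨y3, ⟨h30, h33⟩, hT3⟩
  set k0 := -(B.h y1 y1 / B.h y3 y3) with hk0
  have hk00 : k0 ≠ 0 := neg_ne_zero.2 (div_ne_zero h11 h33)
  have hρk : N.ρ k0 = k0 := by rw [hk0, map_neg, hdiv y1 y1 y3 y3 hy1 hy1 hT3 hT3 h33]
  have hsk : ∀ x, B.τ (B.h x x) = - B.h x x := by
    intro x
    have h := B.skew x x
    rw [h, neg_neg, ← h]
  have hτk : B.τ k0 = k0 := by rw [hk0, map_neg, map_div₀, hsk, hsk, neg_div_neg_eq]
  obtain ⟨l0, hl0, hl0N⟩ := B.norm_surj hK hk00 hτk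
  have hpow : ∀ i : ℕ, (N.ρ ^ i) k0 = k0 := by
    intro i
    induction i with
    | zero => rfl
    | succ i ih =>
      rw [pow_succ]
      change (N.ρ ^ i) (N.ρ k0) = k0
      rw [hρk, ih]
  have hτnm : B.τ (nm N.ρ l0 r) = nm N.ρ (B.τ l0) r := by
    rw [nm, nm, map_prod]
    refine Finset.prod_congr rfl fun i _ => ?_
    rw [aut_comm]
  obtain ⟨m, hm⟩ := hr.odd_of_ne_two hr2
  have hnmk : nm N.ρ k0 r = k0 ^ r := by
    rw [nm, Finset.prod_congr rfl fun i _ => hpow i, Finset.prod_const, Finset.card_range]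
  set l := nm N.ρ l0 r * (k0 ^ m)⁻¹ with hl
  have hlN : l * B.τ l = k0 := by
    rw [hl, map_mul, map_inv₀, map_pow, hτk, hτnm]
    have h2 : nm N.ρ l0 r * nm N.ρ (B.τ l0) r = k0 ^ r := by rw [← nm_mul, hl0N, hnmk]
    have h3 : nm N.ρ l0 r * (k0 ^ m)⁻¹ * (nm N.ρ (B.τ l0) r * (k0 ^ m)⁻¹) =
        (nm N.ρ l0 r * nm N.ρ (B.τ l0) r) * ((k0 ^ m)⁻¹ * (k0 ^ m)⁻¹) := by ring
    rw [h3, h2, hm, pow_succ, pow_mul']
    field_simp
  have hρl : N.ρ l = l := by
    have h1' : N.ρ ^ r = 1 := h1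
    rw [hl, map_mul, map_inv₀, map_pow, hρk, nm_fixed h1' hl0]
  refine ⟨y1 + l • y3, ⟨?_, ?_⟩, ?_⟩
  · intro h0
    have h2 : B.h (y1 + l • y3) y1 = 0 := by rw [h0, B.zero_left]
    rw [B.add_left, B.smul_left, h31, mul_zero, add_zero] at h2
    exact h11 h2
  · rw [B.add_left, B.add_right, B.add_right, B.smul_left, B.smul_left, B.smul_right, B.smul_right,
      h31, B.zero_symm h31, ← mul_assoc, hlN, hk0]
    field_simp
    ring
  · rw [N.add, N.smul, hy1, hT3, hρl]

end Semi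

end Rep

end Pool.Agent.BSpi.Cls
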